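import Pool.Agent.Helper39.AF.Herm

/-!
The projection of the classes of degree four onto the Weil classes of a Weil structure.
-/

open scoped ComplexConjugate InnerProductSpace

namespace Pool.Agent.Helper39.AF

open Module Pool.Agent.GPC Pool.Agent.Helper7 Pool.Agent.Helper71.AF

section quadlin

variable {H : Type*} [AddCommGroup H] [Module ℂ H]

/-- additivity and homogeneity in each of four variables -/
structure FourLin (F : H → H → H → H → ℂ) : Prop where
  add1 : ∀ a a' b c e, F (a + a') b c e = F a b c e + F a' b c e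
  add2 : ∀ a b b' c e, F a (b + b') c e = F a b c e + F a b' c e
  add3 : ∀ a b c c' e, F a b (c + c') e = F a b c e + F a b c' e
  add4 : ∀ a b c e e', F a b c (e + e') = F a b c e + F a b c e'
  smul1 : ∀ (x : ℂ) a b c e, F (x • a) b c e = x * F a b c e
  smul2 : ∀ (x : ℂ) a b c e, F a (x • b) c e = x * F a b c e
  smul3 : ∀ (x : ℂ) a b c e, F a b (x • c) e = x * F a b c e
  smul4 : ∀ (x : ℂ) a b c e, F a b c (x • e) = x * F a b c e

/-- the projection -/
noncomputable def PF (d : ℂ) (J : H →ₗ[ℂ] H) (F : H → H → H → H → ℂ) (a b c e : H) : ℂ :=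
  (1 / 8) * ((1 + 1 / d) * F a b c e + (1 / d + 1 / d ^ 2) * F (J a) (J b) (J c) (J e)
    - (1 / (2 * d)) * (F (a + J a) (b + J b) (c + J c) (e + J e) +
        F (a + (-1 : ℂ) • J a) (b + (-1 : ℂ) • J b) (c + (-1 : ℂ) • J c) (e + (-1 : ℂ) • J e)))

variable {d : ℂ} {J : H →ₗ[ℂ] H} {F : H → H → H → H → ℂ}

lemma PF_expand (hF : FourLin F) (a b c e : H) : PF d J F a b c e =
    (1 / 8) * (F a b c e + (1 / d ^ 2) * F (J a) (J b) (J c) (J e)
      - (1 / d) * (F (J a) (J b) c e + F (J a) b (J c) e + F (J a) b c (J e) +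
        F a (J b) (J c) e + F a (J b) c (J e) + F a b (J c) (J e))) := by
  unfold PF
  simp only [hF.add1, hF.add2, hF.add3, hF.add4, hF.smul1, hF.smul2, hF.smul3, hF.smul4]
  ring

variable (hd : d ≠ 0) (hJ : ∀ a, J (J a) = (-d) • a)

include hd hJ in
lemma PF_move2 (hF : FourLin F) (a b c e : H) : PF d J F (J a) b c e = PF d J F a (J b) c e := by
  rw [PF_expand hF, PF_expand hF]
  simp only [hJ, hF.smul1, hF.smul2]
  field_simp
  ring

include hd hJ in
lemma PF_move3 (hF : FourLin F) (a b c e : H) : PF d J F (J a) b c e = PF d J F a b (J c) e := by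
  rw [PF_expand hF, PF_expand hF]
  simp only [hJ, hF.smul1, hF.smul3]
  field_simp
  ring

include hd hJ in
lemma PF_move4 (hF : FourLin F) (a b c e : H) : PF d J F (J a) b c e = PF d J F a b c (J e) := by
  rw [PF_expand hF, PF_expand hF]
  simp only [hJ, hF.smul1, hF.smul4]
  field_simp
  ring

include hd hJ in
lemma PF_eq (hF : FourLin F) (h2 : ∀ a b c e, F (J a) b c e = F a (J b) c e)
    (h3 : ∀ a b c e, F (J a) b c e = F a b (J c) e)
    (h4 : ∀ a b c e, F (J a) b c e = F a b c (J e)) (a b c e : H) :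
    PF d J F a b c e = F a b c e := by
  rw [PF_expand hF]
  simp only [← h2, ← h3, ← h4, hJ, hF.smul1]
  field_simp
  ring

end quadlin

variable {X : AbVar}

lemma isEnd_add {f g : X.H1 → X.H1} (hf : X.IsEnd f) (hg : X.IsEnd g) :
    X.IsEnd (fun v => f v + g v) := by
  refine ⟨⟨fun u v => by rw [hf.linear.map_add, hg.linear.map_add]; abel, fun c v => by
    rw [hf.linear.map_smul, hg.linear.map_smul, smul_add]⟩, fun v h => ?_, fun v h j => ?_,
    fun v h a => ?_⟩
  · rw [isBetti_iff]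
    exact Submodule.add_mem _ ((isBetti_iff _ _).mp (hf.betti v h))
      ((isBetti_iff _ _).mp (hg.betti v h))
  · exact (hf.deRham v h j).add (hg.deRham v h j)
  · change f v (.inl a) + g v (.inl a) = 0
    rw [show f v (.inl a) = 0 from hf.hodge v h a, show g v (.inl a) = 0 from hg.hodge v h a,
      add_zero]

lemma isEnd_ratSmul {f : X.H1 → X.H1} (hf : X.IsEnd f) (q : ℚ) :
    X.IsEnd (fun v => (q : ℂ) • f v) := by
  refine ⟨⟨fun u v => by rw [hf.linear.map_add, smul_add], fun c v => by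
    rw [hf.linear.map_smul, smul_comm]⟩, fun v h => ?_, fun v h j => ?_, fun v h a => ?_⟩
  · rw [isBetti_iff]
    have h1 := Submodule.smul_mem _ q ((isBetti_iff _ _).mp (hf.betti v h))
    have h2 : q • f v = (q : ℂ) • f v := by
      funext j
      simp only [Pi.smul_apply, smul_eq_mul]
      exact Rat.smul_def q (f v j)
    rw [h2] at h1
    exact h1
  · exact (isAlgebraic_ratCast ℚ _).mul (hf.deRham v h j)
  · change (q : ℂ) * f v (.inl a) = 0
    rw [show f v (.inl a) = 0 from hf.hodge v h a, mul_zero]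

/-- for a Weil structure `J` the Rosati adjoint of `J` is `-J` -/
lemma weil_skew {d : ℚ} {J : X.H1 → X.H1} (hJ : X.IsWeilStructure d J) (u v : X.H1) :
    X.pol (J u) v = X.pol u (- J v) := by
  obtain ⟨hd, hJE, hJ2, -, hcomm⟩ := hJ
  obtain ⟨J', hJ', hadj⟩ := exists_adj_mor X X J ((isEnd_iff X J).mp hJE)
  have hd0 : (-(d : ℂ)) ≠ 0 := neg_ne_zero.mpr (Rat.cast_ne_zero.mpr hd.ne')
  have halt : ∀ u v, X.pol u v = - X.pol v u := fun u v => by
    change (pData X).ψ u v = - (pData X).ψ v u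
    exact (pData X).hψalt u v
  have hadj' : ∀ u v, X.pol (J' u) v = X.pol u (J v) := by
    intro u v
    rw [halt, ← hadj, halt, neg_neg]
  have hpE : X.IsEnd (fun v => J' (J v)) :=
    (isEnd_iff X _).mpr (isMor_comp hJ' ((isEnd_iff X J).mp hJE))
  have hps : X.IsAdjoint (fun v => J' (J v)) (fun v => J' (J v)) := by
    intro u v
    rw [hadj', hadj]
  have hpc : ∀ v, J (J' (J v)) = J' (J (J v)) := fun v => hcomm _ hpE hps v
  have hJJ : ∀ v, J (J' v) = J' (J v) := by
    intro v
    have h2 := hpc (J v)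
    rw [hJ2, hJ'.linear.map_smul, hJE.linear.map_smul, hJE.linear.map_smul,
      hJ'.linear.map_smul] at h2
    exact smul_right_injective _ hd0 h2
  have hJ'2 : ∀ v, J' (J' v) = (-(d : ℂ)) • v := by
    intro v
    rw [← sub_eq_zero]
    apply ndr (pData X)
    intro u
    have h1 : X.pol (J (J u)) v = X.pol u (J' (J' v)) := by rw [hadj, hadj]
    rw [hJ2] at h1
    have h2 : (pData X).ψ ((-(d : ℂ)) • u) v = (pData X).ψ u (J' (J' v)) := h1
    rw [map_smul, LinearMap.smul_apply] at h2
    rw [map_sub, map_smul, ← h2, sub_self]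
  have hpp : ∀ v, J' (J (J' (J v))) = ((d : ℂ) * d) • v := by
    intro v
    rw [hpc v, hJ2, hJ'.linear.map_smul, hJ'.linear.map_smul, hJ'2, smul_smul]
    congr 1
    ring
  let Jl : X.H1 →ₗ[ℂ] X.H1 := hJE.linear.mk' J
  let Jl' : X.H1 →ₗ[ℂ] X.H1 := hJ'.linear.mk' J'
  have key : ∀ u ∈ VR X, J' (J u) = (d : ℂ) • u := by
    intro u hu
    have hx : J' (J u) - (d : ℂ) • u ∈ VR X := by
      refine Submodule.sub_mem _ (VR_mor hJ' (VR_mor ((isEnd_iff X J).mp hJE) hu)) ?_
      have h1 := Submodule.smul_mem (VR X) (d : ℝ) hu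
      have h2 : (d : ℝ) • u = (d : ℂ) • u := by funext j; simp
      rw [h2] at h1
      exact h1
    obtain ⟨x, hxdef⟩ : ∃ x, x = J' (J u) - (d : ℂ) • u := ⟨_, rfl⟩
    rw [← hxdef] at hx
    have hpx : J' (J x) = (-(d : ℂ)) • x := by
      rw [hxdef, hJE.linear.map_sub, hJ'.linear.map_sub, hpp, hJE.linear.map_smul,
        hJ'.linear.map_smul, smul_sub, smul_smul]
      rw [neg_smul, neg_mul, neg_smul]
      abel
    have h1 := hf_adj X Jl Jl' hJE ((isEnd_iff X J').mpr hJ') hadj hx
      (VR_mor ((isEnd_iff X J).mp hJE) hx)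
    have h2 : hf X (Jl x) (J x) = hf X x (Jl' (J x)) := h1
    have h3 : Jl' (J x) = (-(d : ℂ)) • x := hpx
    have h4 : hf X (J x) (J x) = (-(d : ℂ)) * hf X x x := by
      have h5 : hf X (J x) (J x) = hf X x (Jl' (J x)) := h2
      rw [h5, h3]
      unfold hf
      rw [map_smul, Pool.Agent.Helper7.hermForm_smul_right]
      congr 1
      simp
    have h5 := hf_nonneg X (VR_mor ((isEnd_iff X J).mp hJE) hx)
    rw [h4] at h5
    have h6 : ((-(d : ℂ)) * hf X x x).re = -(d : ℝ) * (hf X x x).re := by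
      have h7 : (-(d : ℂ)) = ((-(d : ℝ) : ℝ) : ℂ) := by push_cast; rfl
      rw [h7, Complex.re_ofReal_mul]
    rw [h6] at h5
    by_contra hne
    have hx0 : x ≠ 0 := by
      rw [hxdef]
      exact sub_ne_zero.mpr hne
    have h7 := hf_pos X hx hx0
    have h8 : (0 : ℝ) < d := by exact_mod_cast hd
    have h9 : 0 < (d : ℝ) * (hf X x x).re := mul_pos h8 h7
    linarith
  have key2 : ∀ u, J' (J u) = (d : ℂ) • u := by
    intro u
    obtain ⟨a, ha, b, hb, rfl⟩ := Pool.Agent.Helper71.AF.exists_decomp X u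
    rw [hJE.linear.map_add, hJ'.linear.map_add, hJE.linear.map_smul, hJ'.linear.map_smul,
      key a ha, key b hb, smul_add, smul_comm]
  have h1 := key2 (J v)
  rw [hJ2, hJ'.linear.map_smul] at h1
  have h2 : J' v = - J v := by
    have h3 : (-(d : ℂ)) • J' v = (-(d : ℂ)) • (- J v) := by rw [h1, smul_neg, neg_smul, neg_neg]
    exact smul_right_injective _ hd0 h3
  rw [hadj, h2]


section proj

/-- the endomorphism `1 + q J` as a linear map -/
noncomputable def onePlus (q : ℂ) (J : X.H1 →ₗ[ℂ] X.H1) : X.H1 →ₗ[ℂ] X.H1 :=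
  LinearMap.id + q • J

/-- the projection onto the Weil classes of `J` -/
noncomputable def wproj (d : ℚ) (J : X.H1 →ₗ[ℂ] X.H1) : X.Class (2 * 2) →ₗ[ℂ] X.Class (2 * 2) :=
  (1 / 8 : ℂ) • ((1 + 1 / (d : ℂ)) • LinearMap.id + (1 / (d : ℂ) + 1 / (d : ℂ) ^ 2) • pull X J
    - (1 / (2 * (d : ℂ))) • (pull X (onePlus 1 J) + pull X (onePlus (-1) J)))

/-- a class of degree four as a function of four variables -/
def four (α : X.Class (2 * 2)) (a b c e : X.H1) : ℂ := α ![a, b, c, e]

lemma four_lin (α : X.Class (2 * 2)) : FourLin (four α) := by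
  have u0 : ∀ x a b c e : X.H1, Function.update (![a, b, c, e] : Fin (2 * 2) → X.H1) 0 x =
      ![x, b, c, e] := by
    intro x a b c e; funext j; fin_cases j <;> rfl
  have u1 : ∀ x a b c e : X.H1, Function.update (![a, b, c, e] : Fin (2 * 2) → X.H1) 1 x =
      ![a, x, c, e] := by
    intro x a b c e; funext j; fin_cases j <;> rfl
  have u2 : ∀ x a b c e : X.H1, Function.update (![a, b, c, e] : Fin (2 * 2) → X.H1) 2 x =
      ![a, b, x, e] := by
    intro x a b c e; funext j; fin_cases j <;> rfl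
  have u3 : ∀ x a b c e : X.H1, Function.update (![a, b, c, e] : Fin (2 * 2) → X.H1) 3 x =
      ![a, b, c, x] := by
    intro x a b c e; funext j; fin_cases j <;> rfl
  constructor
  · intro a a' b c e
    have := α.map_update_add ![a, b, c, e] 0 a a'
    rwa [u0, u0, u0] at this
  · intro a b b' c e
    have := α.map_update_add ![a, b, c, e] 1 b b'
    rwa [u1, u1, u1] at this
  · intro a b c c' e
    have := α.map_update_add ![a, b, c, e] 2 c c'
    rwa [u2, u2, u2] at this
  · intro a b c e e'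
    have := α.map_update_add ![a, b, c, e] 3 e e'
    rwa [u3, u3, u3] at this
  · intro x a b c e
    have := α.map_update_smul ![a, b, c, e] 0 x a
    rwa [u0, u0] at this
  · intro x a b c e
    have := α.map_update_smul ![a, b, c, e] 1 x b
    rwa [u1, u1] at this
  · intro x a b c e
    have := α.map_update_smul ![a, b, c, e] 2 x c
    rwa [u2, u2] at this
  · intro x a b c e
    have := α.map_update_smul ![a, b, c, e] 3 x e
    rwa [u3, u3] at this

lemma eq_four (α : X.Class (2 * 2)) (v : Fin (2 * 2) → X.H1) :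
    α v = four α (v 0) (v 1) (v 2) (v 3) := by
  unfold four
  congr 1
  funext j
  fin_cases j <;> rfl

lemma pull_four (f : X.H1 →ₗ[ℂ] X.H1) (α : X.Class (2 * 2)) (a b c e : X.H1) :
    four (pull X f α) a b c e = four α (f a) (f b) (f c) (f e) := by
  unfold four
  rw [pull_apply]
  congr 1
  funext j
  fin_cases j <;> rfl

lemma wproj_four (d : ℚ) (J : X.H1 →ₗ[ℂ] X.H1) (α : X.Class (2 * 2)) (a b c e : X.H1) :
    four (wproj d J α) a b c e = PF (d : ℂ) J (four α) a b c e := by
  have h1 : four (wproj d J α) a b c e = (1 / 8 : ℂ) * ((1 + 1 / (d : ℂ)) * four α a b c e +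
    (1 / (d : ℂ) + 1 / (d : ℂ) ^ 2) * four (pull X J α) a b c e
    - (1 / (2 * (d : ℂ))) * (four (pull X (onePlus 1 J) α) a b c e +
      four (pull X (onePlus (-1) J) α) a b c e)) := rfl
  rw [h1, pull_four, pull_four, pull_four]
  unfold PF onePlus
  simp only [LinearMap.add_apply, LinearMap.smul_apply, LinearMap.id_apply, one_smul]

variable {d : ℚ} {J : X.H1 →ₗ[ℂ] X.H1} (hd : d ≠ 0) (hJ : ∀ a, J (J a) = (-(d : ℂ)) • a)

include hd hJ in
/-- the image of the projection consists of Weil classes -/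
lemma wproj_weil (α : X.Class (2 * 2)) (v : Fin (2 * 2) → X.H1) (r s : Fin (2 * 2)) :
    wproj d J α (Function.update v r (J (v r))) = wproj d J α (Function.update v s (J (v s))) := by
  have hd' : (d : ℂ) ≠ 0 := Rat.cast_ne_zero.mpr hd
  have key : ∀ r : Fin (2 * 2), wproj d J α (Function.update v r (J (v r))) =
      PF (d : ℂ) J (four α) (J (v 0)) (v 1) (v 2) (v 3) := by
    intro r
    rw [eq_four, wproj_four]
    fin_cases r
    · rfl
    · exact (PF_move2 hd' hJ (four_lin α) (v 0) (v 1) (v 2) (v 3)).symm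
    · exact (PF_move3 hd' hJ (four_lin α) (v 0) (v 1) (v 2) (v 3)).symm
    · exact (PF_move4 hd' hJ (four_lin α) (v 0) (v 1) (v 2) (v 3)).symm
  rw [key r, key s]

include hd hJ in
/-- Weil classes are fixed by the projection -/
lemma wproj_eq (w : X.Class (2 * 2))
    (hw : ∀ v r s, w (Function.update v r (J (v r))) = w (Function.update v s (J (v s)))) :
    wproj d J w = w := by
  have hd' : (d : ℂ) ≠ 0 := Rat.cast_ne_zero.mpr hd
  have key : ∀ (r s : Fin (2 * 2)) (a b c e : X.H1),
      four w ((Function.update ![a, b, c, e] r (J ((![a, b, c, e] : Fin (2 * 2) → X.H1) r)) : Fin (2 * 2) → X.H1) 0)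
        ((Function.update ![a, b, c, e] r (J ((![a, b, c, e] : Fin (2 * 2) → X.H1) r)) : Fin (2 * 2) → X.H1) 1)
        ((Function.update ![a, b, c, e] r (J ((![a, b, c, e] : Fin (2 * 2) → X.H1) r)) : Fin (2 * 2) → X.H1) 2)
        ((Function.update ![a, b, c, e] r (J ((![a, b, c, e] : Fin (2 * 2) → X.H1) r)) : Fin (2 * 2) → X.H1) 3) =
      four w ((Function.update ![a, b, c, e] s (J ((![a, b, c, e] : Fin (2 * 2) → X.H1) s)) : Fin (2 * 2) → X.H1) 0)
        ((Function.update ![a, b, c, e] s (J ((![a, b, c, e] : Fin (2 * 2) → X.H1) s)) : Fin (2 * 2) → X.H1) 1)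
        ((Function.update ![a, b, c, e] s (J ((![a, b, c, e] : Fin (2 * 2) → X.H1) s)) : Fin (2 * 2) → X.H1) 2)
        ((Function.update ![a, b, c, e] s (J ((![a, b, c, e] : Fin (2 * 2) → X.H1) s)) : Fin (2 * 2) → X.H1) 3) := by
    intro r s a b c e
    rw [← eq_four, ← eq_four]
    exact hw _ r s
  ext v
  rw [eq_four, wproj_four, eq_four w]
  exact PF_eq hd' hJ (four_lin w) (fun a b c e => key 0 1 a b c e) (fun a b c e => key 0 2 a b c e)
    (fun a b c e => key 0 3 a b c e) _ _ _ _

end proj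

end Pool.Agent.Helper39.AF
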