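import Pool.Agent.Helper7.AF.Defs

/-!
Cohomology classes on one abelian variety over the algebraic numbers: Grothendieck classes, products
of divisors, Weil classes.  Definitions for the intrinsic form of the theorem on abelian varieties of
dimension at most four.
-/

namespace Pool.Agent.GPC

namespace AbVar

variable (X : AbVar)

/-- `H^m(X, ℂ)`, the space of alternating forms of degree `m` on `H_1(X, ℂ)` -/
abbrev Class (m : ℕ) : Type := X.H1 [⋀^Fin m]→ₗ[ℂ] ℂ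

/-- `α` lies in `(2πi)^k H^m(X, ℚ)`. -/
def IsRational {m : ℕ} (k : ℕ) (α : X.Class m) : Prop :=
  ∀ v : Fin m → X.H1, (∀ r, X.IsBetti (v r)) → ∃ c : ℚ, α v = (2 * Real.pi * Complex.I) ^ k * c

/-- `α` is a Grothendieck class, an element of
`H^{2k}_Gr(X, ℚ(k)) = H^{2k}_dR(X) ∩ (2πi)^k H^{2k}(X, ℚ)`. -/
def IsGrothendieckClass (k : ℕ) (α : X.Class (2 * k)) : Prop :=
  (∀ v : Fin (2 * k) → X.H1, (∀ r, X.IsDeRham (v r)) → IsAlgebraic ℚ (α v)) ∧ X.IsRational k α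

/-- `α` is a linear combination, with rational coefficients, of `k`-fold products of classes of
divisors `f^{-1}(D)`, `D` a hyperplane section of `X` and `f` an endomorphism of `X` (tensor `ℚ`). -/
def IsDivisorialClass (k : ℕ) (α : X.Class (2 * k)) : Prop :=
  ∃ (m : ℕ) (c : Fin m → ℚ) (f : Fin m → Fin k → X.H1 → X.H1) (ω : Fin m → (Fin (2 * k) → X.H1) → ℂ),
    (∀ j a, X.IsEnd (f j a)) ∧ (∀ j, IsProduct (fun a u v => X.pol (f j a u) (f j a v)) (ω j)) ∧
      ∀ v, α v = ∑ j, (c j : ℂ) * ω j v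

/-- `K = ℚ(J)`, `J^2 = -d`, is an imaginary quadratic field of endomorphisms (tensor `ℚ`) of `X`
which does not act by scalars on `Fil` (equivalently: on `Lie X`), and `J` commutes with all
Rosati-symmetric endomorphisms (tensor `ℚ`) of `X`. -/
def IsWeilStructure (d : ℚ) (J : X.H1 → X.H1) : Prop :=
  0 < d ∧ X.IsEnd J ∧ (∀ v, J (J v) = (-(d : ℂ)) • v) ∧
  (¬ ∃ c : ℂ, ∀ v, X.IsFil v → J v = c • v) ∧
  ∀ s, X.IsEnd s → X.IsAdjoint s s → ∀ v, J (s v) = s (J v)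

/-- `w` is a Weil class on the abelian fourfold `X`: a class in `H^4(X, ℚ(2))` which is in the image
of `⋀^4_K H^1(X, ℚ)` for a field `K = ℚ(J)` as in `IsWeilStructure`, i.e. such that
`w(J v_1, v_2, v_3, v_4) = w(v_1, J v_2, v_3, v_4)` and so on. -/
def IsWeil (k : ℕ) (w : X.Class (2 * k)) : Prop :=
  (k = 2 ∧ X.g = 4) ∧ X.IsRational k w ∧
  ∃ (d : ℚ) (J : X.H1 → X.H1), X.IsWeilStructure d J ∧
    ∀ v r s, w (Function.update v r (J (v r))) = w (Function.update v s (J (v s)))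

/-- `α` is the sum of a divisorial class and of Weil classes. -/
def IsDivisorialPlusWeil (k : ℕ) (α : X.Class (2 * k)) : Prop :=
  ∃ (m : ℕ) (w : Fin m → X.Class (2 * k)), (∀ r, X.IsWeil k (w r)) ∧
    X.IsDivisorialClass k (α - ∑ r, w r)

/-- `End(X) ⊗ ℚ` is `K` or `K × K` for an imaginary quadratic field `K = ℚ(√-d)`: it is spanned by
`1, J, e, e J` with `J^2 = -d`, `e^2 = e`, `e J = J e`. -/
def IsExceptional : Prop :=
  ∃ (d : ℚ) (J e : X.H1 → X.H1), 0 < d ∧ X.IsEnd J ∧ X.IsEnd e ∧ (∀ v, J (J v) = (-(d : ℂ)) • v) ∧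
    (∀ v, e (e v) = e v) ∧ (∀ v, e (J v) = J (e v)) ∧
    ∀ f, X.IsEnd f → ∃ a b a' b' : ℚ, ∀ v,
      f v = (a : ℂ) • v + (b : ℂ) • J v + (a' : ℂ) • e v + (b' : ℂ) • e (J v)

end AbVar

end Pool.Agent.GPC
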