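import Pool.Agent.Helper39.AF.Sub
import Pool.Agent.Helper39.AF.Defs1
import Pool.Agent.Helper7.Deriv

/-!
The abelian subvariety which is the image of a symmetric idempotent endomorphism.
-/

open scoped ComplexConjugate

namespace Pool.Agent.Helper39.AF

open Module Pool.Agent.GPC

/-- a linear map which respects algebraic vectors commutes with derivations -/
lemma map_derivation {κ κ' : Type} [Fintype κ] [DecidableEq κ] (D : Derivation ℚ ℂ ℂ)
    (f : (κ → ℂ) →ₗ[ℂ] (κ' → ℂ))
    (hf : ∀ v : κ → ℂ, (∀ k, IsAlgebraic ℚ (v k)) → ∀ j, IsAlgebraic ℚ (f v j))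
    (v : κ → ℂ) : f (fun k => D (v k)) = fun j => D (f v j) := by
  have h1 : ∀ w : κ → ℂ, w = ∑ k, w k • (Pi.single k (1 : ℂ) : κ → ℂ) := by
    intro w
    funext j
    simp [Finset.sum_apply, Pi.single_apply]
  have h2 : ∀ w : κ → ℂ, ∀ j, f w j = ∑ k, w k * f (Pi.single k 1) j := by
    intro w j
    conv_lhs => rw [h1 w]
    rw [map_sum, Finset.sum_apply]
    exact Finset.sum_congr rfl fun k _ => by rw [map_smul]; rfl
  funext j
  rw [h2, h2 v, map_sum]
  refine Finset.sum_congr rfl fun k _ => ?_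
  rw [Derivation.leibniz, Helper7.derivation_eq_zero D _ (hf _ (by
    intro i
    by_cases hi : i = k
    · subst hi; rw [Pi.single_eq_same]; exact isAlgebraic_one
    · rw [Pi.single_eq_of_ne hi]; exact isAlgebraic_zero) j)]
  simp [mul_comm]

lemma period_nsmul (X : AbVar) (N : ℕ) (l : Fin X.g → ℂ) :
    X.period (N • l) = (N : ℂ) • X.period l := by
  have h1 : Helper7.periodHom X (N • l) = N • Helper7.periodHom X l := map_nsmul _ _ _
  have h2 : Helper7.periodHom X (N • l) = X.period (N • l) := rfl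
  rw [← h2, h1]
  funext j
  simp only [Pi.smul_apply, nsmul_eq_mul, smul_eq_mul]
  rfl

/-- pairing of a vector of `ℂ^g` with `lm L w` -/
lemma lm_dot {g h : ℕ} (L : Fin h → Fin g → ℂ) (w : Fin h → ℂ) (t : Fin g → ℂ) :
    ∑ a, lm L w a * t a = ∑ b, w b * ∑ a, L b a * t a := by
  rw [lm_apply]
  simp only [Finset.sum_apply, Pi.smul_apply, smul_eq_mul, Finset.sum_mul, Finset.mul_sum]
  rw [Finset.sum_comm]
  exact Finset.sum_congr rfl fun b _ => Finset.sum_congr rfl fun a _ => by ring

section eta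

variable (X : AbVar) {h : ℕ} (L : Fin h → Fin X.g → ℂ)
    (hL : ∀ b a, IsAlgebraic ℚ (L b a)) (hinj : Function.Injective (lm L))
    (hspan : Submodule.span ℝ
      ((X.Λ.comap ((lm L).restrictScalars ℤ) : Submodule ℤ (Fin h → ℂ)) : Set (Fin h → ℂ)) = ⊤)

lemma eta_sub (l : Fin h → ℂ) (b : Fin h) :
    (sub X L hL hinj hspan).eta l b = ∑ a, L b a * X.eta (lm L l) a := by
  have h1 : (sub X L hL hinj hspan).eta l b =
      Real.pi * hermForm (pullH L X.H) (Pi.single b 1) l + bilForm (pullQ L X.q) (Pi.single b 1) l :=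
    rfl
  rw [h1, hermForm_pull, bilForm_pull, lm_single, Helper7.hermForm_eq_sum, Helper7.bilForm_eq_sum,
    Finset.mul_sum, ← Finset.sum_add_distrib]
  refine Finset.sum_congr rfl fun a _ => ?_
  unfold AbVar.eta
  ring

end eta

/-- the abelian subvariety which is the image of a symmetric idempotent. -/
theorem sub_abVar (X : AbVar) (e : X.H1 → X.H1) (he : X.IsEnd e) (hid : ∀ v, e (e v) = e v)
    (hsym : X.IsAdjoint e e) :
    ∃ (Y : AbVar) (ι : Y.H1 → X.H1) (π : X.H1 → Y.H1), Y.IsMor X ι ∧ X.IsMor Y π ∧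
      (∀ y, π (ι y) = y) ∧ (∀ x, ι (π x) = e x) ∧ ∀ u v, X.pol (ι u) (ι v) = Y.pol u v := by
  classical
  let E : X.H1 →ₗ[ℂ] X.H1 := he.linear.mk' e
  have hE : ∀ v, E v = e v := fun _ => rfl
  -- projection and inclusion
  let pr : X.H1 →ₗ[ℂ] (Fin X.g → ℂ) := LinearMap.funLeft ℂ ℂ Sum.inl
  have hpr : ∀ v a, pr v a = v (.inl a) := fun _ _ => rfl
  let inc : (Fin X.g → ℂ) →ₗ[ℂ] X.H1 :=
    { toFun := fun z => Sum.elim z 0
      map_add' := by
        intro z w; funext j; rcases j with j | j <;> simp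
      map_smul' := by
        intro c z; funext j; rcases j with j | j <;> simp }
  have hpri : ∀ z, pr (inc z) = z := fun z => rfl
  let φ : (Fin X.g → ℂ) →ₗ[ℂ] (Fin X.g → ℂ) := pr ∘ₗ E ∘ₗ inc
  have hφ : ∀ v, pr (E v) = φ (pr v) := by
    intro v
    have h1 : pr (E (v - inc (pr v))) = 0 := by
      funext a
      have h2 : X.IsFil (v - inc (pr v)) := by
        intro a
        show v (.inl a) - v (.inl a) = 0
        ring
      exact he.hodge _ h2 a
    rw [map_sub, map_sub, sub_eq_zero] at h1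
    exact h1
  have hφφ : ∀ z, φ (φ z) = φ z := by
    intro z
    have h1 : φ z = pr (E (inc z)) := rfl
    rw [h1, ← hφ, hE, hE, hid]
  -- algebraic basis of the image
  let ea : Fin X.g → (Fin X.g → ℂ) := fun a => φ (Pi.single a 1)
  have hea : ∀ a c, IsAlgebraic ℚ (ea a c) := by
    intro a c
    have h1 : X.IsDeRham (inc (Pi.single a 1)) := by
      intro j
      rcases j with j | j
      · show IsAlgebraic ℚ ((Pi.single a 1 : Fin X.g → ℂ) j)
        by_cases hj : j = a
        · subst hj; rw [Pi.single_eq_same]; exact isAlgebraic_one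
        · rw [Pi.single_eq_of_ne hj]; exact isAlgebraic_zero
      · exact isAlgebraic_zero
    exact he.deRham _ h1 (.inl c)
  obtain ⟨κ', s, hs, hsp, hli⟩ := exists_linearIndependent' ℂ ea
  have hfin : Finite κ' := hli.finite
  have := Fintype.ofFinite κ'
  let eqv := Fintype.equivFin κ'
  let L : Fin (Fintype.card κ') → (Fin X.g → ℂ) := fun b => ea (s (eqv.symm b))
  have hL : ∀ b a, IsAlgebraic ℚ (L b a) := fun b a => hea _ a
  have hLli : LinearIndependent ℂ L := hli.comp eqv.symm eqv.symm.injective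
  have hinj : Function.Injective (lm L) := by
    rw [← LinearMap.ker_eq_bot, LinearMap.ker_eq_bot']
    intro w hw
    rw [Fintype.linearIndependent_iff] at hLli
    funext b
    exact hLli w hw b
  have hLspan : Submodule.span ℂ (Set.range L) = LinearMap.range φ := by
    have h1 : Set.range L = Set.range (ea ∘ s) := by
      ext x; constructor
      · rintro ⟨b, rfl⟩; exact ⟨eqv.symm b, rfl⟩
      · rintro ⟨k, rfl⟩; exact ⟨eqv k, by simp [L]⟩
    rw [h1, hsp]
    have h2 : Set.range ea = φ '' (Set.range (fun a => (Pi.single a 1 : Fin X.g → ℂ))) := by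
      rw [← Set.range_comp]; rfl
    rw [h2, ← Submodule.map_span]
    have h3 : Submodule.span ℂ (Set.range fun a => (Pi.single a 1 : Fin X.g → ℂ)) = ⊤ := by
      have := (Pi.basisFun ℂ (Fin X.g)).span_eq
      convert this using 3
      funext a
      simp
    rw [h3, Submodule.map_top]
  have hrange : LinearMap.range (lm L) = LinearMap.range φ := by
    rw [← hLspan]
    apply le_antisymm
    · rintro _ ⟨w, rfl⟩
      rw [lm_apply]
      exact Submodule.sum_mem _ fun b _ => Submodule.smul_mem _ _ (Submodule.subset_span ⟨b, rfl⟩)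
    · rw [Submodule.span_le]
      rintro _ ⟨b, rfl⟩
      exact ⟨Pi.single b 1, lm_single L b⟩
  have hfix : ∀ w, φ (lm L w) = lm L w := by
    intro w
    have h1 : lm L w ∈ LinearMap.range φ := hrange ▸ LinearMap.mem_range_self _ w
    obtain ⟨z, hz⟩ := h1
    rw [← hz, hφφ]
  -- rational multiples of images of periods
  have hper : ∀ l ∈ X.Λ, ∃ N : ℕ, N ≠ 0 ∧ ∃ l'' ∈ X.Λ, (N : ℂ) • E (X.period l) = X.period l'' ∧
      (N : ℂ) • φ l = l'' := by
    intro l hl
    obtain ⟨N, hN, l'', hl'', h1⟩ := he.betti (X.period l) ⟨1, one_ne_zero, l, hl, by simp⟩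
    refine ⟨N, hN, l'', hl'', h1, ?_⟩
    have h2 : pr ((N : ℂ) • E (X.period l)) = pr (X.period l'') := congrArg pr h1
    rw [map_smul, hφ] at h2
    exact h2
  have hspan : Submodule.span ℝ ((X.Λ.comap ((lm L).restrictScalars ℤ) :
      Submodule ℤ (Fin (Fintype.card κ') → ℂ)) : Set (Fin (Fintype.card κ') → ℂ)) = ⊤ := by
    rw [eq_top_iff]
    intro w _
    set P := Submodule.span ℝ ((X.Λ.comap ((lm L).restrictScalars ℤ) :
      Submodule ℤ (Fin (Fintype.card κ') → ℂ)) : Set (Fin (Fintype.card κ') → ℂ)) with hP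
    have h1 : ∀ z : Fin X.g → ℂ, φ z ∈ P.map ((lm L).restrictScalars ℝ) := by
      intro z
      have hz : z ∈ Submodule.span ℝ (X.Λ : Set (Fin X.g → ℂ)) := by rw [X.spans]; trivial
      induction hz using Submodule.span_induction with
      | mem l hl =>
        obtain ⟨N, hN, l'', hl'', -, h2⟩ := hper l hl
        have h3 : φ l ∈ LinearMap.range (lm L) := hrange ▸ LinearMap.mem_range_self φ l
        obtain ⟨w', hw'⟩ := h3
        refine ⟨w', ?_, hw'⟩
        have hNC : (N : ℂ) ≠ 0 := Nat.cast_ne_zero.mpr hN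
        have hNR : (N : ℝ) ≠ 0 := Nat.cast_ne_zero.mpr hN
        have h4 : (N : ℝ) • w' ∈ P := by
          apply Submodule.subset_span
          show lm L ((N : ℝ) • w') ∈ X.Λ
          have h5 : (N : ℝ) • w' = (N : ℂ) • w' := by
            funext j; simp
          rw [h5, map_smul, hw', h2]
          exact hl''
        have h6 := P.smul_mem ((N : ℝ)⁻¹) h4
        rwa [smul_smul, inv_mul_cancel₀ hNR, one_smul] at h6
      | zero => rw [map_zero]; exact Submodule.zero_mem _
      | add x y _ _ hx hy => rw [map_add]; exact Submodule.add_mem _ hx hy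
      | smul r x _ hx =>
        have h2 : φ (r • x) = r • φ x := by
          have : r • x = (r : ℂ) • x := by funext j; simp
          rw [this, map_smul]
          funext j; simp
        rw [h2]
        exact Submodule.smul_mem _ _ hx
    obtain ⟨w', hw', h2⟩ := h1 (lm L w)
    rw [hfix] at h2
    have h3 : w' = w := hinj h2
    rw [← h3]
    exact hw'
  set Y : AbVar := sub X L hL hinj hspan with hY
  -- a left inverse of `lm L`
  obtain ⟨M₀, hM₀⟩ := LinearMap.exists_leftInverse_of_injective (lm L)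
    (LinearMap.ker_eq_bot.mpr hinj)
  have hM : ∀ w, M₀ (lm L w) = w := fun w => LinearMap.congr_fun hM₀ w
  let Ψ : X.H1 →ₗ[ℂ] Y.H1 :=
    { toFun := fun v => Sum.elim (M₀ (pr v)) (fun b => ∑ a, L b a * v (.inr a))
      map_add' := by
        intro u v
        funext j
        rcases j with j | j
        · simp
        · simp only [Sum.elim_inr, Pi.add_apply]
          rw [← Finset.sum_add_distrib]
          exact Finset.sum_congr rfl fun a _ => by ring
      map_smul' := by
        intro c v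
        funext j
        rcases j with j | j
        · simp
        · simp only [Sum.elim_inr, Pi.smul_apply, smul_eq_mul, RingHom.id_apply, Finset.mul_sum]
          exact Finset.sum_congr rfl fun a _ => by ring }
  have hΨl : ∀ v (b : Fin (Fintype.card κ')), Ψ v (.inl b) = M₀ (pr v) b := fun _ _ => rfl
  have hΨr : ∀ v (b : Fin (Fintype.card κ')), Ψ v (.inr b) = ∑ a, L b a * v (.inr a) :=
    fun _ _ => rfl
  have hΨp : ∀ l : Fin (Fintype.card κ') → ℂ, Ψ (X.period (lm L l)) = Y.period l := by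
    intro l
    funext j
    rcases j with j | j
    · rw [hΨl]
      have : pr (X.period (lm L l)) = lm L l := rfl
      rw [this, hM]
      rfl
    · exact (eta_sub X L hL hinj hspan l j).symm
  -- vectors of the image
  set U : Submodule ℂ X.H1 := LinearMap.range E with hU
  have hUE : ∀ u ∈ U, E u = u := by
    rintro _ ⟨v, rfl⟩
    exact hid v
  have hUpr : ∀ u ∈ U, lm L (M₀ (pr u)) = pr u := by
    intro u hu
    have h1 : pr u ∈ LinearMap.range (lm L) := by
      rw [hrange, ← hUE u hu, hφ]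
      exact LinearMap.mem_range_self _ _
    obtain ⟨w, hw⟩ := h1
    rw [← hw, hM]
  have hpol : ∀ u ∈ U, ∀ v ∈ U, X.pol u v = Y.pol (Ψ u) (Ψ v) := by
    have key : ∀ u ∈ U, ∀ v, ∑ a, u (.inl a) * v (.inr a) =
        ∑ b : Fin (Fintype.card κ'), Ψ u (.inl b) * Ψ v (.inr b) := by
      intro u hu v
      simp only [hΨl, hΨr]
      rw [← lm_dot L (M₀ (pr u)) (fun a => v (.inr a)), hUpr u hu]
      rfl
    intro u hu v hv
    unfold AbVar.pol
    rw [Finset.sum_sub_distrib]
    have h1 := key u hu v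
    have h2 := key v hv u
    rw [h1]
    have h3 : ∑ a, v (.inl a) * u (.inr a) =
      ∑ b : Fin (Fintype.card κ'), Ψ v (.inl b) * Ψ u (.inr b) := h2
    rw [h3, ← Finset.sum_sub_distrib]
    rfl
  have hΨinj : ∀ u ∈ U, Ψ u = 0 → u = 0 := by
    intro u hu h0
    apply Helper7.polForm_nondeg X u
    intro v
    have h1 : X.polForm u v = X.polForm u (E v) := by
      have h2 : X.pol (e u) v = X.pol u (e v) := hsym u v
      rw [← hE, hUE u hu] at h2
      exact h2
    rw [h1]
    have h2 := hpol u hu (E v) (LinearMap.mem_range_self _ _)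
    rw [h0] at h2
    have h3 : Y.pol 0 (Ψ (E v)) = 0 := by simp [AbVar.pol]
    rw [h3] at h2
    exact h2
  have hperU : ∀ l : Fin (Fintype.card κ') → ℂ, lm L l ∈ X.Λ → X.period (lm L l) ∈ U := by
    intro l hl
    obtain ⟨N, hN, l'', hl'', h1, h2⟩ := hper _ hl
    have hNC : (N : ℂ) ≠ 0 := Nat.cast_ne_zero.mpr hN
    rw [hfix] at h2
    have h3 : l'' = N • lm L l := by rw [← h2]; funext j; simp
    rw [h3, period_nsmul] at h1
    have h4 := smul_right_injective _ hNC h1
    exact ⟨_, h4⟩
  have hΨsurj : ∀ y : Y.H1, ∃ u ∈ U, Ψ u = y := by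
    intro y
    have hy := span_betti Y y
    induction hy using Submodule.span_induction with
    | mem y hy =>
      obtain ⟨N, hN, l, hl, h1⟩ := hy
      have hNC : (N : ℂ) ≠ 0 := Nat.cast_ne_zero.mpr hN
      refine ⟨(N : ℂ)⁻¹ • X.period (lm L l), U.smul_mem _ (hperU l hl), ?_⟩
      rw [map_smul, hΨp, ← h1, smul_smul, inv_mul_cancel₀ hNC, one_smul]
    | zero => exact ⟨0, U.zero_mem, map_zero _⟩
    | add x y _ _ hx hy =>
      obtain ⟨u, hu, rfl⟩ := hx
      obtain ⟨v, hv, rfl⟩ := hy
      exact ⟨u + v, U.add_mem hu hv, map_add _ _ _⟩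
    | smul c x _ hx =>
      obtain ⟨u, hu, rfl⟩ := hx
      exact ⟨c • u, U.smul_mem _ hu, map_smul _ _ _⟩
  -- the inverse
  have hbij : Function.Bijective (Ψ.domRestrict U) := by
    constructor
    · rw [← LinearMap.ker_eq_bot, LinearMap.ker_eq_bot']
      intro u hu
      exact Subtype.ext (hΨinj u.1 u.2 hu)
    · intro y
      obtain ⟨u, hu, h1⟩ := hΨsurj y
      exact ⟨⟨u, hu⟩, h1⟩
  let Θ : U ≃ₗ[ℂ] Y.H1 := LinearEquiv.ofBijective (Ψ.domRestrict U) hbij
  have hΘ : ∀ u : U, Θ u = Ψ u.1 := fun _ => rfl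
  let ι : Y.H1 →ₗ[ℂ] X.H1 := U.subtype ∘ₗ Θ.symm.toLinearMap
  let π : X.H1 →ₗ[ℂ] Y.H1 := Ψ ∘ₗ E
  have hιU : ∀ y, ι y ∈ U := fun y => (Θ.symm y).2
  have hΨι : ∀ y, Ψ (ι y) = y := fun y => Θ.apply_symm_apply y
  have hιΨ : ∀ u ∈ U, ι (Ψ u) = u := by
    intro u hu
    have h1 : Θ.symm (Θ ⟨u, hu⟩) = ⟨u, hu⟩ := Θ.symm_apply_apply _
    exact congrArg Subtype.val h1
  have hpia : ∀ v, X.IsDeRham v → Y.IsDeRham (π v) := by
    intro v hv
    have hEv : X.IsDeRham (E v) := he.deRham v hv
    intro j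
    rcases j with j | j
    · apply Helper7.isAlgebraic_of_derivation
      intro D
      have h1 := map_derivation D (lm L) (by
        intro w hw a
        rw [lm_apply, Finset.sum_apply]
        exact Finset.sum_induction _ (fun x => IsAlgebraic ℚ x) (fun x y hx hy => hx.add hy)
          isAlgebraic_zero (fun b _ => (hw b).mul (hL b a))) (M₀ (pr (E v)))
      have h2 : lm L (M₀ (pr (E v))) = pr (E v) := hUpr _ (LinearMap.mem_range_self _ _)
      rw [h2] at h1
      have h3 : (fun j => D (pr (E v) j)) = 0 := by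
        funext a
        exact Helper7.derivation_eq_zero D _ (hEv (.inl a))
      rw [h3] at h1
      have h4 := hinj (h1.trans (map_zero _).symm)
      exact congrFun h4 j
    · show IsAlgebraic ℚ (∑ a, L j a * (E v) (.inr a))
      exact Finset.sum_induction _ (fun x => IsAlgebraic ℚ x) (fun x y hx hy => hx.add hy)
          isAlgebraic_zero (fun b _ => (hL j b).mul (hEv (.inr b)))
  refine ⟨Y, ι, π, ⟨ι.isLinear, ?_, ?_, ?_⟩, ⟨π.isLinear, ?_, hpia, ?_⟩, ?_, ?_, ?_⟩
  · -- Betti for ι
    rintro y ⟨N, hN, l, hl, h1⟩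
    refine ⟨N, hN, lm L l, hl, ?_⟩
    rw [← map_smul, h1, ← hΨp l, hιΨ _ (hperU l hl)]
  · -- de Rham for ι
    intro y hy j
    apply Helper7.isAlgebraic_of_derivation
    intro D
    set u := ι y with hu
    have h1 : (fun k => D (u k)) ∈ U := by
      have h2 := map_derivation D E (fun v hv => he.deRham v hv) u
      rw [hUE u (hιU y)] at h2
      exact ⟨_, h2⟩
    have h3 := map_derivation D π hpia u
    have h4 : π u = y := by
      show Ψ (E u) = y
      rw [hUE u (hιU y), hΨι]
    have h5 : π (fun k => D (u k)) = 0 := by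
      rw [h3, h4]
      funext k
      exact Helper7.derivation_eq_zero D _ (hy k)
    have h6 : π (fun k => D (u k)) = Ψ (fun k => D (u k)) := by
      show Ψ (E _) = _
      rw [hUE _ h1]
    rw [h6] at h5
    exact congrFun (hΨinj _ h1 h5) j
  · -- Fil for ι
    intro y hy a
    have h1 := hUpr (ι y) (hιU y)
    have h2 : M₀ (pr (ι y)) = 0 := by
      funext b
      have h3 := congrFun (hΨι y) (.inl b)
      rw [hΨl] at h3
      rw [h3]
      exact hy b
    rw [h2, map_zero] at h1
    exact (congrFun h1 a).symm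
  · -- Betti for π
    intro v hv
    obtain ⟨N, hN, l, hl, h1⟩ := he.betti v hv
    have h2 : (N : ℂ) • E v = X.period l := h1
    have h3 : X.period l ∈ U := h2 ▸ U.smul_mem _ (LinearMap.mem_range_self _ _)
    have h4 := hUpr _ h3
    have h5 : pr (X.period l) = l := rfl
    rw [h5] at h4
    refine ⟨N, hN, M₀ l, ?_, ?_⟩
    · show lm L (M₀ l) ∈ X.Λ
      rw [h4]; exact hl
    · show (N : ℂ) • Ψ (E v) = Y.period (M₀ l)
      rw [← map_smul, h2, ← hΨp, h4]
  · -- Fil for π
    intro v hv b
    show M₀ (pr (E v)) b = 0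
    have h1 : pr (E v) = 0 := by
      funext a
      exact he.hodge v hv a
    rw [h1, map_zero]
    rfl
  · intro y
    show Ψ (E (ι y)) = y
    rw [hUE _ (hιU y), hΨι]
  · intro x
    show ι (Ψ (E x)) = e x
    rw [hιΨ _ (LinearMap.mem_range_self _ _)]
    rfl
  · intro u v
    rw [hpol _ (hιU u) _ (hιU v), hΨι, hΨι]

end Pool.Agent.Helper39.AF
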