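import Pool.Agent.Helper39.AF.Idem
import Pool.Agent.Helper39.AF.SubMap

/-!
Morphisms of abelian varieties: adjoint, inverse, Schur's lemma.
-/

open scoped ComplexConjugate

namespace Pool.Agent.Helper39.AF

open Module Pool.Agent.GPC Pool.Agent.Helper7 Pool.Agent.Helper71.AF

section basics

variable {X Y Z : AbVar}

lemma isMor_id (X : AbVar) : X.IsMor X (fun v => v) :=
  ⟨⟨fun _ _ => rfl, fun _ _ => rfl⟩, fun _ h => h, fun _ h => h, fun _ h => h⟩

lemma isMor_comp {f : X.H1 → Y.H1} {g : Y.H1 → Z.H1} (hg : Y.IsMor Z g) (hf : X.IsMor Y f) :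
    X.IsMor Z (fun v => g (f v)) :=
  ⟨⟨fun u v => by rw [hf.linear.map_add, hg.linear.map_add],
    fun c v => by rw [hf.linear.map_smul, hg.linear.map_smul]⟩,
    fun v h => hg.betti _ (hf.betti v h), fun v h => hg.deRham _ (hf.deRham v h),
    fun v h => hg.hodge _ (hf.hodge v h)⟩

lemma isEnd_iff (X : AbVar) (f : X.H1 → X.H1) : X.IsEnd f ↔ X.IsMor X f :=
  ⟨fun h => ⟨h.linear, h.betti, h.deRham, h.hodge⟩, fun h => ⟨h.linear, h.betti, h.deRham, h.hodge⟩⟩

lemma isMor_of (X Y : AbVar) {f : X.H1 → Y.H1} (hl : IsLinearMap ℂ f)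
    (hb : ∀ v, X.IsBetti v → Y.IsBetti (f v)) (hd : ∀ v, X.IsDeRham v → Y.IsDeRham (f v)) :
    X.IsMor Y f := ⟨hl, hb, hd, hom_fil X Y f hl hb hd⟩

/-- the adjoint of a morphism -/
lemma exists_adj_mor (X Y : AbVar) (f : X.H1 → Y.H1) (hf : X.IsMor Y f) :
    ∃ f' : Y.H1 → X.H1, Y.IsMor X f' ∧ ∀ u v, Y.pol (f u) v = X.pol u (f' v) := by
  classical
  set P := pData X with hP
  set P' := pData Y with hP'
  let fl : X.H1 →ₗ[ℂ] Y.H1 := hf.linear.mk' f
  obtain ⟨Ψ, hΨ⟩ : ∃ Ψ : X.H1 ≃ₗ[ℂ] Module.Dual ℂ X.H1, ∀ u v, Ψ v u = P.ψ u v := by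
    refine ⟨LinearMap.linearEquivOfInjective P.ψ.flip ?_ Subspace.dual_finrank_eq.symm,
      fun u v => rfl⟩
    rw [← LinearMap.ker_eq_bot, LinearMap.ker_eq_bot']
    intro v hv
    apply ndr P
    intro u
    have := congrArg (fun g => g u) hv
    exact this
  obtain ⟨f', hf'⟩ : ∃ f' : Y.H1 →ₗ[ℂ] X.H1, ∀ u v, P'.ψ (fl u) v = P.ψ u (f' v) := by
    refine ⟨Ψ.symm.toLinearMap ∘ₗ (fl.dualMap ∘ₗ P'.ψ.flip), fun u v => ?_⟩
    rw [← hΨ u]
    simp only [LinearMap.comp_apply, LinearEquiv.coe_coe, LinearEquiv.apply_symm_apply,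
      LinearMap.dualMap_apply]
    rfl
  have hrat : ∀ v, Y.IsBetti v → X.IsBetti (f' v) := by
    intro v hv
    rw [← mem_pData_Q]
    apply mem_Q_of_coord
    refine coord_mem P.bB P.ψ (algebraMap ℚ ℂ) _ Complex.two_pi_I_ne_zero (fun i j => ?_) (ndr P)
      (f' v) (fun i => ?_)
    · exact P.hψQ _ (P.basis_mem i) _ (P.basis_mem j)
    · rw [← hf']
      exact P'.hψQ _ ((mem_pData_Q Y _).mpr (hf.betti _ ((mem_pData_Q X _).mp (P.basis_mem i)))) _
        ((mem_pData_Q Y v).mpr hv)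
  have halg : ∀ v, Y.IsDeRham v → X.IsDeRham (f' v) := by
    intro v hv j
    have h1 := coord_mem (Pi.basisFun ℂ (Fin X.g ⊕ Fin X.g)) P.ψ
      (algebraMap (algebraicClosure ℚ ℂ) ℂ) 1 one_ne_zero
      (fun i j => ?_) (ndr P) (f' v) (fun j => ?_) j
    · obtain ⟨q, hq⟩ := h1
      rw [Pi.basisFun_repr] at hq
      rw [hq]
      exact mem_algebraicClosure_iff.mp q.2
    · refine ⟨⟨P.ψ (Pi.single i 1) (Pi.single j 1),
        mem_algebraicClosure_iff.mpr (P.hψalg i j)⟩, ?_⟩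
      rw [Pi.basisFun_apply, Pi.basisFun_apply, one_mul]
      rfl
    · have h2 : IsAlgebraic ℚ (P'.ψ (fl (Pi.single j 1)) v) :=
        polForm_alg Y _ _ (hf.deRham _ (single_deRham X j)) hv
      refine ⟨⟨_, mem_algebraicClosure_iff.mpr h2⟩, ?_⟩
      rw [← hf', Pi.basisFun_apply, one_mul]
      rfl
  exact ⟨f', isMor_of Y X f'.isLinear hrat halg, hf'⟩

/-- a bijective morphism has an inverse -/
lemma exists_inv_mor (X Y : AbVar) (f : X.H1 → Y.H1) (hf : X.IsMor Y f)
    (hb : Function.Bijective f) :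
    ∃ f' : Y.H1 → X.H1, Y.IsMor X f' ∧ (∀ x, f' (f x) = x) ∧ ∀ y, f (f' y) = y := by
  classical
  set P := pData X with hP
  set P' := pData Y with hP'
  let fl : X.H1 →ₗ[ℂ] Y.H1 := hf.linear.mk' f
  let E : X.H1 ≃ₗ[ℂ] Y.H1 := LinearEquiv.ofBijective fl hb
  have hE : ∀ x, E x = f x := fun _ => rfl
  let β : X.H1 →ₗ[ℂ] X.H1 →ₗ[ℂ] ℂ := P'.ψ.compl₁₂ fl fl
  have hβ : ∀ u v, β u v = P'.ψ (f u) (f v) := fun _ _ => rfl
  have hrat : ∀ v, Y.IsBetti v → X.IsBetti (E.symm v) := by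
    intro v hv
    rw [← mem_pData_Q]
    apply mem_Q_of_coord
    refine coord_mem P.bB β (algebraMap ℚ ℂ) _ Complex.two_pi_I_ne_zero (fun i j => ?_) ?_
      (E.symm v) (fun i => ?_)
    · exact P'.hψQ _ ((mem_pData_Q Y _).mpr (hf.betti _ ((mem_pData_Q X _).mp (P.basis_mem i)))) _
        ((mem_pData_Q Y _).mpr (hf.betti _ ((mem_pData_Q X _).mp (P.basis_mem j))))
    · intro v hv
      have h1 : f v = 0 := by
        apply ndr P'
        intro u
        have h2 := hv (E.symm u)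
        rw [hβ, ← hE, E.apply_symm_apply] at h2
        exact h2
      have h2 : E v = 0 := h1
      exact (LinearEquiv.map_eq_zero_iff E).mp h2
    · rw [hβ]
      have h1 : f (E.symm v) = v := E.apply_symm_apply v
      rw [h1]
      exact P'.hψQ _ ((mem_pData_Q Y _).mpr (hf.betti _ ((mem_pData_Q X _).mp (P.basis_mem i)))) _
        ((mem_pData_Q Y v).mpr hv)
  have halg : ∀ v, Y.IsDeRham v → X.IsDeRham (E.symm v) := by
    intro v hv j
    apply Helper7.isAlgebraic_of_derivation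
    intro D
    have h1 := map_derivation D fl (fun w hw => hf.deRham w hw) (E.symm v)
    have h2 : fl (E.symm v) = v := E.apply_symm_apply v
    rw [h2] at h1
    have h3 : (fun j => D (v j)) = 0 := by
      funext k
      exact Helper7.derivation_eq_zero D _ (hv k)
    rw [h3] at h1
    have h4 : (fun k => D (E.symm v k)) = 0 := by
      have h5 : E (fun k => D (E.symm v k)) = 0 := h1
      exact (LinearEquiv.map_eq_zero_iff E).mp h5
    exact congrFun h4 j
  exact ⟨E.symm, isMor_of Y X E.symm.toLinearMap.isLinear hrat halg,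
    fun x => E.symm_apply_apply x, fun y => E.apply_symm_apply y⟩

/-- a morphism of `VR` -/
lemma VR_mor {f : X.H1 → Y.H1} (hf : X.IsMor Y f) {u : X.H1} (hu : u ∈ VR X) : f u ∈ VR Y := by
  let fl : X.H1 →ₗ[ℂ] Y.H1 := hf.linear.mk' f
  have hfl : ∀ v, fl v = f v := fun _ => rfl
  unfold VR at hu
  rw [← hfl]
  induction hu using Submodule.span_induction with
  | mem z hz => exact betti_VR Y (hf.betti z hz)
  | zero => rw [map_zero]; exact Submodule.zero_mem _
  | add x y _ _ hx hy => rw [map_add]; exact Submodule.add_mem _ hx hy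
  | smul r x _ hx =>
    have h1 : fl (r • x) = r • fl x := by
      have h2 : r • x = (r : ℂ) • x := by funext j; simp
      have h3 : r • fl x = (r : ℂ) • fl x := by funext j; simp
      rw [h2, h3, map_smul]
    rw [h1]; exact Submodule.smul_mem _ _ hx

/-- positivity: `f' f = 0` implies `f = 0` -/
lemma eq_zero_of_adj_comp (f : X.H1 → Y.H1) (hf : X.IsMor Y f) (f' : Y.H1 → X.H1)
    (hf' : ∀ u v, Y.pol (f u) v = X.pol u (f' v)) (h0 : ∀ v, f' (f v) = 0) (v : X.H1) :
    f v = 0 := by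
  have key : ∀ a ∈ VR X, f a = 0 := by
    intro a ha
    by_contra hne
    -- `J a`
    set Ja := X.period (Complex.I • X.zz a) with hJa
    have hJ : Ja ∈ VR X := period_VR X _
    have h1 : Y.pol (f Ja) (f a) = 0 := by
      rw [hf', h0]
      simp [AbVar.pol]
    have h2 := hf_pol Y (VR_mor hf hJ) (VR_mor hf ha)
    have h3 : (pData Y).ψ (f Ja) (f a) = 0 := h1
    rw [h3] at h2
    have h4 : (Pool.Agent.Helper71.AF.hf Y (f Ja) (f a)).im = 0 := by
      have h5 := (mul_eq_zero.mp h2.symm).resolve_left Complex.two_pi_I_ne_zero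
      exact_mod_cast h5
    have h6 : Y.zz (f Ja) = Complex.I • Y.zz (f a) := by
      have h5 := hf.hodge (Ja - Complex.I • a) (fun b => by
        change (Complex.I • X.zz a) b - Complex.I * a (.inl b) = 0
        change Complex.I * a (.inl b) - Complex.I * a (.inl b) = 0
        rw [sub_self])
      funext b
      have h7 := h5 b
      rw [hf.linear.map_sub, hf.linear.map_smul] at h7
      exact sub_eq_zero.mp h7
    have h7 : Pool.Agent.Helper71.AF.hf Y (f Ja) (f a) =
        Complex.I * Pool.Agent.Helper71.AF.hf Y (f a) (f a) := by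
      unfold Pool.Agent.Helper71.AF.hf
      rw [h6, Pool.Agent.Helper7.hermForm_smul_left]
    rw [h7] at h4
    have h8 : (Pool.Agent.Helper71.AF.hf Y (f a) (f a)).re = 0 := by
      simpa using h4
    exact absurd h8 (hf_pos Y (VR_mor hf ha) hne).ne'
  obtain ⟨a, ha, b, hb, rfl⟩ := exists_decomp X v
  rw [hf.linear.map_add, hf.linear.map_smul, key a ha, key b hb, smul_zero, add_zero]

/-- Schur's lemma -/
theorem bijective_of_simple (hX : X.IsSimple) (hY : Y.IsSimple) (f : X.H1 → Y.H1)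
    (hf : X.IsMor Y f) (h0 : ∃ v, f v ≠ 0) : Function.Bijective f := by
  obtain ⟨f', hf', hadj⟩ := exists_adj_mor X Y f hf
  let fl : X.H1 →ₗ[ℂ] Y.H1 := hf.linear.mk' f
  let fl' : Y.H1 →ₗ[ℂ] X.H1 := hf'.linear.mk' f'
  have h1 : ∃ v, f' (f v) ≠ 0 := by
    by_contra hcon
    push Not at hcon
    obtain ⟨v, hv⟩ := h0
    exact hv (eq_zero_of_adj_comp f hf f' hadj hcon v)
  have h2 : Function.Injective (fun v => f' (f v)) :=
    hX _ ((isEnd_iff X _).mpr (isMor_comp hf' hf)) h1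
  have h3 : Function.Injective f := fun u v huv => h2 (congrArg f' huv)
  have h4 : ∃ v, f (f' v) ≠ 0 := by
    by_contra hcon
    push Not at hcon
    obtain ⟨v, hv⟩ := h1
    have h5 : f' (f (f' (f v))) = 0 := by
      rw [hcon, hf'.linear.map_zero]
    have h6 : f' (f (f' (f v))) = f' (f 0) := by
      rw [h5, hf.linear.map_zero, hf'.linear.map_zero]
    exact hv (h2 h6)
  have h5 : Function.Injective (fun v => f (f' v)) :=
    hY _ ((isEnd_iff Y _).mpr (isMor_comp hf hf')) h4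
  have h6 : Function.Surjective (fl ∘ₗ fl') := LinearMap.surjective_of_injective h5
  exact ⟨h3, fun y => by
    obtain ⟨x, hx⟩ := h6 y
    exact ⟨f' x, hx⟩⟩

end basics

end Pool.Agent.Helper39.AF
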