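import Pool.Agent.Helper39.AF.Proj

/-!
In a decomposition of a Grothendieck class as a divisorial class plus Weil classes, the Weil classes
can be taken to be Grothendieck classes.
-/

open scoped ComplexConjugate InnerProductSpace

namespace Pool.Agent.Helper39.AF

open Module Pool.Agent.GPC Pool.Agent.Helper7 Pool.Agent.Helper71.AF

variable {X : AbVar}

lemma rat_smul_apply {m : ℕ} (q : ℚ) (α : X.Class m) (v : Fin m → X.H1) :
    (q • α) v = (q : ℂ) * α v := by
  rw [AlternatingMap.smul_apply]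
  exact Rat.smul_def q (α v)

variable (X) in
/-- the rational classes -/
def RS {m : ℕ} (k : ℕ) : Submodule ℚ (X.Class m) where
  carrier := {α | X.IsRational k α}
  zero_mem' := fun v _ => ⟨0, by simp⟩
  add_mem' := by
    intro α β hα hβ v hv
    obtain ⟨a, ha⟩ := hα v hv
    obtain ⟨b, hb⟩ := hβ v hv
    exact ⟨a + b, by rw [AlternatingMap.add_apply, ha, hb]; push_cast; ring⟩
  smul_mem' := by
    intro q α hα v hv
    obtain ⟨a, ha⟩ := hα v hv
    exact ⟨q * a, by rw [rat_smul_apply, ha]; push_cast; ring⟩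

variable (X) in
/-- the Grothendieck classes -/
def GS (k : ℕ) : Submodule ℚ (X.Class (2 * k)) where
  carrier := {α | X.IsGrothendieckClass k α}
  zero_mem' := ⟨fun v _ => isAlgebraic_zero, (RS X k).zero_mem⟩
  add_mem' := by
    intro α β hα hβ
    exact ⟨fun v hv => (hα.1 v hv).add (hβ.1 v hv), (RS X k).add_mem hα.2 hβ.2⟩
  smul_mem' := by
    intro q α hα
    refine ⟨fun v hv => ?_, (RS X k).smul_mem q hα.2⟩
    rw [rat_smul_apply]
    exact (isAlgebraic_ratCast ℚ q).mul (hα.1 v hv)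

lemma mem_GS {k : ℕ} {α : X.Class (2 * k)} : α ∈ GS X k ↔ X.IsGrothendieckClass k α := Iff.rfl

variable (X) in
/-- the divisorial classes -/
def DS (k : ℕ) : Submodule ℚ (X.Class (2 * k)) where
  carrier := {α | X.IsDivisorialClass k α}
  zero_mem' := ⟨0, fun j => j.elim0, fun j => j.elim0, fun j => j.elim0, fun j => j.elim0,
    fun j => j.elim0, fun v => by simp⟩
  add_mem' := by
    rintro α β ⟨m, c, f, ω, hf, hω, hα⟩ ⟨m', c', f', ω', hf', hω', hβ⟩
    refine ⟨m + m', Fin.addCases c c', fun j => Fin.addCases (motive := fun _ => Fin k → X.H1 → X.H1)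
      f f' j, fun j => Fin.addCases (motive := fun _ => (Fin (2 * k) → X.H1) → ℂ) ω ω' j,
      fun j a => ?_, fun j => ?_, fun v => ?_⟩
    · induction j using Fin.addCases with
      | left j => simpa using hf j a
      | right j => simpa using hf' j a
    · induction j using Fin.addCases with
      | left j => simpa using hω j
      | right j => simpa using hω' j
    · rw [AlternatingMap.add_apply, hα, hβ, Fin.sum_univ_add]
      simp
  smul_mem' := by
    rintro q α ⟨m, c, f, ω, hf, hω, hα⟩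
    refine ⟨m, fun j => q * c j, f, ω, hf, hω, fun v => ?_⟩
    rw [rat_smul_apply, hα, Finset.mul_sum]
    refine Finset.sum_congr rfl fun j _ => ?_
    push_cast
    ring

lemma mem_DS {k : ℕ} {α : X.Class (2 * k)} : α ∈ DS X k ↔ X.IsDivisorialClass k α := Iff.rfl

/-- divisorial classes are Grothendieck classes -/
lemma grothendieck_of_divisorial {k : ℕ} {α : X.Class (2 * k)} (h : X.IsDivisorialClass k α) :
    X.IsGrothendieckClass k α := by
  obtain ⟨m, c, f, ω, hf, hω, hα⟩ := h
  refine ⟨fun v hv => ?_, fun v hv => ?_⟩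
  · rw [hα]
    refine isAlg_sum _ _ fun j _ => (isAlgebraic_ratCast ℚ _).mul ?_
    rw [hω j v]
    refine isAlg_sum _ _ fun π _ => ?_
    refine IsAlgebraic.mul ?_ (isAlg_prod _ _ fun a _ => ?_)
    · exact isAlgebraic_intCast _
    · exact polForm_alg _ _ _ ((hf j a).deRham _ (hv _)) ((hf j a).deRham _ (hv _))
  · have h2 : ∀ (j : Fin m) (π : Equiv.Perm (Fin (2 * k))) (a : Fin k), ∃ q : ℚ,
        X.pol (f j a (v (π ⟨2 * a.1, by omega⟩)))
          (f j a (v (π ⟨2 * a.1 + 1, by omega⟩))) = 2 * Real.pi * Complex.I * q := by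
      intro j π a
      exact polForm_rat _ _ _ ((isBetti_iff _ _).mp ((hf j a).betti _ (hv _)))
        ((isBetti_iff _ _).mp ((hf j a).betti _ (hv _)))
    choose q hq using h2
    refine ⟨∑ j, c j * ∑ π : Equiv.Perm (Fin (2 * k)), ((Equiv.Perm.sign π : ℤ) : ℚ) *
      ∏ a, q j π a, ?_⟩
    rw [hα]
    push_cast
    rw [Finset.mul_sum]
    refine Finset.sum_congr rfl fun j _ => ?_
    rw [hω j v, Finset.mul_sum, Finset.mul_sum, Finset.mul_sum]
    refine Finset.sum_congr rfl fun π _ => ?_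
    rw [Finset.prod_congr rfl (fun a _ => hq j π a), Finset.prod_mul_distrib, Finset.prod_const,
      Finset.card_univ, Fintype.card_fin]
    ring

/-- the pull-back by an endomorphism preserves Grothendieck classes -/
lemma pull_GS {k : ℕ} {f : X.H1 →ₗ[ℂ] X.H1} (hf : X.IsEnd f) {α : X.Class (2 * k)}
    (hα : α ∈ GS X k) : pull X f α ∈ GS X k :=
  ⟨fun v hv => hα.1 (fun r => f (v r)) fun r => hf.deRham _ (hv r),
    fun v hv => hα.2 (fun r => f (v r)) fun r => hf.betti _ (hv r)⟩

lemma isEnd_onePlus {J : X.H1 →ₗ[ℂ] X.H1} (hJ : X.IsEnd J) (q : ℚ) :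
    X.IsEnd (onePlus (q : ℂ) J) := by
  have h1 := isEnd_add ((isEnd_iff X _).mpr (isMor_id X)) (isEnd_ratSmul hJ q)
  exact h1

lemma wproj_GS {d : ℚ} {J : X.H1 →ₗ[ℂ] X.H1} (hJ : X.IsEnd J) {α : X.Class (2 * 2)}
    (hα : α ∈ GS X 2) : wproj d J α ∈ GS X 2 := by
  have h1 : wproj d J α = (1 / 8 : ℚ) • ((1 + 1 / d) • α + (1 / d + 1 / d ^ 2) • pull X J α
      - (1 / (2 * d)) • (pull X (onePlus ((1 : ℚ) : ℂ) J) α +
        pull X (onePlus ((-1 : ℚ) : ℂ) J) α)) := by
    ext v
    rw [rat_smul_apply]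
    simp only [AlternatingMap.sub_apply, AlternatingMap.add_apply, rat_smul_apply]
    push_cast
    rfl
  rw [h1]
  exact (GS X 2).smul_mem _ ((GS X 2).sub_mem ((GS X 2).add_mem ((GS X 2).smul_mem _ hα)
    ((GS X 2).smul_mem _ (pull_GS hJ hα))) ((GS X 2).smul_mem _ ((GS X 2).add_mem
      (pull_GS (isEnd_onePlus hJ 1) hα) (pull_GS (isEnd_onePlus hJ (-1)) hα))))

/-- the projection is self-adjoint -/
lemma inner_wproj {d : ℚ} {J : X.H1 →ₗ[ℂ] X.H1} (hJ : X.IsEnd J)
    (hadj : ∀ u v, X.pol (J u) v = X.pol u (- J v)) (α β : X.Class (2 * 2)) :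
    ⟪io X (wproj d J α), io X β⟫_ℂ = ⟪io X α, io X (wproj d J β)⟫_ℂ := by
  have hneg : X.IsEnd (-J : X.H1 →ₗ[ℂ] X.H1) := by
    have h1 := isEnd_ratSmul hJ (-1)
    have h2 : (fun v => ((-1 : ℚ) : ℂ) • J v) = ((-J : X.H1 →ₗ[ℂ] X.H1) : X.H1 → X.H1) := by
      funext v
      rw [LinearMap.neg_apply]
      push_cast
      rw [neg_smul, one_smul]
    rw [h2] at h1
    exact h1
  have hpn : pull X (-J) β = pull X J β := by
    ext v
    rw [eq_four, pull_four, eq_four (pull X J β), pull_four]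
    have hF := four_lin β
    have h1 : ∀ x : X.H1, (-J) x = (-1 : ℂ) • J x := fun x => by
      rw [LinearMap.neg_apply, neg_smul, one_smul]
    rw [h1, h1, h1, h1, hF.smul1, hF.smul2, hF.smul3, hF.smul4]
    ring
  have e1 := inner_pull X J (-J) hJ hneg (fun u v => hadj u v) α β
  rw [hpn] at e1
  have hpol_add : ∀ u u' v, X.pol (u + u') v = X.pol u v + X.pol u' v := fun u u' v => by
    change (pData X).ψ (u + u') v = (pData X).ψ u v + (pData X).ψ u' v
    rw [map_add, LinearMap.add_apply]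
  have hpol_add' : ∀ u v v', X.pol u (v + v') = X.pol u v + X.pol u v' := fun u v v' => by
    change (pData X).ψ u (v + v') = (pData X).ψ u v + (pData X).ψ u v'
    rw [map_add]
  have hpol_smul : ∀ (c : ℂ) u v, X.pol (c • u) v = c * X.pol u v := fun c u v => by
    change (pData X).ψ (c • u) v = c * (pData X).ψ u v
    rw [map_smul, LinearMap.smul_apply, smul_eq_mul]
  have hpol_smul' : ∀ (c : ℂ) u v, X.pol u (c • v) = c * X.pol u v := fun c u v => by
    change (pData X).ψ u (c • v) = c * (pData X).ψ u v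
    rw [map_smul, smul_eq_mul]
  have hadj2 : ∀ u v, X.pol (J u) v = - X.pol u (J v) := by
    intro u v
    rw [hadj]
    change (pData X).ψ u (- J v) = - (pData X).ψ u (J v)
    rw [map_neg]
  have c1 : (((1 : ℚ) : ℂ)) = 1 := by norm_num
  have c2 : (((-1 : ℚ) : ℂ)) = -1 := by norm_num
  have hE1 := isEnd_onePlus hJ 1
  have hE2 := isEnd_onePlus hJ (-1)
  rw [c1] at hE1
  rw [c2] at hE2
  have e2 := inner_pull X (onePlus 1 J) (onePlus (-1) J) hE1 hE2 (fun u v => by
    change X.pol (u + (1 : ℂ) • J u) v = X.pol u (v + (-1 : ℂ) • J v)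
    rw [hpol_add, hpol_add', hpol_smul, hpol_smul', hadj2]
    ring) α β
  have e3 := inner_pull X (onePlus (-1) J) (onePlus 1 J) hE2 hE1 (fun u v => by
    change X.pol (u + (-1 : ℂ) • J u) v = X.pol u (v + (1 : ℂ) • J v)
    rw [hpol_add, hpol_add', hpol_smul, hpol_smul', hadj2]
    ring) α β
  unfold wproj
  simp only [LinearMap.smul_apply, LinearMap.sub_apply, LinearMap.add_apply, LinearMap.id_apply,
    map_smul, map_sub, map_add, inner_smul_left, inner_smul_right, inner_sub_left, inner_sub_right,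
    inner_add_left, inner_add_right, e1, e2, e3]
  have hc : ∀ q : ℚ, conj (q : ℂ) = (q : ℂ) := fun q => by
    have : (q : ℂ) = ((q : ℝ) : ℂ) := by push_cast; rfl
    rw [this, Complex.conj_ofReal]
  simp only [map_one, map_div₀, map_mul, map_pow, hc, Complex.conj_ofNat]
  ring

/-- a rational class in the complex span of a rational space of rational classes is in this space -/
lemma descend {m : ℕ} (k : ℕ) (M : Submodule ℚ (X.Class m)) (hM : ∀ β ∈ M, X.IsRational k β)
    {α : X.Class m} (hα : X.IsRational k α)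
    (h : α ∈ Submodule.span ℂ (M : Set (X.Class m))) : α ∈ M := by
  classical
  set P := pData X with hP
  have hb : ∀ i, X.IsBetti (P.bB i) := fun i => (mem_pData_Q X _).mp (P.basis_mem i)
  have h2 : ((2 * Real.pi * Complex.I) ^ k : ℂ) ≠ 0 := pow_ne_zero _ Complex.two_pi_I_ne_zero
  -- coordinates
  let iQ : ((Fin m → P.ι) → ℚ) →ₗ[ℚ] ((Fin m → P.ι) → ℂ) :=
    { toFun := fun x v => (x v : ℂ)
      map_add' := fun x y => by funext v; push_cast [Pi.add_apply]; rfl
      map_smul' := fun q x => by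
        funext v
        simp only [Pi.smul_apply, smul_eq_mul, RingHom.id_apply]
        rw [Rat.smul_def]
        push_cast
        rfl }
  let T : X.Class m →ₗ[ℚ] ((Fin m → P.ι) → ℂ) :=
    { toFun := fun β v => ((2 * Real.pi * Complex.I) ^ k : ℂ)⁻¹ * β (fun r => P.bB (v r))
      map_add' := fun x y => by funext v; simp [mul_add]
      map_smul' := fun q x => by
        funext v
        simp only [Pi.smul_apply, RingHom.id_apply]
        rw [rat_smul_apply, Rat.smul_def]
        ring }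
  have hT : ∀ β v, T β v = ((2 * Real.pi * Complex.I) ^ k : ℂ)⁻¹ * β (fun r => P.bB (v r)) :=
    fun _ _ => rfl
  have hrat : ∀ β, X.IsRational k β → ∃ x, iQ x = T β := by
    intro β hβ
    choose c hc using fun v : Fin m → P.ι => hβ (fun r => P.bB (v r)) (fun r => hb _)
    refine ⟨c, ?_⟩
    funext v
    rw [hT, hc, ← mul_assoc, inv_mul_cancel₀ h2, one_mul]
    rfl
  have hTinj : ∀ β γ, T β = T γ → β = γ := by
    intro β γ hβγ
    refine Basis.ext_alternating P.bB fun v _ => ?_
    have h3 := congrFun hβγ v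
    rw [hT, hT] at h3
    exact mul_left_cancel₀ (inv_ne_zero h2) h3
  obtain ⟨x, hx⟩ := hrat α hα
  have hxM : x ∈ (M.map T).comap iQ := by
    by_contra hcon
    obtain ⟨f, hfx, hfM⟩ := Submodule.exists_le_ker_of_notMem hcon
    -- extend `f`
    let F : X.Class m →ₗ[ℂ] ℂ :=
      { toFun := fun β => ∑ v, (f (Pi.single v 1) : ℂ) * (((2 * Real.pi * Complex.I) ^ k : ℂ)⁻¹ *
          β (fun r => P.bB (v r)))
        map_add' := fun β γ => by
          rw [← Finset.sum_add_distrib]
          refine Finset.sum_congr rfl fun v _ => ?_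
          rw [AlternatingMap.add_apply]
          ring
        map_smul' := fun c β => by
          rw [smul_eq_mul, Finset.mul_sum]
          refine Finset.sum_congr rfl fun v _ => ?_
          rw [AlternatingMap.smul_apply, RingHom.id_apply, smul_eq_mul]
          ring }
    have hF : ∀ β y, iQ y = T β → F β = (f y : ℂ) := by
      intro β y hy
      have h3 : f y = ∑ v, f (Pi.single v 1) * y v := by
        conv_lhs => rw [← Finset.univ_sum_single y, map_sum]
        refine Finset.sum_congr rfl fun v _ => ?_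
        have h4 : (Pi.single v (y v) : (Fin m → P.ι) → ℚ) = y v • Pi.single v 1 := by
          rw [← Pi.single_smul]
          simp
        rw [h4, map_smul, smul_eq_mul, mul_comm]
      rw [h3]
      push_cast
      change ∑ v, (f (Pi.single v 1) : ℂ) * T β v = _
      refine Finset.sum_congr rfl fun v _ => ?_
      rw [← hy]
      rfl
    have h3 : ∀ β ∈ Submodule.span ℂ (M : Set (X.Class m)), F β = 0 := by
      intro β hβ
      induction hβ using Submodule.span_induction with
      | mem β hβ =>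
        obtain ⟨y, hy⟩ := hrat β (hM β hβ)
        rw [hF β y hy]
        have h4 : f y = 0 := hfM (show y ∈ (M.map T).comap iQ from by
          rw [Submodule.mem_comap, hy]
          exact Submodule.mem_map_of_mem hβ)
        rw [h4, Rat.cast_zero]
      | zero => exact map_zero _
      | add β γ _ _ h4 h5 => rw [map_add, h4, h5, add_zero]
      | smul c β _ h4 => rw [map_smul, h4, smul_zero]
    have h4 := h3 α h
    rw [hF α x hx] at h4
    exact hfx (by exact_mod_cast h4)
  rw [Submodule.mem_comap, hx] at hxM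
  obtain ⟨β, hβ, hβα⟩ := hxM
  rw [← hTinj β α hβα]
  exact hβ

/-- **In a decomposition of a Grothendieck class as a divisorial class plus Weil classes, the Weil
classes can be taken to be Grothendieck classes.** -/
theorem split {k : ℕ} {α : X.Class (2 * k)} (hα : X.IsGrothendieckClass k α)
    (h : X.IsDivisorialPlusWeil k α) :
    ∃ (m : ℕ) (w : Fin m → X.Class (2 * k)),
      (∀ r, X.IsWeil k (w r) ∧ X.IsGrothendieckClass k (w r)) ∧
      X.IsDivisorialClass k (α - ∑ r, w r) := by
  classical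
  obtain ⟨m, w, hw, hδ⟩ := h
  by_cases hk : k = 2
  swap
  · have hm : IsEmpty (Fin m) := ⟨fun r => hk (hw r).1.1⟩
    exact ⟨m, w, fun r => (hm.false r).elim, hδ⟩
  subst hk
  choose hg hR d J hJ hwJ using hw
  let Jl : Fin m → X.H1 →ₗ[ℂ] X.H1 := fun r => (hJ r).2.1.linear.mk' (J r)
  have hJE : ∀ r, X.IsEnd (Jl r) := fun r => (hJ r).2.1
  have hd0 : ∀ r, d r ≠ 0 := fun r => (hJ r).1.ne'
  let P : Fin m → X.Class (2 * 2) →ₗ[ℂ] X.Class (2 * 2) := fun r => wproj (d r) (Jl r)
  have hPw : ∀ r, P r (w r) = w r := fun r => wproj_eq (hd0 r) (hJ r).2.2.1 (w r) (hwJ r)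
  have hPG : ∀ r, ∀ β ∈ GS X 2, P r β ∈ GS X 2 := fun r β hβ => wproj_GS (hJE r) hβ
  have hPadj : ∀ r (β γ : X.Class (2 * 2)), ⟪io X (P r β), io X γ⟫_ℂ = ⟪io X β, io X (P r γ)⟫_ℂ :=
    fun r β γ => inner_wproj (hJE r) (fun u v => weil_skew (hJ r) u v) β γ
  let M : Submodule ℚ (X.Class (2 * 2)) :=
    { carrier := {β | ∃ δ ∈ DS X 2, ∃ g : Fin m → X.Class (2 * 2), (∀ r, g r ∈ GS X 2) ∧
        β = δ + ∑ r, P r (g r)}
      zero_mem' := ⟨0, (DS X 2).zero_mem, fun _ => 0, fun _ => (GS X 2).zero_mem, by simp⟩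
      add_mem' := by
        rintro β γ ⟨δ, hδ, g, hg, rfl⟩ ⟨δ', hδ', g', hg', rfl⟩
        refine ⟨δ + δ', (DS X 2).add_mem hδ hδ', fun r => g r + g' r,
          fun r => (GS X 2).add_mem (hg r) (hg' r), ?_⟩
        simp only [map_add, Finset.sum_add_distrib]
        abel
      smul_mem' := by
        rintro q β ⟨δ, hδ, g, hg, rfl⟩
        refine ⟨q • δ, (DS X 2).smul_mem q hδ, fun r => q • g r,
          fun r => (GS X 2).smul_mem q (hg r), ?_⟩
        rw [smul_add, Finset.smul_sum]
        congr 1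
        refine Finset.sum_congr rfl fun r _ => ?_
        exact (((P r).restrictScalars ℚ).map_smul q (g r)).symm }
  have hMG : ∀ β ∈ M, β ∈ GS X 2 := by
    rintro β ⟨δ, hδ, g, hg, rfl⟩
    exact (GS X 2).add_mem (grothendieck_of_divisorial hδ)
      ((GS X 2).sum_mem fun r _ => hPG r _ (hg r))
  have hPM : ∀ r, ∀ β ∈ GS X 2, P r β ∈ M := by
    intro r β hβ
    refine ⟨0, (DS X 2).zero_mem, Pi.single r β, fun s => ?_, ?_⟩
    · by_cases hs : s = r
      · subst hs; rw [Pi.single_eq_same]; exact hβ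
      · rw [Pi.single_eq_of_ne hs]; exact (GS X 2).zero_mem
    · rw [zero_add, Finset.sum_eq_single r]
      · rw [Pi.single_eq_same]
      · intro s _ hs
        rw [Pi.single_eq_of_ne hs, map_zero]
      · intro h; exact absurd (Finset.mem_univ r) h
  set S : Submodule ℂ (X.Class (2 * 2)) := Submodule.span ℂ (M : Set (X.Class (2 * 2))) with hS
  set G : Submodule ℂ (X.Class (2 * 2)) := Submodule.span ℂ (GS X 2 : Set (X.Class (2 * 2))) with hG
  have hSG : S ≤ G := Submodule.span_mono hMG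
  have hPS : ∀ r, ∀ β ∈ G, P r β ∈ S := by
    intro r β hβ
    induction hβ using Submodule.span_induction with
    | mem β hβ => exact Submodule.subset_span (hPM r β hβ)
    | zero => rw [map_zero]; exact S.zero_mem
    | add β γ _ _ h1 h2 => rw [map_add]; exact S.add_mem h1 h2
    | smul c β _ h1 => rw [map_smul]; exact S.smul_mem c h1
  obtain ⟨y, hy, z, hz, hyz⟩ := (S.map (io X)).exists_add_mem_mem_orthogonal (io X α)
  obtain ⟨y', hy', rfl⟩ := hy
  have hζ : z = io X (α - y') := by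
    rw [map_sub, hyz]
    simp
  set ζ := α - y' with hζdef
  have horth : ∀ s ∈ S, ⟪io X s, io X ζ⟫_ℂ = 0 := by
    intro s hs
    rw [← hζ]
    exact (Submodule.mem_orthogonal _ _).mp hz _ (Submodule.mem_map_of_mem hs)
  have hαG : α ∈ G := Submodule.subset_span hα
  have hζG : ζ ∈ G := G.sub_mem hαG (hSG hy')
  have hPζ : ∀ r, io X (P r ζ) = 0 := by
    intro r
    have h1 : ⟪io X (P r ζ), io X (P r ζ)⟫_ℂ = 0 := by
      rw [← hPadj r (P r ζ) ζ]
      exact horth _ (hPS r _ (hSG (hPS r _ hζG)))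
    exact inner_self_eq_zero.mp h1
  have hαζ : ⟪io X α, io X ζ⟫_ℂ = 0 := by
    have h1 : α = (α - ∑ r, w r) + ∑ r, w r := by abel
    rw [h1, map_add, map_sum, inner_add_left, sum_inner]
    have h2 : ⟪io X (α - ∑ r, w r), io X ζ⟫_ℂ = 0 := by
      apply horth
      apply Submodule.subset_span
      exact ⟨α - ∑ r, w r, hδ, fun _ => 0, fun _ => (GS X 2).zero_mem, by simp⟩
    rw [h2, zero_add]
    refine Finset.sum_eq_zero fun r _ => ?_
    rw [← hPw r, hPadj, hPζ, inner_zero_right]
  have hζζ : io X ζ = 0 := by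
    have h1 : ⟪io X ζ, io X ζ⟫_ℂ = 0 := by
      have h2 : io X ζ = io X α - io X y' := by rw [hζdef, map_sub]
      have h3 : ⟪io X ζ, io X ζ⟫_ℂ = ⟪io X α - io X y', io X ζ⟫_ℂ :=
        congrArg (fun t => ⟪t, io X ζ⟫_ℂ) h2
      rw [h3, inner_sub_left, hαζ, horth _ hy', sub_zero]
    exact inner_self_eq_zero.mp h1
  have hζ0 := io_injective X ζ hζζ
  have hαS : α ∈ S := by
    have h1 : α = y' := sub_eq_zero.mp hζ0
    rw [h1]; exact hy'
  obtain ⟨δ, hδ', g, hg', hαeq⟩ := descend 2 M (fun β hβ => (hMG β hβ).2) hα.2 hαS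
  refine ⟨m, fun r => P r (g r), fun r => ⟨⟨hg r, (hPG r _ (hg' r)).2, d r, J r, hJ r, ?_⟩,
    hPG r _ (hg' r)⟩, ?_⟩
  · intro v r' s'
    exact wproj_weil (hd0 r) (hJ r).2.2.1 (g r) v r' s'
  · have h1 : α - ∑ r, P r (g r) = δ := by rw [hαeq]; abel
    rw [h1]
    exact hδ'

end Pool.Agent.Helper39.AF
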