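import Pool.Agent.Helper39.AF.Decomp
import Pool.Agent.Helper39.AF.Defs1

/-!
Transfer of classes and endomorphisms along an isogeny `X → ∏_i A_i^{n_i}`.
-/

open scoped ComplexConjugate

namespace Pool.Agent.Helper39.AF

open Module Pool.Agent.GPC Pool.Agent.Helper7 Pool.Agent.Helper71.AF

section transfer

variable {X : AbVar} {I : Type} {A : I → AbVar} {n : I → ℕ} {Φ : X.H1 ≃ₗ[ℂ] H1 A n}
  (hΦ : IsIsogeny X A n Φ)

include hΦ

lemma betti_symm (v : H1 A n) : X.IsBetti (Φ.symm v) ↔ IsBetti A n v := by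
  rw [hΦ.betti, Φ.apply_symm_apply]

lemma deRham_symm (v : H1 A n) : X.IsDeRham (Φ.symm v) ↔ IsDeRham A n v := by
  rw [hΦ.deRham, Φ.apply_symm_apply]

lemma fil_symm (v : H1 A n) : X.IsFil (Φ.symm v) ↔ IsFil A n v := by
  rw [hΦ.fil, Φ.apply_symm_apply]

lemma grothendieck_transfer {k : ℕ} (α : X.Class (2 * k)) (hα : X.IsGrothendieckClass k α) :
    IsGrothendieck A n k (α.compLinearMap Φ.symm.toLinearMap) := by
  refine ⟨fun v hv => ?_, fun v hv => ?_⟩
  · exact hα.1 (fun r => Φ.symm (v r)) fun r => (deRham_symm hΦ _).mpr (hv r)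
  · exact hα.2 (fun r => Φ.symm (v r)) fun r => (betti_symm hΦ _).mpr (hv r)

lemma endo_back {f : H1 A n → H1 A n} (hf : IsEndo A n f) :
    X.IsEnd (fun v => Φ.symm (f (Φ v))) := by
  refine ⟨⟨fun u v => ?_, fun c v => ?_⟩, fun v hv => ?_, fun v hv => ?_, fun v hv => ?_⟩
  · rw [map_add, hf.linear.map_add, map_add]
  · rw [map_smul, hf.linear.map_smul, map_smul]
  · exact (betti_symm hΦ _).mpr (hf.betti _ ((hΦ.betti v).mp hv))
  · exact (deRham_symm hΦ _).mpr (hf.deRham _ ((hΦ.deRham v).mp hv))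
  · exact (fil_symm hΦ _).mpr (hf.hodge _ ((hΦ.fil v).mp hv))

lemma endo_forth {f : X.H1 → X.H1} (hf : X.IsEnd f) :
    IsEndo A n (fun v => Φ (f (Φ.symm v))) := by
  refine ⟨⟨fun u v => ?_, fun c v => ?_⟩, fun v hv => ?_, fun v hv => ?_, fun v hv => ?_⟩
  · rw [map_add, hf.linear.map_add, map_add]
  · rw [map_smul, hf.linear.map_smul, map_smul]
  · exact (hΦ.betti _).mp (hf.betti _ ((betti_symm hΦ _).mpr hv))
  · exact (hΦ.deRham _).mp (hf.deRham _ ((deRham_symm hΦ _).mpr hv))
  · exact (hΦ.fil _).mp (hf.hodge _ ((fil_symm hΦ _).mpr hv))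

lemma divisorial_transfer {ι : ∀ i, (A i).H1 → X.H1} (hι : ∀ i, (A i).IsMor X (ι i) ∧
    ∀ u v, X.pol (ι i u) (ι i v) = (A i).pol u v) {k : ℕ} (α : Form A n (2 * k))
    (hα : IsDivisorial A n k α) :
    X.IsDivisorialClass k (α.compLinearMap Φ.toLinearMap) := by
  obtain ⟨m, c, ω, hω, hsum⟩ := hα
  choose i h hh hprod using hω
  refine ⟨m, c, fun j a v => ι (i j a) (h j a (Φ v)), fun j v => ω j (fun r => Φ (v r)), ?_, ?_, ?_⟩
  · intro j a
    have h1 := hh j a
    have h2 := (hι (i j a)).1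
    refine ⟨⟨fun u v => ?_, fun c v => ?_⟩, fun v hv => ?_, fun v hv => ?_, fun v hv => ?_⟩
    · beta_reduce
      rw [map_add, h1.linear.map_add, h2.linear.map_add]
    · beta_reduce
      rw [map_smul, h1.linear.map_smul, h2.linear.map_smul]
    · exact h2.betti _ (h1.betti _ ((hΦ.betti v).mp hv))
    · exact h2.deRham _ (h1.deRham _ ((hΦ.deRham v).mp hv))
    · exact h2.hodge _ (h1.hodge _ ((hΦ.fil v).mp hv))
  · intro j v
    show ω j (fun r => Φ (v r)) = _
    rw [hprod j]
    refine Finset.sum_congr rfl fun σ _ => ?_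
    congr 1
    refine Finset.prod_congr rfl fun a _ => ?_
    exact ((hι (i j a)).2 _ _).symm
  · intro v
    exact hsum _

end transfer

lemma alt_sum_apply {V : Type*} [AddCommGroup V] [Module ℂ V] {m : ℕ} {α : Type*} (s : Finset α)
    (w : α → V [⋀^Fin m]→ₗ[ℂ] ℂ) (v : Fin m → V) : (∑ r ∈ s, w r) v = ∑ r ∈ s, w r v := by
  classical
  induction s using Finset.induction_on with
  | empty => simp
  | insert a s ha ih => rw [Finset.sum_insert ha, Finset.sum_insert ha, AlternatingMap.add_apply, ih]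

section weil

variable {X : AbVar} {I : Type} [Fintype I] {A : I → AbVar} {n : I → ℕ} {Φ : X.H1 ≃ₗ[ℂ] H1 A n}
  (hΦ : IsIsogeny X A n Φ)

lemma g_eq_of_isogeny (Φ : X.H1 ≃ₗ[ℂ] H1 A n) : ∑ i, n i * (A i).g = X.g := by
  have h1 := Φ.finrank_eq
  rw [finrank_H1] at h1
  have h2 : finrank ℂ (H1 A n) = ∑ i, n i * (2 * (A i).g) := by
    rw [Module.finrank_pi_fintype]
    refine Finset.sum_congr rfl fun i _ => ?_
    rw [Module.finrank_pi_fintype, Finset.sum_const, finrank_H1, Finset.card_univ,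
      Fintype.card_fin, smul_eq_mul]
  rw [h2] at h1
  have h3 : ∑ i, n i * (2 * (A i).g) = 2 * ∑ i, n i * (A i).g := by
    rw [Finset.mul_sum]
    exact Finset.sum_congr rfl fun i _ => by ring
  omega

include hΦ

/-- Weil classes on the product give Weil classes on `X`, if `J` commutes with the images of the
symmetric endomorphisms of `X` -/
lemma weil_back (hc : ∀ d J, IsWeilStructure A n d J → ∀ s, X.IsEnd s → X.IsAdjoint s s →
      ∀ v, J (Φ (s (Φ.symm v))) = Φ (s (Φ.symm (J v)))) {k : ℕ} (w : Form A n (2 * k))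
    (hw : IsWeilClass A n k w) : X.IsWeil k (w.compLinearMap Φ.toLinearMap) := by
  obtain ⟨⟨hk, hdim⟩, hrat, d, J, hJ, hwJ⟩ := hw
  have hJ' := hJ
  obtain ⟨hd, hJE, hJ2, hJs, -⟩ := hJ
  refine ⟨⟨hk, by rw [← g_eq_of_isogeny Φ]; exact hdim⟩, ?_, d, fun v => Φ.symm (J (Φ v)),
    ⟨hd, endo_back hΦ hJE, ?_, ?_, ?_⟩, ?_⟩
  · intro v hv
    exact hrat (fun r => Φ (v r)) fun r => (hΦ.betti _).mp (hv r)
  · intro v
    beta_reduce
    rw [Φ.apply_symm_apply, hJ2, map_smul, Φ.symm_apply_apply]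
  · rintro ⟨c, hcc⟩
    apply hJs
    refine ⟨c, fun v hv => ?_⟩
    have h1 := hcc (Φ.symm v) ((fil_symm hΦ v).mpr hv)
    beta_reduce at h1
    rw [Φ.apply_symm_apply] at h1
    have h2 := congrArg Φ h1
    rw [Φ.apply_symm_apply, map_smul, Φ.apply_symm_apply] at h2
    exact h2
  · intro s hs hsym v
    have h1 := hc d J hJ' s hs hsym (Φ v)
    rw [Φ.symm_apply_apply] at h1
    beta_reduce
    rw [h1, Φ.symm_apply_apply]
  · intro v r s
    have h1 : ∀ (r : Fin (2 * k)), (fun t => Φ (Function.update v r (Φ.symm (J (Φ (v r)))) t)) =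
        Function.update (fun t => Φ (v t)) r (J (Φ (v r))) := by
      intro r
      funext t
      by_cases h : t = r
      · subst h
        rw [Function.update_self, Function.update_self, Φ.apply_symm_apply]
      · rw [Function.update_of_ne h, Function.update_of_ne h]
    show w (fun t => Φ (Function.update v r (Φ.symm (J (Φ (v r)))) t)) =
      w (fun t => Φ (Function.update v s (Φ.symm (J (Φ (v s)))) t))
    rw [h1, h1]
    exact hwJ (fun t => Φ (v t)) r s

/-- Weil classes on `X` give Weil classes on the product if the endomorphism algebra is commutative -/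
lemma weil_forth (hcomm : ∀ f g, X.IsEnd f → X.IsEnd g → ∀ v, f (g v) = g (f v)) {k : ℕ}
    (w : X.Class (2 * k)) (hw : X.IsWeil k w) :
    IsWeilClass A n k (w.compLinearMap Φ.symm.toLinearMap) := by
  obtain ⟨⟨hk, hdim⟩, hrat, d, J, ⟨hd, hJE, hJ2, hJs, -⟩, hwJ⟩ := hw
  refine ⟨⟨hk, by rw [g_eq_of_isogeny Φ]; exact hdim⟩, ?_, d, fun v => Φ (J (Φ.symm v)),
    ⟨hd, endo_forth hΦ hJE, ?_, ?_, Or.inl ?_⟩, ?_⟩
  · intro v hv
    exact hrat (fun r => Φ.symm (v r)) fun r => (betti_symm hΦ _).mpr (hv r)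
  · intro v
    beta_reduce
    rw [Φ.symm_apply_apply, hJ2, map_smul, Φ.apply_symm_apply]
  · rintro ⟨c, hcc⟩
    apply hJs
    refine ⟨c, fun v hv => ?_⟩
    have h1 := hcc (Φ v) ((hΦ.fil v).mp hv)
    beta_reduce at h1
    rw [Φ.symm_apply_apply, ← map_smul] at h1
    exact Φ.injective h1
  · intro f hf v
    have h1 := hcomm J _ hJE (endo_back hΦ hf) (Φ.symm v)
    beta_reduce at h1
    rw [Φ.apply_symm_apply] at h1
    beta_reduce
    rw [h1, Φ.apply_symm_apply]
  · intro v r s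
    have h1 : ∀ (r : Fin (2 * k)), (fun t => Φ.symm (Function.update v r (Φ (J (Φ.symm (v r)))) t)) =
        Function.update (fun t => Φ.symm (v t)) r (J (Φ.symm (v r))) := by
      intro r
      funext t
      by_cases h : t = r
      · subst h
        rw [Function.update_self, Function.update_self, Φ.symm_apply_apply]
      · rw [Function.update_of_ne h, Function.update_of_ne h]
    show w (fun t => Φ.symm (Function.update v r (Φ (J (Φ.symm (v r)))) t)) =
      w (fun t => Φ.symm (Function.update v s (Φ (J (Φ.symm (v s)))) t))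
    rw [h1, h1]
    exact hwJ (fun t => Φ.symm (v t)) r s

/-- the conclusion for `X` from the conclusion for the product -/
lemma divisorialPlusWeil_of (hc : ∀ d J, IsWeilStructure A n d J → ∀ s, X.IsEnd s →
      X.IsAdjoint s s → ∀ v, J (Φ (s (Φ.symm v))) = Φ (s (Φ.symm (J v))))
    {ι : ∀ i, (A i).H1 → X.H1} (hι : ∀ i, (A i).IsMor X (ι i) ∧
    ∀ u v, X.pol (ι i u) (ι i v) = (A i).pol u v) {k : ℕ} (α : X.Class (2 * k))
    (h : IsDivisorialWeil A n k (α.compLinearMap Φ.symm.toLinearMap)) :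
    X.IsDivisorialPlusWeil k α := by
  obtain ⟨m, w, hw, hdiv⟩ := h
  refine ⟨m, fun r => (w r).compLinearMap Φ.toLinearMap, fun r => weil_back hΦ hc _ (hw r), ?_⟩
  have h1 := divisorial_transfer hΦ hι _ hdiv
  have h2 : (α.compLinearMap Φ.symm.toLinearMap - ∑ r, w r).compLinearMap Φ.toLinearMap =
      α - ∑ r, (w r).compLinearMap Φ.toLinearMap := by
    ext v
    rw [AlternatingMap.compLinearMap_apply, AlternatingMap.sub_apply, AlternatingMap.sub_apply,
      alt_sum_apply, alt_sum_apply, AlternatingMap.compLinearMap_apply]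
    have h3 : (fun i => Φ.symm.toLinearMap (Φ.toLinearMap (v i))) = v := by
      funext t
      exact Φ.symm_apply_apply _
    have h4 : α (fun i => Φ.symm.toLinearMap (Φ.toLinearMap (v i))) = α v := by rw [h3]
    exact congrArg₂ (· - ·) h4 rfl
  rw [h2] at h1
  exact h1

end weil

end Pool.Agent.Helper39.AF
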