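import Pool.Agent.Helper39.AF.Mor

/-!
Decomposition of an abelian variety (up to isogeny) into simple abelian varieties.
-/

open scoped ComplexConjugate

namespace Pool.Agent.GPC

/-- `Φ` is an isogeny (tensor `ℚ`) from `X` to `∏_i A_i^{n_i}`: a bijective linear map which respects
the Betti and de Rham structures and the Hodge filtration in both directions. -/
structure IsIsogeny (X : AbVar) {I : Type} (A : I → AbVar) (n : I → ℕ)
    (Φ : X.H1 ≃ₗ[ℂ] H1 A n) : Prop where
  betti : ∀ v, X.IsBetti v ↔ IsBetti A n (Φ v)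
  deRham : ∀ v, X.IsDeRham v ↔ IsDeRham A n (Φ v)
  fil : ∀ v, X.IsFil v ↔ IsFil A n (Φ v)

end Pool.Agent.GPC

namespace Pool.Agent.Helper39.AF

open Module Pool.Agent.GPC Pool.Agent.Helper7 Pool.Agent.Helper71.AF

/-- an orthogonal decomposition into simple abelian subvarieties -/
structure SDecomp (X : AbVar) {J : Type} [Fintype J] (B : J → AbVar)
    (ι : ∀ j, (B j).H1 → X.H1) (π : ∀ j, X.H1 → (B j).H1) : Prop where
  morι : ∀ j, (B j).IsMor X (ι j)
  morπ : ∀ j, X.IsMor (B j) (π j)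
  πι : ∀ j y, π j (ι j y) = y
  off : ∀ j k, j ≠ k → ∀ y, π j (ι k y) = 0
  sum : ∀ x, ∑ j, ι j (π j x) = x
  simple : ∀ j, (B j).IsSimple
  pos : ∀ j, (B j).g ≠ 0
  pol : ∀ j u v, X.pol (ι j u) (ι j v) = (B j).pol u v

lemma finrank_H1 (X : AbVar) : finrank ℂ X.H1 = 2 * X.g := by
  rw [Module.finrank_fintype_fun_eq_card]
  simp [two_mul]

lemma g_lt_of_mor {X Y : AbVar} {ι : Y.H1 → X.H1} {π : X.H1 → Y.H1} {e : X.H1 → X.H1}
    (hι : Y.IsMor X ι) (h1 : ∀ y, π (ι y) = y) (h2 : ∀ x, ι (π x) = e x) (he : ∃ v, e v ≠ v) :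
    Y.g < X.g := by
  by_contra hcon
  push Not at hcon
  let il : Y.H1 →ₗ[ℂ] X.H1 := hι.linear.mk' ι
  have hinj : Function.Injective il := fun a b hab => by
    have : π (ι a) = π (ι b) := congrArg π hab
    rwa [h1, h1] at this
  have h3 : finrank ℂ Y.H1 ≤ finrank ℂ X.H1 := LinearMap.finrank_le_finrank_of_injective hinj
  have h4 : finrank ℂ Y.H1 = finrank ℂ X.H1 := by
    rw [finrank_H1, finrank_H1] at h3 ⊢
    omega
  have hsurj : Function.Surjective il :=
    (LinearMap.injective_iff_surjective_of_finrank_eq_finrank h4).mp hinj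
  obtain ⟨v, hv⟩ := he
  obtain ⟨y, hy⟩ := hsurj v
  apply hv
  have hy' : ι y = v := hy
  rw [← h2, ← hy', h1]

theorem exists_sdecomp (X : AbVar) : ∃ (J : Type) (_ : Fintype J) (B : J → AbVar)
    (ι : ∀ j, (B j).H1 → X.H1) (π : ∀ j, X.H1 → (B j).H1), SDecomp X B ι π := by
  classical
  induction hg : X.g using Nat.strong_induction_on generalizing X with
  | _ g ih =>
    subst hg
    by_cases h0 : X.g = 0
    · refine ⟨Empty, inferInstance, fun j => j.elim, fun j => j.elim, fun j => j.elim, ?_⟩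
      refine ⟨fun j => j.elim, fun j => j.elim, fun j => j.elim, fun j => j.elim, fun x => ?_,
        fun j => j.elim, fun j => j.elim, fun j => j.elim⟩
      funext a
      have : IsEmpty (Fin X.g ⊕ Fin X.g) := by rw [h0]; infer_instance
      exact isEmptyElim a
    by_cases hs : X.IsSimple
    · refine ⟨Unit, inferInstance, fun _ => X, fun _ v => v, fun _ v => v, ?_⟩
      refine ⟨fun _ => isMor_id X, fun _ => isMor_id X, fun _ _ => rfl,
        fun j k hjk => absurd (Subsingleton.elim j k) hjk, fun x => by simp, fun _ => hs,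
        fun _ => h0, fun _ _ _ => rfl⟩
    obtain ⟨e, he, hid, hsym, hne0, hne1⟩ := exists_idem X hs
    -- the complementary idempotent
    let el : X.H1 →ₗ[ℂ] X.H1 := he.linear.mk' e
    have hel : ∀ v, el v = e v := fun _ => rfl
    let e' : X.H1 → X.H1 := fun v => v - e v
    have hE' : X.IsEnd e' := by
      have h1 : IsLinearMap ℂ e' := (LinearMap.id - el : X.H1 →ₗ[ℂ] X.H1).isLinear
      have h2 : X.IsMor X e' := by
        refine isMor_of X X h1 ?_ ?_
        · intro v hv
          rw [isBetti_iff] at hv ⊢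
          exact Submodule.sub_mem _ hv ((isBetti_iff X _).mp (he.betti v ((isBetti_iff X v).mpr hv)))
        · intro v hv j
          exact (hv j).sub (he.deRham v hv j)
      exact (isEnd_iff X _).mpr h2
    have hid' : ∀ v, e' (e' v) = e' v := by
      intro v
      show (v - e v) - el (v - e v) = v - e v
      rw [map_sub, hel, hel, hid, sub_self, sub_zero]
    have hsym' : X.IsAdjoint e' e' := by
      intro u v
      show X.polForm (u - e u) v = X.polForm u (v - e v)
      have h1 : X.polForm (e u) v = X.polForm u (e v) := hsym u v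
      rw [map_sub, LinearMap.sub_apply, map_sub, h1]
    have hne1' : ∃ v, e' v ≠ v := by
      obtain ⟨v, hv⟩ := hne0
      refine ⟨v, fun h => hv ?_⟩
      have h1 : v - e v = v := h
      exact sub_eq_self.mp h1
    obtain ⟨Y₁, ι₁, π₁, hι₁, hπ₁, hπι₁, hιπ₁, hpol₁⟩ := sub_abVar X e he hid hsym
    obtain ⟨Y₂, ι₂, π₂, hι₂, hπ₂, hπι₂, hιπ₂, hpol₂⟩ := sub_abVar X e' hE' hid' hsym'
    have hlt₁ : Y₁.g < X.g := g_lt_of_mor hι₁ hπι₁ hιπ₁ hne1
    have hlt₂ : Y₂.g < X.g := g_lt_of_mor hι₂ hπι₂ hιπ₂ hne1'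
    obtain ⟨J₁, _, B₁, a₁, b₁, D₁⟩ := ih Y₁.g hlt₁ Y₁ rfl
    obtain ⟨J₂, _, B₂, a₂, b₂, D₂⟩ := ih Y₂.g hlt₂ Y₂ rfl
    have h12 : ∀ y, π₁ (ι₂ y) = 0 := by
      intro y
      have h1 : ι₁ (π₁ (ι₂ y)) = 0 := by
        rw [hιπ₁]
        have h2 : ι₂ y = e' (ι₂ y) := by rw [← hιπ₂, hπι₂]
        rw [h2]
        show el (ι₂ y - e (ι₂ y)) = 0
        rw [map_sub, hel, hel, hid, sub_self]
      have h2 := congrArg π₁ h1
      rw [hπι₁, hπ₁.linear.map_zero] at h2
      exact h2
    have h21 : ∀ y, π₂ (ι₁ y) = 0 := by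
      intro y
      have h1 : ι₂ (π₂ (ι₁ y)) = 0 := by
        rw [hιπ₂]
        have h2 : ι₁ y = e (ι₁ y) := by rw [← hιπ₁, hπι₁]
        show ι₁ y - e (ι₁ y) = 0
        rw [← h2, sub_self]
      have h2 := congrArg π₂ h1
      rw [hπι₂, hπ₂.linear.map_zero] at h2
      exact h2
    refine ⟨J₁ ⊕ J₂, inferInstance, Sum.elim B₁ B₂,
      fun j => match j with
        | .inl a => fun y => ι₁ (a₁ a y)
        | .inr b => fun y => ι₂ (a₂ b y),
      fun j => match j with
        | .inl a => fun x => b₁ a (π₁ x)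
        | .inr b => fun x => b₂ b (π₂ x), ?_⟩
    refine ⟨?_, ?_, ?_, ?_, ?_, ?_, ?_, ?_⟩
    · rintro (j | j)
      · exact isMor_comp hι₁ (D₁.morι j)
      · exact isMor_comp hι₂ (D₂.morι j)
    · rintro (j | j)
      · exact isMor_comp (D₁.morπ j) hπ₁
      · exact isMor_comp (D₂.morπ j) hπ₂
    · rintro (j | j) y
      · show b₁ j (π₁ (ι₁ (a₁ j y))) = y
        rw [hπι₁, D₁.πι]
      · show b₂ j (π₂ (ι₂ (a₂ j y))) = y
        rw [hπι₂, D₂.πι]
    · rintro (j | j) (k | k) hjk y
      · show b₁ j (π₁ (ι₁ (a₁ k y))) = 0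
        rw [hπι₁]
        exact D₁.off j k (fun h => hjk (congrArg _ h)) y
      · show b₁ j (π₁ (ι₂ (a₂ k y))) = 0
        rw [h12, (D₁.morπ j).linear.map_zero]
      · show b₂ j (π₂ (ι₁ (a₁ k y))) = 0
        rw [h21, (D₂.morπ j).linear.map_zero]
      · show b₂ j (π₂ (ι₂ (a₂ k y))) = 0
        rw [hπι₂]
        exact D₂.off j k (fun h => hjk (congrArg _ h)) y
    · intro x
      rw [Fintype.sum_sum_type]
      show (∑ j, ι₁ (a₁ j (b₁ j (π₁ x)))) + (∑ j, ι₂ (a₂ j (b₂ j (π₂ x)))) = x
      have h1 : (∑ j, ι₁ (a₁ j (b₁ j (π₁ x)))) = ι₁ (π₁ x) := by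
        have h2 := map_sum (hι₁.linear.mk' ι₁) (fun j => a₁ j (b₁ j (π₁ x))) Finset.univ
        rw [D₁.sum] at h2
        exact h2.symm
      have h3 : (∑ j, ι₂ (a₂ j (b₂ j (π₂ x)))) = ι₂ (π₂ x) := by
        have h2 := map_sum (hι₂.linear.mk' ι₂) (fun j => a₂ j (b₂ j (π₂ x))) Finset.univ
        rw [D₂.sum] at h2
        exact h2.symm
      rw [h1, h3, hιπ₁, hιπ₂]
      show e x + (x - e x) = x
      abel
    · rintro (j | j)
      · exact D₁.simple j
      · exact D₂.simple j
    · rintro (j | j)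
      · exact D₁.pos j
      · exact D₂.pos j
    · rintro (j | j) u v
      · show X.pol (ι₁ (a₁ j u)) (ι₁ (a₁ j v)) = (B₁ j).pol u v
        rw [hpol₁, D₁.pol]
      · show X.pol (ι₂ (a₂ j u)) (ι₂ (a₂ j v)) = (B₂ j).pol u v
        rw [hpol₂, D₂.pol]

/-- isogeny -/
def Isog (B C : AbVar) : Prop := ∃ f, B.IsMor C f ∧ Function.Bijective f

lemma Isog.refl (B : AbVar) : Isog B B := ⟨fun v => v, isMor_id B, Function.bijective_id⟩

lemma Isog.symm {B C : AbVar} (h : Isog B C) : Isog C B := by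
  obtain ⟨f, hf, hb⟩ := h
  obtain ⟨f', hf', h1, h2⟩ := exists_inv_mor B C f hf hb
  exact ⟨f', hf', ⟨fun a b hab => by rw [← h2 a, hab, h2], fun x => ⟨f x, h1 x⟩⟩⟩

lemma Isog.trans {B C D : AbVar} (h : Isog B C) (h' : Isog C D) : Isog B D := by
  obtain ⟨f, hf, hb⟩ := h
  obtain ⟨g, hg, hc⟩ := h'
  exact ⟨fun v => g (f v), isMor_comp hg hf, hc.comp hb⟩

/-- decomposition into simple abelian varieties, isogenous ones being grouped together -/
theorem exists_decomp (X : AbVar) :
    ∃ (I : Type) (_ : Fintype I) (A : I → AbVar) (n : I → ℕ) (Φ : X.H1 ≃ₗ[ℂ] H1 A n)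
      (ι : ∀ i, (A i).H1 → X.H1), IsIsogeny X A n Φ ∧ (∀ i, (A i).g ≠ 0) ∧ (∀ i, (A i).IsSimple) ∧
      (∀ i j, i ≠ j → ∀ f, (A i).IsMor (A j) f → ∀ v, f v = 0) ∧ (∀ i, n i ≠ 0) ∧
      ∑ i, n i * (A i).g = X.g ∧ ∀ i, (A i).IsMor X (ι i) ∧
        ∀ u v, X.pol (ι i u) (ι i v) = (A i).pol u v := by
  classical
  obtain ⟨J, _, B, a, b, D⟩ := exists_sdecomp X
  let S : Setoid J := ⟨fun j k => Isog (B j) (B k), ⟨fun j => Isog.refl _, Isog.symm, Isog.trans⟩⟩
  let I := Quotient S
  have : Fintype I := Quotient.fintype S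
  let A : I → AbVar := fun i => B i.out
  let n : I → ℕ := fun i => Fintype.card {j // (Quotient.mk S j) = i}
  have hcl : ∀ i : I, Nonempty (Fin (n i) ≃ {j // (Quotient.mk S j) = i}) := fun i =>
    ⟨(Fintype.equivFin _).symm⟩
  let E : ∀ i : I, Fin (n i) ≃ {j // (Quotient.mk S j) = i} := fun i => Classical.choice (hcl i)
  have hiso : ∀ (i : I) (m : Fin (n i)), Isog (B (E i m).1) (A i) := by
    intro i m
    have h1 : Quotient.mk S (E i m).1 = Quotient.mk S i.out := by
      rw [(E i m).2]; exact (Quotient.out_eq i).symm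
    exact Quotient.exact h1
  choose f hf hfb using hiso
  have hinv : ∀ (i : I) (m : Fin (n i)), ∃ f' : (A i).H1 → (B (E i m).1).H1,
      (A i).IsMor (B (E i m).1) f' ∧ (∀ x, f' (f i m x) = x) ∧ ∀ y, f i m (f' y) = y :=
    fun i m => exists_inv_mor _ _ _ (hf i m) (hfb i m)
  choose f' hf' hff' hf'f using hinv
  -- the two maps
  let Fw : X.H1 →ₗ[ℂ] H1 A n :=
    { toFun := fun v i m => f i m (b (E i m).1 v)
      map_add' := by
        intro u v; funext i m
        show f i m (b (E i m).1 (u + v)) = f i m (b (E i m).1 u) + f i m (b (E i m).1 v)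
        rw [(D.morπ _).linear.map_add, (hf i m).linear.map_add]
      map_smul' := by
        intro c v; funext i m
        show f i m (b (E i m).1 (c • v)) = c • f i m (b (E i m).1 v)
        rw [(D.morπ _).linear.map_smul, (hf i m).linear.map_smul] }
  let Bw : H1 A n →ₗ[ℂ] X.H1 :=
    { toFun := fun y => ∑ i, ∑ m, a (E i m).1 (f' i m (y i m))
      map_add' := by
        intro u v
        rw [← Finset.sum_add_distrib]
        refine Finset.sum_congr rfl fun i _ => ?_
        rw [← Finset.sum_add_distrib]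
        refine Finset.sum_congr rfl fun m _ => ?_
        show a (E i m).1 (f' i m (u i m + v i m)) = _
        rw [(hf' i m).linear.map_add, (D.morι _).linear.map_add]
      map_smul' := by
        intro c v
        rw [Finset.smul_sum]
        refine Finset.sum_congr rfl fun i _ => ?_
        rw [Finset.smul_sum]
        refine Finset.sum_congr rfl fun m _ => ?_
        show a (E i m).1 (f' i m (c • v i m)) = _
        rw [(hf' i m).linear.map_smul, (D.morι _).linear.map_smul]
        rfl }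
  have hFw : ∀ v i m, Fw v i m = f i m (b (E i m).1 v) := fun _ _ _ => rfl
  have hBw : ∀ y, Bw y = ∑ i, ∑ m, a (E i m).1 (f' i m (y i m)) := fun _ => rfl
  -- the index sets
  let P : (Σ i : I, Fin (n i)) ≃ J :=
    (Equiv.sigmaCongrRight E).trans (Equiv.sigmaFiberEquiv (Quotient.mk S))
  have hP : ∀ i m, P ⟨i, m⟩ = (E i m).1 := fun _ _ => rfl
  have hBF : ∀ v, Bw (Fw v) = v := by
    intro v
    rw [hBw]
    have h1 : ∀ i m, a (E i m).1 (f' i m (Fw v i m)) = a (E i m).1 (b (E i m).1 v) := by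
      intro i m
      rw [hFw, hff']
    simp only [h1]
    have h2 : ∑ i, ∑ m, a (E i m).1 (b (E i m).1 v) =
        ∑ p : (Σ i : I, Fin (n i)), a (P p) (b (P p) v) := by
      rw [Fintype.sum_sigma]
      exact Finset.sum_congr rfl fun i _ => Finset.sum_congr rfl fun m _ => rfl
    rw [h2, Equiv.sum_comp P (fun j => a j (b j v)), D.sum]
  have hFB : ∀ y, Fw (Bw y) = y := by
    intro y
    funext i m
    rw [hFw, hBw]
    have h1 : b (E i m).1 (∑ i', ∑ m', a (E i' m').1 (f' i' m' (y i' m'))) =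
        ∑ i', ∑ m', b (E i m).1 (a (E i' m').1 (f' i' m' (y i' m'))) := by
      have h2 := map_sum ((D.morπ (E i m).1).linear.mk' _)
        (fun i' => ∑ m', a (E i' m').1 (f' i' m' (y i' m'))) Finset.univ
      refine h2.trans ?_
      refine Finset.sum_congr rfl fun i' _ => ?_
      exact map_sum ((D.morπ (E i m).1).linear.mk' _)
        (fun m' => a (E i' m').1 (f' i' m' (y i' m'))) Finset.univ
    have hz : ∀ i' m', (⟨i', m'⟩ : Σ i : I, Fin (n i)) ≠ ⟨i, m⟩ →
        b (E i m).1 (a (E i' m').1 (f' i' m' (y i' m'))) = 0 := by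
      intro i' m' hne
      apply D.off
      intro h
      apply hne
      apply P.injective
      rw [hP, hP, h]
    rw [h1, Finset.sum_eq_single i, Finset.sum_eq_single m, D.πι, hf'f]
    · intro m' _ hm
      apply hz
      intro h
      apply hm
      have h3 := (Sigma.mk.inj_iff.mp h).2
      exact eq_of_heq h3
    · intro h; exact absurd (Finset.mem_univ _) h
    · intro i' _ hi
      apply Finset.sum_eq_zero
      intro m' _
      apply hz
      intro h
      exact hi (Sigma.mk.inj_iff.mp h).1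
    · intro h; exact absurd (Finset.mem_univ _) h
  let Φ : X.H1 ≃ₗ[ℂ] H1 A n := LinearEquiv.ofLinearMap Fw Bw (LinearMap.ext hFB) (LinearMap.ext hBF)
  have hΦ : ∀ v, Φ v = Fw v := fun _ => rfl
  refine ⟨I, this, A, n, Φ, fun i => a i.out, ⟨?_, ?_, ?_⟩, fun i => D.pos _, fun i => D.simple _,
    ?_, ?_, ?_, fun i => ⟨D.morι _, D.pol _⟩⟩
  · intro v
    constructor
    · intro hv i m
      exact (hf i m).betti _ ((D.morπ _).betti v hv)
    · intro hv
      rw [← hBF v, hBw, isBetti_iff]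
      refine Submodule.sum_mem _ fun i _ => Submodule.sum_mem _ fun m _ => ?_
      rw [← isBetti_iff]
      exact (D.morι _).betti _ ((hf' i m).betti _ (hv i m))
  · intro v
    constructor
    · intro hv i m
      exact (hf i m).deRham _ ((D.morπ _).deRham v hv)
    · intro hv
      rw [← hBF v, hBw]
      intro j
      rw [Finset.sum_apply]
      refine isAlg_sum _ _ fun i _ => ?_
      rw [Finset.sum_apply]
      refine isAlg_sum _ _ fun m _ => ?_
      exact (D.morι _).deRham _ ((hf' i m).deRham _ (hv i m)) j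
  · intro v
    constructor
    · intro hv i m
      exact (hf i m).hodge _ ((D.morπ _).hodge v hv)
    · intro hv
      rw [← hBF v, hBw]
      intro j
      rw [Finset.sum_apply]
      refine Finset.sum_eq_zero fun i _ => ?_
      rw [Finset.sum_apply]
      refine Finset.sum_eq_zero fun m _ => ?_
      exact (D.morι _).hodge _ ((hf' i m).hodge _ (hv i m)) j
  · intro i j hij g hg v
    by_contra hne
    have h1 := bijective_of_simple (D.simple _) (D.simple _) g hg ⟨v, hne⟩
    apply hij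
    have h2 : Quotient.mk S i.out = Quotient.mk S j.out := Quotient.sound ⟨g, hg, h1⟩
    rw [Quotient.out_eq, Quotient.out_eq] at h2
    exact h2
  · intro i h0
    have h1 : IsEmpty {j // (Quotient.mk S j) = i} := Fintype.card_eq_zero_iff.mp h0
    exact h1.elim ⟨i.out, Quotient.out_eq i⟩
  · have h1 := Φ.finrank_eq
    rw [finrank_H1] at h1
    have h2 : finrank ℂ (H1 A n) = ∑ i, n i * (2 * (A i).g) := by
      rw [Module.finrank_pi_fintype]
      refine Finset.sum_congr rfl fun i _ => ?_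
      rw [Module.finrank_pi_fintype, Finset.sum_const, finrank_H1, Finset.card_univ,
        Fintype.card_fin, smul_eq_mul]
    rw [h2] at h1
    have h3 : ∑ i, n i * (2 * (A i).g) = 2 * ∑ i, n i * (A i).g := by
      rw [Finset.mul_sum]
      exact Finset.sum_congr rfl fun i _ => by ring
    omega

end Pool.Agent.Helper39.AF
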