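import Pool.Agent.Helper39.AF.Transfer

/-!
The exceptional cases, and the intrinsic theorem from the theorem on products.
-/

open scoped ComplexConjugate

namespace Pool.Agent.Helper39.AF

open Module Pool.Agent.GPC Pool.Agent.Helper7 Pool.Agent.Helper71.AF

section diag

variable {I : Type} {A : I → AbVar} {n : I → ℕ}

/-- a componentwise operator -/
lemma isEndo_diag {T : ∀ i, (A i).H1 → (A i).H1} (hT : ∀ i, (A i).IsEnd (T i)) :
    IsEndo A n (fun v i m => T i (v i m)) := by
  refine ⟨⟨fun u v => ?_, fun c v => ?_⟩, fun v hv i m => (hT i).betti _ (hv i m),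
    fun v hv i m => (hT i).deRham _ (hv i m), fun v hv i m => (hT i).hodge _ (hv i m)⟩
  · funext i m
    show T i (u i m + v i m) = _
    rw [(hT i).linear.map_add]
    rfl
  · funext i m
    show T i (c • v i m) = _
    rw [(hT i).linear.map_smul]
    rfl

lemma isBetti_zero (B : AbVar) : B.IsBetti 0 := (isBetti_iff B 0).mpr (Submodule.zero_mem _)

variable [Fintype I] [DecidableEq I]

omit [Fintype I] in
/-- inclusion of one factor, if the multiplicities are one -/
lemma incl_apply (i j : I) (u : (A i).H1) (m : Fin (n j)) (h : j ≠ i) :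
    (Pi.single i (fun _ => u) : H1 A n) j m = 0 := by
  rw [Pi.single_eq_of_ne h]; rfl

omit [Fintype I] in
lemma incl_same (i : I) (u : (A i).H1) (m : Fin (n i)) :
    (Pi.single i (fun _ => u) : H1 A n) i m = u := by
  rw [Pi.single_eq_same]

omit [Fintype I] in
lemma mor_comp {f : H1 A n → H1 A n} (hf : IsEndo A n f) (i j : I) (m : Fin (n j)) :
    (A i).IsMor (A j) (fun u => f (Pi.single i (fun _ => u)) j m) := by
  have hadd : ∀ u v : (A i).H1, (Pi.single i (fun _ => u + v) : H1 A n) =
      Pi.single i (fun _ => u) + Pi.single i (fun _ => v) := by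
    intro u v
    rw [← Pi.single_add]
    rfl
  have hsm : ∀ (c : ℂ) (u : (A i).H1), (Pi.single i (fun _ => c • u) : H1 A n) =
      c • (Pi.single i (fun _ => u) : H1 A n) := by
    intro c u
    rw [← Pi.single_smul]
    rfl
  refine ⟨⟨fun u v => ?_, fun c u => ?_⟩, fun u hu => ?_, fun u hu => ?_, fun u hu => ?_⟩
  · rw [hadd, hf.linear.map_add]; rfl
  · rw [hsm, hf.linear.map_smul]; rfl
  · apply hf.betti
    intro l m'
    by_cases h : l = i
    · subst h; rw [incl_same]; exact hu
    · rw [incl_apply i l u m' h]; exact isBetti_zero _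
  · apply hf.deRham
    intro l m'
    by_cases h : l = i
    · subst h; rw [incl_same]; exact hu
    · rw [incl_apply i l u m' h]; exact fun _ => isAlgebraic_zero
  · apply hf.hodge
    intro l m'
    by_cases h : l = i
    · subst h; rw [incl_same]; exact hu
    · rw [incl_apply i l u m' h]; exact fun _ => rfl

/-- endomorphisms of a product of pairwise non-isogenous simple factors are componentwise -/
lemma endo_diag (hn : ∀ i, n i = 1)
    (hA : ∀ i j, i ≠ j → ∀ f, (A i).IsMor (A j) f → ∀ v, f v = 0) {f : H1 A n → H1 A n}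
    (hf : IsEndo A n f) : ∃ T : ∀ i, (A i).H1 → (A i).H1, (∀ i, (A i).IsEnd (T i)) ∧
      ∀ v i m, f v i m = T i (v i m) := by
  have hm : ∀ i, 0 < n i := fun i => by rw [hn i]; exact one_pos
  have hsub : ∀ i (m m' : Fin (n i)), m = m' := by
    intro i m m'
    apply Fin.ext
    have h1 := m.2
    have h2 := m'.2
    have h3 := hn i
    omega
  refine ⟨fun i u => f (Pi.single i (fun _ => u)) i ⟨0, hm i⟩,
    fun i => (isEnd_iff _ _).mpr (mor_comp hf i i _), ?_⟩
  intro v i m
  have hv : v = ∑ j, (Pi.single j (v j) : H1 A n) := by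
    funext k
    rw [Finset.sum_apply]
    simp [Finset.sum_pi_single]
  have hfl : f v = ∑ j, f (Pi.single j (v j)) := by
    conv_lhs => rw [hv]
    exact map_sum (hf.linear.mk' f) (fun j => (Pi.single j (v j) : H1 A n)) Finset.univ
  rw [hfl, Finset.sum_apply, Finset.sum_apply, Finset.sum_eq_single i]
  · have h1 : v i = fun _ => v i m := by
      funext m'
      rw [hsub i m' m]
    have h2 : (Pi.single i (v i) : H1 A n) = Pi.single i (fun _ => v i m) := by rw [← h1]
    show f (Pi.single i (v i)) i m = f (Pi.single i (fun _ => v i m)) i ⟨0, hm i⟩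
    rw [h2, hsub i m ⟨0, hm i⟩]
  · intro j _ hji
    have h1 : v j = fun _ => v j ⟨0, hm j⟩ := by
      funext m'
      rw [hsub j m' ⟨0, hm j⟩]
    have h2 : (Pi.single j (v j) : H1 A n) = Pi.single j (fun _ => v j ⟨0, hm j⟩) := by rw [← h1]
    rw [h2]
    exact hA j i hji _ (mor_comp hf j i m) _
  · intro h; exact absurd (Finset.mem_univ _) h

end diag

/-- the exceptional cases -/
lemma exceptional_of_quad {X : AbVar} {I : Type} [Fintype I] {A : I → AbVar} {n : I → ℕ}
    {Φ : X.H1 ≃ₗ[ℂ] H1 A n} (hΦ : IsIsogeny X A n Φ) (hn : ∀ i, n i = 1)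
    (hA : ∀ i j, i ≠ j → ∀ f, (A i).IsMor (A j) f → ∀ v, f v = 0) (i₀ j₀ : I)
    (hI : ∀ l, l = i₀ ∨ l = j₀) (d : ℚ) (hq : ∀ i, (A i).IsQuadEnd d) : X.IsExceptional := by
  classical
  have hd : 0 < d := (hq i₀).1
  choose J hJE hJ2 hall using fun i => (hq i).2
  let E : ∀ i, (A i).H1 → (A i).H1 := fun i v => if i = i₀ then v else 0
  have hE : ∀ i, (A i).IsEnd (E i) := by
    intro i
    by_cases h : i = i₀
    · have : E i = fun v => v := by funext v; simp [E, h]
      rw [this]
      exact (isEnd_iff _ _).mpr (isMor_id _)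
    · have : E i = fun v => 0 := by funext v; simp [E, h]
      rw [this]
      exact ⟨⟨fun _ _ => by simp, fun _ _ => by simp⟩, fun _ _ => isBetti_zero _,
        fun _ _ _ => isAlgebraic_zero, fun _ _ _ => rfl⟩
  let JJ : H1 A n → H1 A n := fun v i m => J i (v i m)
  let EE : H1 A n → H1 A n := fun v i m => E i (v i m)
  have hJJ : IsEndo A n JJ := isEndo_diag hJE
  have hEE : IsEndo A n EE := isEndo_diag hE
  have hEsmul : ∀ i v, E i v = if i = i₀ then v else 0 := fun _ _ => rfl
  refine ⟨d, fun v => Φ.symm (JJ (Φ v)), fun v => Φ.symm (EE (Φ v)), hd, endo_back hΦ hJJ,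
    endo_back hΦ hEE, ?_, ?_, ?_, ?_⟩
  · intro v
    beta_reduce
    rw [Φ.apply_symm_apply]
    have h1 : JJ (JJ (Φ v)) = (-(d : ℂ)) • Φ v := by
      funext i m
      exact hJ2 i _
    rw [h1, map_smul, Φ.symm_apply_apply]
  · intro v
    beta_reduce
    rw [Φ.apply_symm_apply]
    congr 1
    funext i m
    show E i (E i (Φ v i m)) = E i (Φ v i m)
    rw [hEsmul, hEsmul]
    split_ifs <;> rfl
  · intro v
    beta_reduce
    rw [Φ.apply_symm_apply, Φ.apply_symm_apply]
    congr 1
    funext i m
    show E i (J i (Φ v i m)) = J i (E i (Φ v i m))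
    rw [hEsmul, hEsmul]
    split_ifs
    · rfl
    · exact ((hJE i).linear.map_zero).symm
  · intro f hf
    obtain ⟨T, hT, hfT⟩ := endo_diag hn hA (endo_forth hΦ hf)
    obtain ⟨a, b, hab⟩ := hall i₀ (T i₀) (hT i₀)
    obtain ⟨a', b', hab'⟩ := hall j₀ (T j₀) (hT j₀)
    refine ⟨a', b', a - a', b - b', fun v => ?_⟩
    beta_reduce
    apply Φ.injective
    have h1 : Φ (f v) = fun i m => T i (Φ v i m) := by
      funext i m
      have := hfT (Φ v) i m
      rw [Φ.symm_apply_apply] at this
      exact this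
    rw [h1, map_add, map_add, map_add, map_smul, map_smul, map_smul, map_smul, Φ.apply_symm_apply,
      Φ.apply_symm_apply, Φ.apply_symm_apply]
    funext i m
    show T i (Φ v i m) = (a' : ℂ) • Φ v i m + (b' : ℂ) • J i (Φ v i m) +
      ((a - a' : ℚ) : ℂ) • E i (Φ v i m) + ((b - b' : ℚ) : ℂ) • E i (J i (Φ v i m))
    by_cases h : i = i₀
    · subst h
      rw [hEsmul, hEsmul, if_pos rfl, if_pos rfl, hab]
      push_cast
      module
    · have h2 : i = j₀ := (hI i).resolve_left h
      subst h2
      rw [hEsmul, hEsmul, if_neg h, if_neg h, hab', smul_zero, smul_zero, add_zero, add_zero]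

end Pool.Agent.Helper39.AF
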