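import Pool.Agent.Helper39.AF.Intrinsic
import Pool.Agent.Helper39.AF.Split

/-!
The final form of the intrinsic theorem: the Grothendieck classes are the sums of divisorial classes
and of Weil classes which are Grothendieck classes.
-/

namespace Pool.Agent.Helper39.AF

open Module Pool.Agent.GPC Pool.Agent.Helper7 Pool.Agent.Helper71.AF

theorem intrinsic_iff (H : AllFour) (X : AbVar) (hX : X.g ≤ 4)
    (hexc : X.g = 4 → X.IsExceptional →
      ∃ w : X.Class (2 * 2), w ≠ 0 ∧ X.IsWeil 2 w ∧ X.IsGrothendieckClass 2 w)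
    (k : ℕ) (α : X.Class (2 * k)) : X.IsGrothendieckClass k α ↔
      ∃ (m : ℕ) (w : Fin m → X.Class (2 * k)),
        (∀ r, X.IsWeil k (w r) ∧ X.IsGrothendieckClass k (w r)) ∧
        X.IsDivisorialClass k (α - ∑ r, w r) := by
  refine ⟨fun hα => split hα (intrinsic H X hX hexc k α hα), ?_⟩
  rintro ⟨m, w, hw, hδ⟩
  have h1 : α = (α - ∑ r, w r) + ∑ r, w r := by abel
  rw [h1]
  exact (GS X k).add_mem (grothendieck_of_divisorial hδ)
    ((GS X k).sum_mem fun r _ => (hw r).2)

end Pool.Agent.Helper39.AF
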