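import Pool.Agent.Helper39.AF.Mor
import Pool.Agent.Helper39.AF.Defs1

/-!
A Hermitian form on the classes of an abelian variety, for which the pull-back by an endomorphism is
adjoint to the pull-back by its Rosati adjoint.
-/

open scoped ComplexConjugate InnerProductSpace

namespace Pool.Agent.Helper39.AF

open Module Pool.Agent.GPC Pool.Agent.Helper7 Pool.Agent.Helper71.AF

variable (X : AbVar)

lemma hf_add_left (u v w : X.H1) : hf X (u + v) w = hf X u w + hf X v w := by
  unfold hf
  rw [map_add, Pool.Agent.Helper7.hermForm_add_left]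

lemma hf_rsmul_left (r : ℝ) (u w : X.H1) : hf X (r • u) w = r * hf X u w := by
  unfold hf
  have h1 : X.zz (r • u) = (r : ℂ) • X.zz u := by
    have h2 : r • u = (r : ℂ) • u := by funext j; simp
    rw [h2, map_smul]
  rw [h1, Pool.Agent.Helper7.hermForm_smul_left]

lemma onb_of_core {V : Type} [AddCommGroup V] [Module ℝ V] [FiniteDimensional ℝ V]
    (c : InnerProductSpace.Core ℝ V) : ∃ (n : ℕ) (b : Fin n → V),
      ∀ u, u = ∑ i, c.inner (b i) u • b i := by
  let _ : NormedAddCommGroup V := c.toNormedAddCommGroup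
  let _ : InnerProductSpace ℝ V := InnerProductSpace.ofCore c.toCore
  let b := stdOrthonormalBasis ℝ V
  exact ⟨_, fun i => b i, fun u => (b.sum_repr' u).symm⟩

/-- the inner product on the real structure -/
@[reducible] noncomputable def coreVR : InnerProductSpace.Core ℝ (VR X) where
  inner u v := (hf X u v).re
  conj_inner_symm u v := by
    change conj (hf X v u).re = (hf X u v).re
    rw [hf_symm X (u : X.H1) v]
    simp
  re_inner_nonneg u := by
    change 0 ≤ (hf X u u).re
    exact hf_nonneg X u.2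
  add_left u v w := by
    change (hf X ((u : X.H1) + v) w).re = (hf X u w).re + (hf X v w).re
    rw [hf_add_left, Complex.add_re]
  smul_left u v r := by
    change (hf X (r • (u : X.H1)) v).re = r * (hf X u v).re
    rw [hf_rsmul_left, Complex.re_ofReal_mul]
  definite u h := by
    by_contra hu
    have h1 : (u : X.H1) ≠ 0 := fun h => hu (Subtype.ext h)
    exact (hf_pos X u.2 h1).ne' h

lemma exists_onb : ∃ (n : ℕ) (e : Fin n → X.H1), (∀ i, e i ∈ VR X) ∧
    ∀ u ∈ VR X, u = ∑ i, (((hf X (e i) u).re : ℝ) : ℂ) • e i := by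
  have : FiniteDimensional ℝ (VR X) := FiniteDimensional.finiteDimensional_submodule _
  obtain ⟨n, b, hb⟩ := onb_of_core (coreVR X)
  refine ⟨n, fun i => (b i : X.H1), fun i => (b i).2, fun u hu => ?_⟩
  have h1 := hb ⟨u, hu⟩
  have h2 := congrArg (fun w : VR X => (w : X.H1)) h1
  simp only [Submodule.coe_sum, Submodule.coe_smul] at h2
  conv_lhs => rw [h2]
  refine Finset.sum_congr rfl fun i _ => ?_
  have h3 : ∀ (r : ℝ) (w : X.H1), r • w = (r : ℂ) • w := fun r w => by funext j; simp
  rw [h3]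
  rfl

/-- the number of basis vectors -/
noncomputable def nb : ℕ := (exists_onb X).choose

/-- the basis -/
noncomputable def eb : Fin (nb X) → X.H1 := (exists_onb X).choose_spec.choose

lemma eb_mem (i : Fin (nb X)) : eb X i ∈ VR X := (exists_onb X).choose_spec.choose_spec.1 i

lemma eb_expand {u : X.H1} (hu : u ∈ VR X) : u = ∑ i, (((hf X (eb X i) u).re : ℝ) : ℂ) • eb X i :=
  (exists_onb X).choose_spec.choose_spec.2 u hu

lemma eb_span (u : X.H1) : ∃ c : Fin (nb X) → ℂ, u = ∑ i, c i • eb X i := by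
  obtain ⟨a, ha, b, hb, rfl⟩ := Pool.Agent.Helper71.AF.exists_decomp X u
  refine ⟨fun i => (((hf X (eb X i) a).re : ℝ) : ℂ) + Complex.I * (((hf X (eb X i) b).re : ℝ) : ℂ), ?_⟩
  conv_lhs => rw [eb_expand X ha, eb_expand X hb]
  rw [Finset.smul_sum, ← Finset.sum_add_distrib]
  refine Finset.sum_congr rfl fun i _ => ?_
  rw [add_smul, mul_smul]

variable {m : ℕ}

lemma class_expand (α : X.Class m) (c : Fin m → Fin (nb X) → ℂ) :
    α (fun r => ∑ i, c r i • eb X i) =
      ∑ v : Fin m → Fin (nb X), (∏ r, c r (v r)) * α (fun r => eb X (v r)) := by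
  have h1 := (α : MultilinearMap ℂ (fun _ : Fin m => X.H1) ℂ).map_sum
    (fun r i => c r i • eb X i)
  change α (fun r => ∑ i, c r i • eb X i) = _ at h1
  rw [h1]
  refine Finset.sum_congr rfl fun v _ => ?_
  have h2 := (α : MultilinearMap ℂ (fun _ : Fin m => X.H1) ℂ).map_smul_univ
    (fun r => c r (v r)) (fun r => eb X (v r))
  rw [h2]
  rfl

/-- coordinates of a class -/
noncomputable def io : X.Class m →ₗ[ℂ] EuclideanSpace ℂ (Fin m → Fin (nb X)) where
  toFun α := WithLp.toLp 2 (fun v => α (fun r => eb X (v r)))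
  map_add' _ _ := rfl
  map_smul' _ _ := rfl

lemma io_apply (α : X.Class m) (v : Fin m → Fin (nb X)) :
    io X α v = α (fun r => eb X (v r)) := rfl

lemma io_injective (α : X.Class m) (h : io X α = 0) : α = 0 := by
  ext u
  choose c hc using fun r => eb_span X (u r)
  have h1 : u = fun r => ∑ i, c r i • eb X i := funext hc
  rw [h1, class_expand]
  refine Finset.sum_eq_zero fun v _ => ?_
  have h2 : io X α v = 0 := by rw [h]; rfl
  rw [io_apply] at h2
  rw [h2, mul_zero]

lemma inner_io (α β : X.Class m) : ⟪io X α, io X β⟫_ℂ =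
    ∑ v : Fin m → Fin (nb X), conj (α (fun r => eb X (v r))) * β (fun r => eb X (v r)) := by
  rw [PiLp.inner_apply]
  refine Finset.sum_congr rfl fun v _ => ?_
  rw [io_apply, io_apply, RCLike.inner_apply, mul_comm]

lemma mat_adj (f f' : X.H1 →ₗ[ℂ] X.H1) (h1 : X.IsEnd f) (h2 : X.IsEnd f')
    (h : ∀ u v, X.pol (f u) v = X.pol u (f' v)) (i j : Fin (nb X)) :
    (hf X (eb X i) (f (eb X j))).re = (hf X (eb X j) (f' (eb X i))).re := by
  have h3 := hf_adj X f f' h1 h2 h (eb_mem X j) (eb_mem X i)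
  rw [← h3, hf_symm X (f (eb X j)) (eb X i)]
  simp

/-- the pull-back -/
noncomputable def pull (f : X.H1 →ₗ[ℂ] X.H1) : X.Class m →ₗ[ℂ] X.Class m where
  toFun α := α.compLinearMap f
  map_add' _ _ := rfl
  map_smul' _ _ := rfl

lemma pull_apply (f : X.H1 →ₗ[ℂ] X.H1) (α : X.Class m) (v : Fin m → X.H1) :
    pull X f α v = α (fun r => f (v r)) := rfl

lemma inner_pull (f f' : X.H1 →ₗ[ℂ] X.H1) (h1 : X.IsEnd f) (h2 : X.IsEnd f')
    (h : ∀ u v, X.pol (f u) v = X.pol u (f' v)) (α β : X.Class m) :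
    ⟪io X (pull X f α), io X β⟫_ℂ = ⟪io X α, io X (pull X f' β)⟫_ℂ := by
  rw [inner_io, inner_io]
  have e1 : ∀ v : Fin m → Fin (nb X), pull X f α (fun r => eb X (v r)) =
      ∑ u : Fin m → Fin (nb X), (∏ r, (((hf X (eb X (u r)) (f (eb X (v r)))).re : ℝ) : ℂ)) *
        α (fun r => eb X (u r)) := by
    intro v
    rw [pull_apply]
    have h3 : (fun r => f (eb X (v r))) =
        fun r => ∑ i, (((hf X (eb X i) (f (eb X (v r)))).re : ℝ) : ℂ) • eb X i := by
      funext r
      exact eb_expand X (VR_map X f h1.betti (eb_mem X (v r)))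
    rw [h3]
    exact class_expand X α (fun r i => (((hf X (eb X i) (f (eb X (v r)))).re : ℝ) : ℂ))
  have e2 : ∀ v : Fin m → Fin (nb X), pull X f' β (fun r => eb X (v r)) =
      ∑ u : Fin m → Fin (nb X), (∏ r, (((hf X (eb X (v r)) (f (eb X (u r)))).re : ℝ) : ℂ)) *
        β (fun r => eb X (u r)) := by
    intro v
    rw [pull_apply]
    have h3 : (fun r => f' (eb X (v r))) =
        fun r => ∑ i, (((hf X (eb X (v r)) (f (eb X i))).re : ℝ) : ℂ) • eb X i := by
      funext r
      have h4 := eb_expand X (VR_map X f' h2.betti (eb_mem X (v r)))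
      conv_lhs => rw [h4]
      refine Finset.sum_congr rfl fun i _ => ?_
      rw [mat_adj X f f' h1 h2 h]
    rw [h3]
    exact class_expand X β (fun r i => (((hf X (eb X (v r)) (f (eb X i))).re : ℝ) : ℂ))
  simp only [e1, e2, map_sum, map_mul, map_prod, Complex.conj_ofReal, Finset.sum_mul,
    Finset.mul_sum]
  rw [Finset.sum_comm]
  refine Finset.sum_congr rfl fun u _ => Finset.sum_congr rfl fun v _ => ?_
  ring

end Pool.Agent.Helper39.AF
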