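import Pool.Agent.Helper71.AF.Cases

/-!
Poincaré reducibility: an abelian variety which is not simple has a non-trivial symmetric idempotent
endomorphism.
-/

open scoped ComplexConjugate

namespace Pool.Agent.Helper39.AF

open Module Pool.Agent.GPC Pool.Agent.Helper7 Pool.Agent.Helper71.AF

lemma isAdjoint_iff (X : AbVar) (f f' : X.H1 → X.H1) :
    X.IsAdjoint f f' ↔ ∀ u v, (pData X).ψ (f u) v = (pData X).ψ u (f' v) := Iff.rfl

/-- **Poincaré reducibility** -/
theorem exists_idem (X : AbVar) (hs : ¬ X.IsSimple) :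
    ∃ e, X.IsEnd e ∧ (∀ v, e (e v) = e v) ∧ X.IsAdjoint e e ∧ (∃ v, e v ≠ 0) ∧ ∃ v, e v ≠ v := by
  classical
  unfold AbVar.IsSimple at hs
  push Not at hs
  obtain ⟨f, hfE, ⟨v₀, hv₀⟩, hninj⟩ := hs
  obtain ⟨st, -, hst⟩ := exists_star X
  let Fl : Module.End ℂ X.H1 := hfE.linear.mk' f
  let F : DD (pData X) := ⟨Fl, isDRB_of_isEnd X Fl hfE⟩
  have hF : ∀ v, (F : Module.End ℂ X.H1) v = f v := fun _ => rfl
  set F' := st F with hF'
  have hadj : ∀ u v, (pData X).ψ (f u) v = (pData X).ψ u ((F' : Module.End ℂ X.H1) v) :=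
    fun u v => hst F u v
  have hadj' : ∀ u v, (pData X).ψ ((F' : Module.End ℂ X.H1) u) v = (pData X).ψ u (f v) := by
    intro u v
    rw [(pData X).hψalt, ← hadj, (pData X).hψalt, neg_neg]
  set S : DD (pData X) := F' * F with hS
  have hSv : ∀ v, (S : Module.End ℂ X.H1) v = (F' : Module.End ℂ X.H1) (f v) := fun _ => rfl
  have hSs : ∀ u v, (pData X).ψ ((S : Module.End ℂ X.H1) u) v =
      (pData X).ψ u ((S : Module.End ℂ X.H1) v) := by
    intro u v
    rw [hSv, hSv, hadj', hadj]
  have hEnd : ∀ g : DD (pData X), X.IsEnd (g : Module.End ℂ X.H1) := fun g =>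
    isEnd_of_isDRB X _ g.2
  -- kernels
  have hk1 : ∀ a ∈ VR X, (S : Module.End ℂ X.H1) a = 0 → f a = 0 := by
    intro a ha h0
    by_contra hne
    have h1 := hf_adj X (F : Module.End ℂ X.H1) (F' : Module.End ℂ X.H1) (hEnd F) (hEnd F')
      (fun u v => hst F u v) (u := a) (v := f a) ha (VR_map X _ (hEnd F).betti ha)
    have h2 : hf X (f a) (f a) = hf X a ((S : Module.End ℂ X.H1) a) := h1
    rw [h0] at h2
    have h3 : hf X a 0 = 0 := by
      have h4 : hf X a 0 = conj (hf X 0 a) := hf_symm X 0 a
      have h5 : hf X 0 a = 0 := by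
        show hermForm X.H (X.zz 0) (X.zz a) = 0
        rw [map_zero]
        simp [hermForm]
      rw [h4, h5, map_zero]
    rw [h3] at h2
    have h6 := hf_pos X (VR_map X (F : Module.End ℂ X.H1) (hEnd F).betti ha) hne
    have h7 : (hf X (f a) (f a)).re = 0 := by rw [h2]; rfl
    exact absurd h7 h6.ne'
  have hk2 : ∀ a ∈ VR X, (S : Module.End ℂ X.H1) ((S : Module.End ℂ X.H1) a) = 0 →
      (S : Module.End ℂ X.H1) a = 0 := by
    intro a ha h0
    by_contra hne
    have h1 := hf_adj X (S : Module.End ℂ X.H1) (S : Module.End ℂ X.H1) (hEnd S) (hEnd S)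
      hSs (u := a) (v := (S : Module.End ℂ X.H1) a) ha (VR_map X _ (hEnd S).betti ha)
    rw [h0] at h1
    have h3 : hf X a 0 = 0 := by
      have h4 : hf X a 0 = conj (hf X 0 a) := hf_symm X 0 a
      have h5 : hf X 0 a = 0 := by
        show hermForm X.H (X.zz 0) (X.zz a) = 0
        rw [map_zero]
        simp [hermForm]
      rw [h4, h5, map_zero]
    rw [h3] at h1
    have h6 := hf_pos X (VR_map X (S : Module.End ℂ X.H1) (hEnd S).betti ha) hne
    have h7 : (hf X ((S : Module.End ℂ X.H1) a) ((S : Module.End ℂ X.H1) a)).re = 0 := by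
      rw [h1]; rfl
    exact absurd h7 h6.ne'
  have hkS : ∀ v, (S : Module.End ℂ X.H1) ((S : Module.End ℂ X.H1) v) = 0 →
      (S : Module.End ℂ X.H1) v = 0 := by
    intro v hv
    obtain ⟨a, ha, b, hb, rfl⟩ := exists_decomp X v
    rw [map_add, map_smul, map_add, map_smul] at hv
    obtain ⟨h1, h2⟩ := VR_disjoint X
      (VR_map X _ (hEnd S).betti (VR_map X _ (hEnd S).betti ha))
      (VR_map X _ (hEnd S).betti (VR_map X _ (hEnd S).betti hb)) hv
    rw [map_add, map_smul, hk2 a ha h1, hk2 b hb h2, smul_zero, add_zero]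
  have hS0 : ∃ v, (S : Module.End ℂ X.H1) v ≠ 0 := by
    by_contra hcon
    push Not at hcon
    obtain ⟨a, ha, b, hb, h1⟩ := exists_decomp X v₀
    apply hv₀
    have h2 : (F : Module.End ℂ X.H1) (a + Complex.I • b) = 0 := by
      rw [map_add, map_smul, hF, hF, hk1 a ha (hcon a), hk1 b hb (hcon b), smul_zero, add_zero]
    rw [h1]
    exact h2
  have hSni : ∃ v, v ≠ 0 ∧ (S : Module.End ℂ X.H1) v = 0 := by
    unfold Function.Injective at hninj
    push Not at hninj
    obtain ⟨u, v, huv, hne⟩ := hninj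
    refine ⟨u - v, sub_ne_zero.mpr hne, ?_⟩
    rw [hSv]
    have h1 : f (u - v) = 0 := by
      have h2 : (F : Module.End ℂ X.H1) (u - v) = f u - f v := map_sub _ _ _
      rw [huv, sub_self] at h2
      exact h2
    rw [h1, map_zero]
  -- minimal polynomial
  have hfin := finite_DD (pData X)
  obtain ⟨p, hpm, hp⟩ := (Algebra.IsIntegral.of_finite ℚ (DD (pData X))).isIntegral S
  have hp0 : p ≠ 0 := hpm.ne_zero
  obtain ⟨r, hr, hndvd⟩ := Polynomial.exists_eq_pow_rootMultiplicity_mul_and_not_dvd p hp0 0
  set k := Polynomial.rootMultiplicity 0 p with hk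
  rw [Polynomial.C_0, sub_zero] at hr hndvd
  have hr0 : r.coeff 0 ≠ 0 := by
    intro h0
    exact hndvd (Polynomial.X_dvd_iff.mpr h0)
  set R : DD (pData X) := Polynomial.aeval S r with hR
  have hSR : ∀ v, (S : Module.End ℂ X.H1) ((R : Module.End ℂ X.H1) v) = 0 := by
    have h1 : S ^ k * R = 0 := by
      have h2 : Polynomial.aeval S p = 0 := by rw [Polynomial.aeval_def]; exact hp
      rw [hr, map_mul, map_pow, Polynomial.aeval_X] at h2
      exact h2
    have h3 : ∀ v, ((S : Module.End ℂ X.H1) ^ k) ((R : Module.End ℂ X.H1) v) = 0 := by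
      intro v
      have h4 := congrArg (fun g : DD (pData X) => (g : Module.End ℂ X.H1) v) h1
      exact h4
    have h5 : ∀ (m : ℕ) (w : X.H1), ((S : Module.End ℂ X.H1) ^ m) w = 0 →
        (S : Module.End ℂ X.H1) w = 0 := by
      intro m
      induction m with
      | zero =>
        intro w hw
        have : w = 0 := by simpa using hw
        rw [this, map_zero]
      | succ m ih =>
        intro w hw
        rw [pow_succ, Module.End.mul_apply] at hw
        exact hkS w (ih _ hw)
    exact fun v => h5 k _ (h3 v)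
  -- the idempotent
  set c := r.coeff 0 with hc
  obtain ⟨h, hh⟩ : ∃ h : Polynomial ℚ, r = Polynomial.C c + Polynomial.X * h :=
    ⟨r.divX, by rw [mul_comm, add_comm]; exact (Polynomial.divX_mul_X_add r).symm⟩
  set Hh : DD (pData X) := Polynomial.aeval S h with hHh
  have hRe : R = algebraMap ℚ _ c + S * Hh := by
    rw [hR, hh, map_add, map_mul, Polynomial.aeval_C, Polynomial.aeval_X]
  set e : DD (pData X) := 1 - (c⁻¹ : ℚ) • R with he
  have hev : ∀ v, (e : Module.End ℂ X.H1) v = v - (c⁻¹ : ℚ) • (R : Module.End ℂ X.H1) v :=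
    fun v => rfl
  have hcomm : ∀ v, (Hh : Module.End ℂ X.H1) ((R : Module.End ℂ X.H1) v) =
      (R : Module.End ℂ X.H1) ((Hh : Module.End ℂ X.H1) v) := by
    intro v
    have h1 : Hh * R = R * Hh := by
      rw [hHh, hR, ← map_mul, ← map_mul]
      exact congrArg _ (mul_comm h r)
    exact congrArg (fun g : DD (pData X) => (g : Module.End ℂ X.H1) v) h1
  have hScomm : ∀ v, (S : Module.End ℂ X.H1) ((R : Module.End ℂ X.H1) v) =
      (R : Module.End ℂ X.H1) ((S : Module.End ℂ X.H1) v) := by
    intro v
    have h1 : S * R = R * S := by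
      rw [hR]
      have h3 : Polynomial.aeval S (Polynomial.X * r) = Polynomial.aeval S (r * Polynomial.X) :=
        congrArg _ (mul_comm _ _)
      rw [map_mul, map_mul, Polynomial.aeval_X] at h3
      exact h3
    exact congrArg (fun g : DD (pData X) => (g : Module.End ℂ X.H1) v) h1
  have hRv : ∀ v, (R : Module.End ℂ X.H1) v = (c : ℚ) • v +
      (S : Module.End ℂ X.H1) ((Hh : Module.End ℂ X.H1) v) := by
    intro v
    have h1 := congrArg (fun g : DD (pData X) => (g : Module.End ℂ X.H1) v) hRe
    exact h1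
  have hRR : ∀ v, (R : Module.End ℂ X.H1) ((R : Module.End ℂ X.H1) v) =
      (c : ℚ) • (R : Module.End ℂ X.H1) v := by
    intro v
    rw [hRv ((R : Module.End ℂ X.H1) v), hcomm, hSR, add_zero]
  have hRsmul : ∀ (q : ℚ) v, (R : Module.End ℂ X.H1) (q • v) = q • (R : Module.End ℂ X.H1) v :=
    fun q v => LinearMap.map_smul_of_tower _ _ _
  refine ⟨(e : Module.End ℂ X.H1), hEnd e, ?_, ?_, ?_, ?_⟩
  · intro v
    rw [hev ((e : Module.End ℂ X.H1) v)]
    have h1 : (R : Module.End ℂ X.H1) ((e : Module.End ℂ X.H1) v) = 0 := by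
      rw [hev, map_sub, hRsmul, hRR, smul_smul, inv_mul_cancel₀ hr0, one_smul, sub_self]
    rw [h1, smul_zero, sub_zero]
  · have hsymR : ∀ (q : Polynomial ℚ) u v,
        (pData X).ψ (((Polynomial.aeval S q : DD (pData X)) : Module.End ℂ X.H1) u) v =
        (pData X).ψ u (((Polynomial.aeval S q : DD (pData X)) : Module.End ℂ X.H1) v) := by
      intro q
      induction q using Polynomial.induction_on' with
      | add p q hp hq =>
        intro u v
        rw [map_add]
        show (pData X).ψ ((((Polynomial.aeval S p : DD (pData X)) : Module.End ℂ X.H1) u) +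
          (((Polynomial.aeval S q : DD (pData X)) : Module.End ℂ X.H1) u)) v =
          (pData X).ψ u ((((Polynomial.aeval S p : DD (pData X)) : Module.End ℂ X.H1) v) +
          (((Polynomial.aeval S q : DD (pData X)) : Module.End ℂ X.H1) v))
        rw [map_add, LinearMap.add_apply, map_add, hp, hq]
      | monomial m a =>
        intro u v
        rw [Polynomial.aeval_monomial]
        have h1 : ∀ w : X.H1, (((algebraMap ℚ (DD (pData X)) a * S ^ m : DD (pData X)) :
            Module.End ℂ X.H1) w) = (a : ℂ) • (((S : Module.End ℂ X.H1) ^ m) w) := by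
          intro w
          show a • ((((S ^ m : DD (pData X)) : Module.End ℂ X.H1)) w) = _
          rw [SubmonoidClass.coe_pow]
          funext j
          rw [Pi.smul_apply, Pi.smul_apply, Algebra.smul_def, smul_eq_mul, eq_ratCast]
        rw [h1, h1, map_smul, LinearMap.smul_apply, map_smul]
        congr 1
        clear h1
        induction m generalizing u v with
        | zero => rfl
        | succ m ih =>
          rw [pow_succ, Module.End.mul_apply, Module.End.mul_apply, ih, hSs]
          congr 1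
          have : ((S : Module.End ℂ X.H1) * (S : Module.End ℂ X.H1) ^ m) v =
              ((S : Module.End ℂ X.H1) ^ m * (S : Module.End ℂ X.H1)) v := by
            rw [← pow_succ', pow_succ]
          exact this
    intro u v
    show (pData X).ψ ((e : Module.End ℂ X.H1) u) v = (pData X).ψ u ((e : Module.End ℂ X.H1) v)
    have hq : ∀ (q : ℚ) (w : X.H1), q • w = (q : ℂ) • w := by
      intro q w
      funext j
      rw [Pi.smul_apply, Pi.smul_apply, Algebra.smul_def, smul_eq_mul, eq_ratCast]
    rw [hev, hev, map_sub, LinearMap.sub_apply, map_sub, hq, hq, map_smul, LinearMap.smul_apply,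
      map_smul, hR, hsymR r u v]
  · by_contra hcon
    push Not at hcon
    obtain ⟨v, hv⟩ := hS0
    apply hv
    have h1 := hcon v
    rw [hev, sub_eq_zero] at h1
    have h2 := congrArg (S : Module.End ℂ X.H1) h1
    rw [LinearMap.map_smul_of_tower, hSR, smul_zero] at h2
    exact h2
  · by_contra hcon
    push Not at hcon
    obtain ⟨v, hv, hv0⟩ := hSni
    have h1 := hcon v
    rw [hev] at h1
    have h2 : (c⁻¹ : ℚ) • (R : Module.End ℂ X.H1) v = 0 := by
      have := sub_eq_self.mp h1
      exact this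
    have h3 : (R : Module.End ℂ X.H1) v = 0 := by
      rcases smul_eq_zero.mp h2 with h | h
      · exact absurd h (inv_ne_zero hr0)
      · exact h
    rw [hRv] at h3
    have h4 : (S : Module.End ℂ X.H1) ((Hh : Module.End ℂ X.H1) v) = 0 := by
      have h5 : S * Hh = Hh * S := by
        have h3 : Polynomial.aeval S (Polynomial.X * h) = Polynomial.aeval S (h * Polynomial.X) :=
          congrArg _ (mul_comm _ _)
        rw [map_mul, map_mul, Polynomial.aeval_X] at h3
        exact h3
      have h6 := congrArg (fun g : DD (pData X) => (g : Module.End ℂ X.H1) v) h5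
      have h7 : (S : Module.End ℂ X.H1) ((Hh : Module.End ℂ X.H1) v) =
        (Hh : Module.End ℂ X.H1) ((S : Module.End ℂ X.H1) v) := h6
      rw [h7, hv0, map_zero]
    rw [h4, add_zero] at h3
    rcases smul_eq_zero.mp h3 with h | h
    · exact hr0 h
    · exact hv h

end Pool.Agent.Helper39.AF
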