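import Pool.Agent.Helper39.AF.Exc

/-!
The intrinsic theorem on abelian varieties of dimension at most four, from the theorem on products.
-/

open scoped ComplexConjugate

namespace Pool.Agent.Helper39.AF

open Module Pool.Agent.GPC Pool.Agent.Helper7 Pool.Agent.Helper71.AF

/-- the statement of the theorem on products -/
def AllFour : Prop := ∀ (I : Type) [Fintype I] (A : I → AbVar) (n : I → ℕ),
  (∀ i, (A i).g ≠ 0) → (∀ i, (A i).IsSimple) →
  (∀ i j, i ≠ j → ∀ f, (A i).IsMor (A j) f → ∀ v, f v = 0) → (∀ i, n i ≠ 0) →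
  (∑ i, n i * (A i).g ≤ 4) →
  (∀ i d, (A i).g = 4 → (A i).IsQuadEnd d →
    ∃ w : Form A n (2 * 2), w ≠ 0 ∧ IsWeilClass A n 2 w ∧ IsGrothendieck A n 2 w) →
  (∀ i j d, (A i).g = 3 → (A j).g = 1 → (A i).IsQuadEnd d → (A j).IsQuadEnd d →
    ∃ w : Form A n (2 * 2), w ≠ 0 ∧ IsWeilClass A n 2 w ∧ IsGrothendieck A n 2 w) →
  ∀ (k : ℕ) (α : Form A n (2 * k)), IsGrothendieck A n k α → IsDivisorialWeil A n k α

/-- in the exceptional cases the endomorphism algebra is commutative -/
lemma comm_of_exceptional {X : AbVar} (h : X.IsExceptional) (f g : X.H1 → X.H1) (hf : X.IsEnd f)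
    (hg : X.IsEnd g) (v : X.H1) : f (g v) = g (f v) := by
  obtain ⟨d, J, e, -, hJ, he, hJ2, he2, heJ, hall⟩ := h
  have hJf : ∀ f, X.IsEnd f → ∀ v, f (J v) = J (f v) := by
    intro f hf v
    obtain ⟨a, b, a', b', hab⟩ := hall f hf
    rw [hab, hab, hJ.linear.map_add, hJ.linear.map_add, hJ.linear.map_add, hJ.linear.map_smul,
      hJ.linear.map_smul, hJ.linear.map_smul, hJ.linear.map_smul, heJ, heJ, heJ]
  have hef : ∀ f, X.IsEnd f → ∀ v, f (e v) = e (f v) := by
    intro f hf v
    obtain ⟨a, b, a', b', hab⟩ := hall f hf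
    rw [hab, hab, he.linear.map_add, he.linear.map_add, he.linear.map_add, he.linear.map_smul,
      he.linear.map_smul, he.linear.map_smul, he.linear.map_smul, ← heJ v, he2, he2 (J v)]
  obtain ⟨a, b, a', b', hab⟩ := hall g hg
  rw [hab v, hf.linear.map_add, hf.linear.map_add, hf.linear.map_add, hf.linear.map_smul,
    hf.linear.map_smul, hf.linear.map_smul, hf.linear.map_smul, hef f hf (J v), hJf f hf,
    hef f hf v, hab (f v)]

section numbers

variable {I : Type} [Fintype I] {g n : I → ℕ}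

lemma numbers_four (hg : ∀ i, g i ≠ 0) (hn : ∀ i, n i ≠ 0) (hd : ∑ i, n i * g i ≤ 4) (i : I)
    (hi : g i = 4) : (∀ l, l = i) ∧ ∀ l, n l = 1 := by
  classical
  have hpos : ∀ l, 1 ≤ n l * g l := fun l =>
    Nat.one_le_iff_ne_zero.mpr (mul_ne_zero (hn l) (hg l))
  have h1 : ∀ l, l = i := by
    intro l
    by_contra hl
    have h2 : ∑ x ∈ ({i, l} : Finset I), n x * g x ≤ ∑ x, n x * g x :=
      Finset.sum_le_sum_of_subset (Finset.subset_univ _)
    rw [Finset.sum_pair (Ne.symm hl), hi] at h2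
    have h3 := hpos l
    have h4 : 1 ≤ n i := Nat.one_le_iff_ne_zero.mpr (hn i)
    omega
  refine ⟨h1, fun l => ?_⟩
  rw [h1 l]
  have h2 : n i * g i ≤ ∑ x, n x * g x :=
    Finset.single_le_sum (f := fun x => n x * g x) (fun _ _ => Nat.zero_le _) (Finset.mem_univ i)
  rw [hi] at h2
  have h4 := hn i
  omega

lemma numbers_three_one (hg : ∀ i, g i ≠ 0) (hn : ∀ i, n i ≠ 0) (hd : ∑ i, n i * g i ≤ 4) (i j : I)
    (hi : g i = 3) (hj : g j = 1) : (∀ l, l = i ∨ l = j) ∧ (∀ l, n l = 1) ∧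
      ∑ l, n l * g l = 4 := by
  classical
  have hij : i ≠ j := by
    intro h
    rw [h, hj] at hi
    omega
  have hpos : ∀ l, 1 ≤ n l * g l := fun l =>
    Nat.one_le_iff_ne_zero.mpr (mul_ne_zero (hn l) (hg l))
  have h0 : ∑ x ∈ ({i, j} : Finset I), n x * g x ≤ ∑ x, n x * g x :=
    Finset.sum_le_sum_of_subset (Finset.subset_univ _)
  rw [Finset.sum_pair hij, hi, hj] at h0
  have hni : n i = 1 := by
    have h4 := hn i
    have h5 := hn j
    omega
  have hnj : n j = 1 := by
    have h4 := hn i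
    have h5 := hn j
    omega
  have h1 : ∀ l, l = i ∨ l = j := by
    intro l
    by_contra hl
    push Not at hl
    have h2 : ∑ x ∈ ({i, j, l} : Finset I), n x * g x ≤ ∑ x, n x * g x :=
      Finset.sum_le_sum_of_subset (Finset.subset_univ _)
    rw [Finset.sum_insert (by simp [hij, Ne.symm hl.1]), Finset.sum_pair (Ne.symm hl.2), hi, hj] at h2
    have h3 := hpos l
    omega
  refine ⟨h1, fun l => ?_, ?_⟩
  · rcases h1 l with h | h
    · rw [h]; exact hni
    · rw [h]; exact hnj
  · rw [hni, hnj] at h0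
    omega

end numbers

/-- common part -/
lemma of_isogeny (H : AllFour) {X : AbVar} {I : Type} [Fintype I] {A : I → AbVar} {n : I → ℕ}
    {Φ : X.H1 ≃ₗ[ℂ] H1 A n} (hΦ : IsIsogeny X A n Φ) (hg : ∀ i, (A i).g ≠ 0)
    (hs : ∀ i, (A i).IsSimple)
    (hA : ∀ i j, i ≠ j → ∀ f, (A i).IsMor (A j) f → ∀ v, f v = 0) (hn : ∀ i, n i ≠ 0)
    {ι : ∀ i, (A i).H1 → X.H1} (hι : ∀ i, (A i).IsMor X (ι i) ∧
      ∀ u v, X.pol (ι i u) (ι i v) = (A i).pol u v)
    (hc : ∀ d J, IsWeilStructure A n d J → ∀ s, X.IsEnd s → X.IsAdjoint s s →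
      ∀ v, J (Φ (s (Φ.symm v))) = Φ (s (Φ.symm (J v))))
    (hX : X.g ≤ 4)
    (hexc : X.g = 4 → X.IsExceptional →
      ∃ w : X.Class (2 * 2), w ≠ 0 ∧ X.IsWeil 2 w ∧ X.IsGrothendieckClass 2 w)
    (k : ℕ) (α : X.Class (2 * k)) (hα : X.IsGrothendieckClass k α) :
    X.IsDivisorialPlusWeil k α := by
  have hgs := g_eq_of_isogeny Φ
  have hd : ∑ i, n i * (A i).g ≤ 4 := by rw [hgs]; exact hX
  have key : X.g = 4 → X.IsExceptional →
      ∃ w : Form A n (2 * 2), w ≠ 0 ∧ IsWeilClass A n 2 w ∧ IsGrothendieck A n 2 w := by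
    intro h4 hex
    obtain ⟨w, hw0, hw, hwG⟩ := hexc h4 hex
    refine ⟨w.compLinearMap Φ.symm.toLinearMap, ?_,
      weil_forth hΦ (fun f g hf hg v => comm_of_exceptional hex f g hf hg v) w hw,
      grothendieck_transfer hΦ w hwG⟩
    intro h0
    apply hw0
    ext v
    have h1 := congrArg (fun β : Form A n (2 * 2) => β (fun t => Φ (v t))) h0
    have h2 : w (fun t => Φ.symm (Φ (v t))) = 0 := h1
    have h3 : (fun t => Φ.symm (Φ (v t))) = v := by
      funext t; exact Φ.symm_apply_apply _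
    rw [h3] at h2
    exact h2
  have h := H I A n hg hs hA hn hd ?_ ?_ k _ (grothendieck_transfer hΦ α hα)
  · exact divisorialPlusWeil_of hΦ hc hι α h
  · intro i d h4 hq
    obtain ⟨h1, h2⟩ := numbers_four hg hn hd i h4
    refine key ?_ (exceptional_of_quad hΦ h2 hA i i (fun l => Or.inl (h1 l)) d fun l => ?_)
    · have h3 : n i * (A i).g ≤ ∑ x, n x * (A x).g :=
        Finset.single_le_sum (f := fun x => n x * (A x).g) (fun _ _ => Nat.zero_le _)
          (Finset.mem_univ i)
      have h5 : n i * (A i).g = 4 := by rw [h2 i, h4]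
      rw [h5, hgs] at h3
      exact le_antisymm hX h3
    · rw [h1 l]; exact hq
  · intro i j d h3 h1 hqi hqj
    obtain ⟨h4, h5, h6⟩ := numbers_three_one hg hn hd i j h3 h1
    refine key (by rw [← hgs]; exact h6) (exceptional_of_quad hΦ h5 hA i j h4 d fun l => ?_)
    rcases h4 l with h | h
    · rw [h]; exact hqi
    · rw [h]; exact hqj

/-- **The intrinsic theorem** -/
theorem intrinsic (H : AllFour) (X : AbVar) (hX : X.g ≤ 4)
    (hexc : X.g = 4 → X.IsExceptional →
      ∃ w : X.Class (2 * 2), w ≠ 0 ∧ X.IsWeil 2 w ∧ X.IsGrothendieckClass 2 w)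
    (k : ℕ) (α : X.Class (2 * k)) (hα : X.IsGrothendieckClass k α) :
    X.IsDivisorialPlusWeil k α := by
  classical
  by_cases hXs : X.IsSimple ∧ X.g ≠ 0
  · obtain ⟨hs, hg0⟩ := hXs
    let A : Unit → AbVar := fun _ => X
    let n : Unit → ℕ := fun _ => 1
    let Φ : X.H1 ≃ₗ[ℂ] H1 A n :=
      { toFun := fun v _ _ => v
        invFun := fun y => y () 0
        map_add' := fun _ _ => rfl
        map_smul' := fun _ _ => rfl
        left_inv := fun _ => rfl
        right_inv := fun y => by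
          funext i m
          exact congrArg (y i) (Subsingleton.elim (α := Fin 1) 0 m) }
    have hΦ : IsIsogeny X A n Φ :=
      ⟨fun v => ⟨fun h _ _ => h, fun h => h () 0⟩, fun v => ⟨fun h _ _ => h, fun h => h () 0⟩,
        fun v => ⟨fun h _ _ => h, fun h => h () 0⟩⟩
    refine of_isogeny H hΦ (fun _ => hg0) (fun _ => hs)
      (fun i j hij => absurd (Subsingleton.elim i j) hij) (fun _ => one_ne_zero)
      (ι := fun _ v => v) (fun _ => ⟨isMor_id X, fun _ _ => rfl⟩) ?_ hX hexc k α hα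
    rintro d J ⟨-, hJE, -, -, hJ | ⟨i, -, -, hJ⟩⟩ s hsE hsym v
    · exact hJ _ (endo_forth hΦ hsE) v
    · obtain ⟨q, hq⟩ := hJ s hsE hsym
      have h1 : ∀ v : H1 A n, Φ (s (Φ.symm v)) = (q : ℂ) • v := by
        intro v
        rw [hq, map_smul, Φ.apply_symm_apply]
      rw [h1, h1, hJE.linear.map_smul]
  · obtain ⟨I, _, A, n, Φ, ι, hΦ, hg, hs, hA, hn, -, hι⟩ := exists_decomp X
    refine of_isogeny H hΦ hg hs hA hn hι ?_ hX hexc k α hα
    rintro d J ⟨-, hJE, -, -, hJ | ⟨i, hi, hni, -⟩⟩ s hsE hsym v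
    · exact hJ _ (endo_forth hΦ hsE) v
    · exfalso
      apply hXs
      have hn1 : ∀ l, n l = 1 := fun l => by rw [hi l]; exact hni
      refine ⟨?_, ?_⟩
      · intro f hf hf0
        obtain ⟨T, hT, hfT⟩ := endo_diag hn1 hA (endo_forth hΦ hf)
        obtain ⟨x, hx⟩ := hf0
        have hTinj : Function.Injective (T i) := by
          apply hs i _ (hT i)
          by_contra hcon
          push Not at hcon
          apply hx
          apply Φ.injective
          rw [map_zero]
          funext l m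
          have h1 := hfT (Φ x) l m
          rw [Φ.symm_apply_apply] at h1
          rw [h1]
          have hl := hi l
          subst hl
          exact hcon _
        intro u u' huu
        apply Φ.injective
        funext l m
        have hl := hi l
        subst hl
        apply hTinj
        have h1 := hfT (Φ u) l m
        have h2 := hfT (Φ u') l m
        rw [Φ.symm_apply_apply] at h1 h2
        rw [← h1, ← h2, huu]
      · intro h0
        have hgs := g_eq_of_isogeny Φ
        rw [h0] at hgs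
        have h3 : n i * (A i).g ≤ ∑ x, n x * (A x).g :=
          Finset.single_le_sum (f := fun x => n x * (A x).g) (fun _ _ => Nat.zero_le _)
            (Finset.mem_univ i)
        rw [hgs, hni, one_mul] at h3
        exact hg i (Nat.le_zero.mp h3)

end Pool.Agent.Helper39.AF
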