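import Mathlib

/-!
Pairs of analytic germs whose Taylor coefficients are related by a derivation of the complex
numbers.
-/

namespace Pool.Agent.Helper39.AF

open Filter Topology

/-- `m`-th derivative of `f` at `0` along the line through `v` -/
noncomputable def T {E : Type*} [SMul ℂ E] (m : ℕ) (f : E → ℂ) (v : E) : ℂ :=
  iteratedDeriv m (fun s : ℂ => f (s • v)) 0

/-- `f'` is the germ at `0` obtained from `f` by applying the derivation `δ` to the Taylor
coefficients: for all `v` with algebraic coordinates `δ (T m f v) = T m f' v`. -/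
structure IsPair {ι : Type} [Fintype ι] (δ : Derivation ℚ ℂ ℂ) (f f' : (ι → ℂ) → ℂ) : Prop where
  an : AnalyticAt ℂ f 0
  an' : AnalyticAt ℂ f' 0
  eq : ∀ (m : ℕ) (v : ι → ℂ), (∀ a, IsAlgebraic ℚ (v a)) → δ (T m f v) = T m f' v

end Pool.Agent.Helper39.AF
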