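import Pool.Agent.Helper8.AVBasic
import Pool.Agent.Helper8.SVDir
import Pool.Agent.Helper8.SLAnalytic

/-!
Siegel: `g+1` quotients of entire functions on `ℂ^g` with the same factor of automorphy (with a
common denominator) are algebraically dependent.
-/

open Filter Topology MvPolynomial

namespace Pool.Agent.Helper39.AF

open Pool.Agent.GPC Pool.Agent.Helper8

/-- Schwarz lemma for an entire function of one variable which vanishes to order `H` at `0`. -/
lemma schwarz_one {f : ℂ → ℂ} (hf : Differentiable ℂ f) {H : ℕ}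
    (h0 : ∀ i < H, iteratedDeriv i f 0 = 0) {ρ B : ℝ} (hρ : 1 ≤ ρ)
    (hB : ∀ z, ‖z‖ = ρ → ‖f z‖ ≤ B) : ‖f 1‖ * ρ ^ H ≤ B := by
  have hρ0 : 0 < ρ := by linarith
  obtain ⟨k, hk, hfk⟩ := factor_one hf 0 H
    ((natCast_le_analyticOrderAt_iff_iteratedDeriv_eq_zero (hf.analyticAt 0)).mpr h0)
  have h1 : ‖k 1‖ ≤ B / ρ ^ H := by
    apply Complex.norm_le_of_forall_mem_frontier_norm_le (U := Metric.ball (0 : ℂ) ρ)
      Metric.isBounded_ball (hk.diffContOnCl)
    · intro z hz
      rw [frontier_ball _ hρ0.ne'] at hz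
      have hz' : ‖z‖ = ρ := by simpa using hz
      rw [le_div_iff₀ (by positivity)]
      have h2 := hB z hz'
      rw [hfk z, sub_zero, norm_mul, norm_pow, hz'] at h2
      linarith
    · rw [closure_ball _ hρ0.ne']
      simpa using hρ
  have h2 : f 1 = k 1 := by rw [hfk 1]; simp
  rw [h2]
  rwa [le_div_iff₀ (by positivity)] at h1

section words

variable {g : ℕ}

/-- the word attached to a multi-index -/
noncomputable def word {H : ℕ} (μ : Fin g → Fin H) : List (Fin g) :=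
  (∑ a, Multiset.replicate (μ a : ℕ) a).toList

lemma count_word {H : ℕ} (μ : Fin g → Fin H) (b : Fin g) : (word μ).count b = (μ b : ℕ) := by
  classical
  unfold word
  rw [← Multiset.coe_count, Multiset.coe_toList, Multiset.count_sum']
  simp [Multiset.count_replicate]

lemma exists_word {H : ℕ} (w : List (Fin g)) (hw : w.length < H) :
    ∃ μ : Fin g → Fin H, w.Perm (word μ) := by
  classical
  refine ⟨fun a => ⟨w.count a, lt_of_le_of_lt List.count_le_length hw⟩, ?_⟩
  rw [List.perm_iff_count]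
  intro a
  rw [count_word]

/-- the unit vectors -/
noncomputable def ev (a : Fin g) : Fin g → ℂ := Pi.single a 1

lemma eq_sum_ev (v : Fin g → ℂ) : v = ∑ a, v a • ev a := by
  funext j
  simp [ev, Finset.sum_apply, Pi.single_apply]

/-- vanishing of the derivatives along the words implies vanishing of all derivatives of order less
than `H` along all lines. -/
lemma line_eq_zero {f : (Fin g → ℂ) → ℂ} (hf : ∀ z, AnalyticAt ℂ f z) {H : ℕ}
    (h : ∀ μ : Fin g → Fin H, dds ((word μ).map ev) f 0 = 0) (v : Fin g → ℂ) (i : ℕ) (hi : i < H) :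
    iteratedDeriv i (fun s : ℂ => f (s • v)) 0 = 0 := by
  have h1 : ∀ w : List (Fin g), w.length = i → ‖dds (w.map ev) f 0‖ ≤ 0 := by
    intro w hw
    obtain ⟨μ, hμ⟩ := exists_word (H := H) w (by omega)
    rw [dds_perm (hμ.map ev) (hf 0), h μ, norm_zero]
  have h2 := norm_dds_le (hf 0) ev (X := 0) (μ := ∑ a, ‖v a‖) (t := i) le_rfl h1
    (Finset.sum_nonneg fun _ _ => norm_nonneg _) (List.replicate i v) [] (by simp) (by
      intro u hu
      rw [List.eq_of_mem_replicate hu]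
      exact ⟨v, eq_sum_ev v, le_rfl⟩)
  have h3 := congrFun (iteratedDeriv_line hf 0 v i) 0
  simp only [zero_add, zero_smul] at h3
  rw [h3]
  simpa using h2

end words

/-- an entire function on `ℂ^g` with factor of automorphy `j^n`, which vanishes to high order at `0`
is zero. -/
lemma eq_zero_of_vanish (A : AbVar) {C : ℝ} (hC : 0 ≤ C) : ∃ K : ℝ, 0 ≤ K ∧
    ∀ (n H : ℕ) (f : (Fin A.g → ℂ) → ℂ), (∀ z, AnalyticAt ℂ f z) →
      (∀ l ∈ A.Λ, ∀ z, ‖f (z + l)‖ ≤ Real.exp (n * (C * (1 + ‖l‖) * (1 + ‖z‖ + ‖l‖))) * ‖f z‖) →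
      (∀ μ : Fin A.g → Fin H, dds ((word μ).map ev) f 0 = 0) → n * K < H → ∀ z, f z = 0 := by
  obtain ⟨R, hR0, hR⟩ := A.exists_lattice_near
  set r : ℝ := R + 1 with hr
  have hr0 : 0 < r := by linarith
  set ρ : ℝ := Real.exp 1 with hρ
  have hρ1 : 1 ≤ ρ := Real.one_le_exp (by norm_num)
  set K : ℝ := C * (1 + (ρ * r + r)) * (1 + r + (ρ * r + r)) with hK
  have hK0 : 0 ≤ K := by positivity
  refine ⟨K, hK0, fun n H f hf hper hvan hH => ?_⟩
  -- growth
  have hball : ∀ B : ℝ, (∀ y, ‖y‖ ≤ r → ‖f y‖ ≤ B) → 0 ≤ B →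
      ∀ z, ‖z‖ ≤ ρ * r → ‖f z‖ ≤ Real.exp (n * K) * B := by
    intro B hB hB0 z hz
    obtain ⟨l, hl, hzl⟩ := hR z
    have h1 : ‖z - l‖ ≤ r := by linarith
    have h2 : ‖l‖ ≤ ρ * r + r := by
      have : l = z - (z - l) := by simp
      calc ‖l‖ = ‖z - (z - l)‖ := by rw [← this]
        _ ≤ ‖z‖ + ‖z - l‖ := norm_sub_le _ _
        _ ≤ ρ * r + r := by linarith
    have h3 := hper l hl (z - l)
    rw [sub_add_cancel] at h3
    refine h3.trans ?_
    have h4 : C * (1 + ‖l‖) * (1 + ‖z - l‖ + ‖l‖) ≤ K := by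
      rw [hK]
      gcongr
    have h5 : (n : ℝ) * (C * (1 + ‖l‖) * (1 + ‖z - l‖ + ‖l‖)) ≤ n * K := by gcongr
    have h6 := hB _ h1
    gcongr
  -- maximum
  obtain ⟨z₀, hz₀, hmax⟩ := (isCompact_closedBall (0 : Fin A.g → ℂ) r).exists_isMaxOn
    ⟨0, by simp [hr0.le]⟩ ((continuous_iff_continuousAt.mpr fun z => (hf z).continuousAt).norm
      |>.continuousOn)
  have hz₀' : ‖z₀‖ ≤ r := by simpa using hz₀
  have hB : ∀ y, ‖y‖ ≤ r → ‖f y‖ ≤ ‖f z₀‖ := fun y hy => hmax (by simpa using hy)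
  have hline := differentiable_line hf 0 z₀
  have h1 : ‖f (0 + (1 : ℂ) • z₀)‖ * ρ ^ H ≤ Real.exp (n * K) * ‖f z₀‖ := by
    refine schwarz_one hline (H := H) ?_ hρ1 ?_
    · intro i hi
      simp only [zero_add]
      exact line_eq_zero hf hvan z₀ i hi
    · intro s hs
      apply hball _ hB (norm_nonneg _)
      rw [zero_add, norm_smul, hs]
      gcongr
  rw [zero_add, one_smul] at h1
  have h2 : ρ ^ H = Real.exp H := by
    rw [hρ, ← Real.exp_nat_mul, mul_one]
  rw [h2] at h1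
  have h3 : Real.exp (n * K) < Real.exp H := Real.exp_lt_exp.mpr hH
  have h4 : ‖f z₀‖ = 0 := by
    by_contra hne
    have h5 : 0 < ‖f z₀‖ := lt_of_le_of_ne (norm_nonneg _) (Ne.symm hne)
    nlinarith
  intro z
  obtain ⟨l, hl, hzl⟩ := hR z
  have h5 := hper l hl (z - l)
  rw [sub_add_cancel] at h5
  have h6 := hB (z - l) (by linarith)
  rw [h4] at h6
  have h7 : ‖f (z - l)‖ = 0 := le_antisymm h6 (norm_nonneg _)
  rw [h7, mul_zero] at h5
  exact norm_le_zero_iff.mp h5

/-- the monomial with exponents `d`, homogenised by `h` -/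
noncomputable def mon {g : ℕ} {κ : Type} [Fintype κ] (u : κ → (Fin g → ℂ) → ℂ) (h : (Fin g → ℂ) → ℂ)
    {M : ℕ} (d : κ → Fin (M + 1)) (z : Fin g → ℂ) : ℂ :=
  ∏ k, (u k z ^ (d k : ℕ) * h z ^ (M - d k))

lemma analyticAt_mon {g : ℕ} {κ : Type} [Fintype κ] {u : κ → (Fin g → ℂ) → ℂ}
    {h : (Fin g → ℂ) → ℂ} (hu : ∀ k z, AnalyticAt ℂ (u k) z) (hh : ∀ z, AnalyticAt ℂ h z)
    {M : ℕ} (d : κ → Fin (M + 1)) (z : Fin g → ℂ) : AnalyticAt ℂ (mon u h d) z := by
  unfold mon
  exact Finset.analyticAt_fun_prod _ fun k _ => ((hu k z).pow _).mul ((hh z).pow _)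

lemma mon_mul {g : ℕ} {κ : Type} [Fintype κ] {u : κ → (Fin g → ℂ) → ℂ}
    {h : (Fin g → ℂ) → ℂ} {M : ℕ} (d : κ → Fin (M + 1)) {z z' : Fin g → ℂ} {j : ℂ}
    (hu : ∀ k, u k z' = j * u k z) (hh : h z' = j * h z) :
    mon u h d z' = j ^ (Fintype.card κ * M) * mon u h d z := by
  unfold mon
  rw [Finset.prod_congr rfl (g := fun k => j ^ M * (u k z ^ (d k : ℕ) * h z ^ (M - d k)))]
  · rw [Finset.prod_mul_distrib, Finset.prod_const, Finset.card_univ, ← pow_mul, mul_comm M]
  · intro k _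
    rw [hu, hh, mul_pow, mul_pow]
    have h1 : j ^ M = j ^ (d k : ℕ) * j ^ (M - d k) := by
      rw [← pow_add]
      congr 1
      have := (d k).2
      omega
    rw [h1]
    ring

lemma mon_eq {g : ℕ} {κ : Type} [Fintype κ] {u : κ → (Fin g → ℂ) → ℂ}
    {h : (Fin g → ℂ) → ℂ} {M : ℕ} (d : κ → Fin (M + 1)) {z : Fin g → ℂ} (hz : h z ≠ 0) :
    mon u h d z = h z ^ (Fintype.card κ * M) * ∏ k, (u k z / h z) ^ (d k : ℕ) := by
  unfold mon
  rw [Finset.prod_congr rfl (g := fun k => h z ^ M * (u k z / h z) ^ (d k : ℕ))]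
  · rw [Finset.prod_mul_distrib, Finset.prod_const, Finset.card_univ, ← pow_mul, mul_comm M]
  · intro k _
    have h1 : h z ^ M = h z ^ (d k : ℕ) * h z ^ (M - d k) := by
      rw [← pow_add]
      congr 1
      have := (d k).2
      omega
    rw [h1, div_pow]
    field_simp

/-- **Siegel**: `g+1` quotients with a common denominator and a common factor of automorphy are
algebraically dependent. -/
theorem exists_relation (A : AbVar) {κ : Type} [Fintype κ] (hκ : Fintype.card κ = A.g + 1)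
    (u : κ → (Fin A.g → ℂ) → ℂ) (h : (Fin A.g → ℂ) → ℂ) (hu : ∀ k z, AnalyticAt ℂ (u k) z)
    (hh : ∀ z, AnalyticAt ℂ h z)
    (hfac : ∃ C : ℝ, 0 ≤ C ∧ ∀ l ∈ A.Λ, ∀ z, ∃ j : ℂ,
      ‖j‖ ≤ Real.exp (C * (1 + ‖l‖) * (1 + ‖z‖ + ‖l‖)) ∧ (∀ k, u k (z + l) = j * u k z) ∧
        h (z + l) = j * h z) :
    ∃ S : MvPolynomial κ ℂ, S ≠ 0 ∧ ∀ z, h z ≠ 0 → eval (fun k => u k z / h z) S = 0 := by
  classical
  obtain ⟨C, hC, hfac⟩ := hfac
  obtain ⟨K, hK0, hK⟩ := eq_zero_of_vanish A hC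
  obtain ⟨c, hc⟩ := exists_nat_gt ((A.g + 1) * K)
  set M : ℕ := c ^ A.g with hM
  set H : ℕ := c * (M + 1) with hH
  -- the linear conditions
  let Φ : ((κ → Fin (M + 1)) → ℂ) →ₗ[ℂ] ((Fin A.g → Fin H) → ℂ) :=
    LinearMap.pi fun μ => ∑ d : κ → Fin (M + 1),
      (dds ((word μ).map ev) (mon u h d) 0) • LinearMap.proj d
  have hlt : Module.finrank ℂ ((Fin A.g → Fin H) → ℂ) <
      Module.finrank ℂ ((κ → Fin (M + 1)) → ℂ) := by
    rw [Module.finrank_pi, Module.finrank_pi, Fintype.card_fun, Fintype.card_fun, Fintype.card_fin,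
      Fintype.card_fin, Fintype.card_fin, hκ, hH, mul_pow, pow_succ, mul_comm]
    have h1 : c ^ A.g < M + 1 := Nat.lt_succ_self _
    have h2 : 0 < (M + 1) ^ A.g := by positivity
    exact Nat.mul_lt_mul_of_pos_left h1 h2
  obtain ⟨p, hpker, hp0⟩ := (Submodule.ne_bot_iff _).mp (LinearMap.ker_ne_bot_of_finrank_lt
    (f := Φ) hlt)
  set f : (Fin A.g → ℂ) → ℂ := fun z => ∑ d, p d * mon u h d z with hf
  have hfan : ∀ z, AnalyticAt ℂ f z := fun z =>
    Finset.analyticAt_fun_sum _ fun d _ => analyticAt_const.mul (analyticAt_mon hu hh d z)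
  have hf0 : ∀ z, f z = 0 := by
    refine hK (Fintype.card κ * M) H f hfan ?_ ?_ ?_
    · intro l hl z
      obtain ⟨j, hj, hju, hjh⟩ := hfac l hl z
      have h1 : f (z + l) = j ^ (Fintype.card κ * M) * f z := by
        rw [hf]
        simp only [Finset.mul_sum]
        apply Finset.sum_congr rfl
        intro d _
        rw [mon_mul d hju hjh]
        ring
      rw [h1, norm_mul, norm_pow]
      gcongr
      calc ‖j‖ ^ (Fintype.card κ * M) ≤
          Real.exp (C * (1 + ‖l‖) * (1 + ‖z‖ + ‖l‖)) ^ (Fintype.card κ * M) := by gcongr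
        _ = _ := by rw [← Real.exp_nat_mul]
    · intro μ
      have h1 : f = ∑ d, fun z => p d * mon u h d z := by
        funext z
        rw [Finset.sum_apply]
      rw [h1, dds_sum Finset.univ (fun d z => p d * mon u h d z) ((word μ).map ev)
        (fun d _ => analyticAt_const.mul (analyticAt_mon hu hh d 0))]
      have h2 := congrFun (LinearMap.mem_ker.mp hpker) μ
      simp only [Φ, LinearMap.pi_apply, LinearMap.sum_apply, LinearMap.smul_apply,
        LinearMap.proj_apply, smul_eq_mul, Pi.zero_apply] at h2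
      rw [← h2]
      apply Finset.sum_congr rfl
      intro d _
      rw [dds_const_mul _ _ (analyticAt_mon hu hh d 0), mul_comm]
    · rw [hκ, hH]
      push_cast
      have h1 : (0 : ℝ) < (M : ℝ) + 1 := by positivity
      have h2 : (0 : ℝ) ≤ (A.g + 1) * K := by positivity
      nlinarith
  set S : MvPolynomial κ ℂ := ∑ d : κ → Fin (M + 1),
    monomial (Finsupp.equivFunOnFinite.symm fun k => ((d k : ℕ))) (p d) with hS
  refine ⟨S, ?_, ?_⟩
  · intro hS0
    apply hp0
    funext d₀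
    have h1 : S.coeff (Finsupp.equivFunOnFinite.symm fun k => ((d₀ k : ℕ))) = p d₀ := by
      rw [hS, coeff_sum, Finset.sum_eq_single d₀]
      · rw [coeff_monomial, if_pos rfl]
      · intro d _ hd
        rw [coeff_monomial, if_neg]
        intro h2
        apply hd
        funext k
        have h3 := DFunLike.congr_fun h2 k
        simp only [Finsupp.equivFunOnFinite_symm_apply_apply] at h3
        exact Fin.ext h3
      · intro h2; exact absurd (Finset.mem_univ _) h2
    rw [← h1, hS0, coeff_zero]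
    rfl
  · intro z hz
    have h1 := hf0 z
    rw [hf] at h1
    simp only [mon_eq _ hz] at h1
    have h2 : h z ^ (Fintype.card κ * M) ≠ 0 := pow_ne_zero _ hz
    rw [hS, map_sum]
    have h3 : ∀ d : κ → Fin (M + 1), eval (fun k => u k z / h z)
        (monomial (Finsupp.equivFunOnFinite.symm fun k => ((d k : ℕ))) (p d)) =
        p d * ∏ k, (u k z / h z) ^ (d k : ℕ) := by
      intro d
      rw [eval_monomial, Finsupp.prod_fintype _ _ (fun i => pow_zero _)]
      rfl
    simp only [h3]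
    have h4 : h z ^ (Fintype.card κ * M) * (∑ d, p d * ∏ k, (u k z / h z) ^ (d k : ℕ)) = 0 := by
      rw [Finset.mul_sum, ← h1]
      apply Finset.sum_congr rfl
      intro d _
      ring
    exact (mul_eq_zero.mp h4).resolve_left h2

end Pool.Agent.Helper39.AF
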