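import Pool.Agent.Helper7.Periods
import Pool.Agent.Helper8.HomFil

/-!
The abelian subvariety of `X` given by an injective linear map `ℂ^h → ℂ^g` with algebraic entries,
for which the preimage of the period lattice is a lattice.
-/

open scoped ComplexConjugate

namespace Pool.Agent.Helper39.AF

open Module Pool.Agent.GPC

section lin

variable {g h : ℕ} (L : Fin h → Fin g → ℂ)

/-- the linear map with columns `L b` -/
noncomputable def lm : (Fin h → ℂ) →ₗ[ℂ] (Fin g → ℂ) where
  toFun w := ∑ b, w b • L b
  map_add' w w' := by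
    simp only [Pi.add_apply, add_smul, Finset.sum_add_distrib]
  map_smul' c w := by
    simp only [Pi.smul_apply, smul_eq_mul, mul_smul, Finset.smul_sum, RingHom.id_apply]

lemma lm_apply (w : Fin h → ℂ) : lm L w = ∑ b, w b • L b := rfl

lemma lm_single (b : Fin h) : lm L (Pi.single b 1) = L b := by
  rw [lm_apply, Finset.sum_eq_single b]
  · simp
  · intro c _ hc; rw [Pi.single_eq_of_ne hc, zero_smul]
  · simp

lemma hermForm_sum_left (H : Matrix (Fin g) (Fin g) ℂ) {α : Type*} (s : Finset α)
    (c : α → ℂ) (v : α → Fin g → ℂ) (w : Fin g → ℂ) :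
    hermForm H (∑ b ∈ s, c b • v b) w = ∑ b ∈ s, c b * hermForm H (v b) w := by
  classical
  induction s using Finset.induction_on with
  | empty => simp [hermForm]
  | insert a s ha ih =>
    rw [Finset.sum_insert ha, Finset.sum_insert ha, Helper7.hermForm_add_left, ih,
      Helper7.hermForm_smul_left]

lemma hermForm_sum_right (H : Matrix (Fin g) (Fin g) ℂ) {α : Type*} (s : Finset α)
    (c : α → ℂ) (v : α → Fin g → ℂ) (w : Fin g → ℂ) :
    hermForm H w (∑ b ∈ s, c b • v b) = ∑ b ∈ s, conj (c b) * hermForm H w (v b) := by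
  classical
  induction s using Finset.induction_on with
  | empty => simp [hermForm]
  | insert a s ha ih =>
    rw [Finset.sum_insert ha, Finset.sum_insert ha, Helper7.hermForm_add_right, ih,
      Helper7.hermForm_smul_right]

lemma bilForm_comm_sum_right (q : Matrix (Fin g) (Fin g) ℂ) {α : Type*} (s : Finset α)
    (c : α → ℂ) (v : α → Fin g → ℂ) (w : Fin g → ℂ) :
    bilForm q w (∑ b ∈ s, c b • v b) = ∑ b ∈ s, c b * bilForm q w (v b) := by
  classical
  induction s using Finset.induction_on with
  | empty => simp [bilForm]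
  | insert a s ha ih =>
    rw [Finset.sum_insert ha, Finset.sum_insert ha, Helper7.bilForm_add_right, ih,
      bilForm_smul_right]

lemma bilForm_sum_left (q : Matrix (Fin g) (Fin g) ℂ) {α : Type*} (s : Finset α)
    (c : α → ℂ) (v : α → Fin g → ℂ) (w : Fin g → ℂ) :
    bilForm q (∑ b ∈ s, c b • v b) w = ∑ b ∈ s, c b * bilForm q (v b) w := by
  obtain ⟨S, hS⟩ : ∃ S : Fin g → ℂ, ∀ z : Fin g → ℂ, bilForm q z w = ∑ a, z a * S a := by
    refine ⟨fun a => ∑ b, q a b * w b, fun z => ?_⟩
    unfold bilForm
    exact Finset.sum_congr rfl fun a _ => by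
      rw [Finset.mul_sum]; exact Finset.sum_congr rfl fun b _ => by ring
  simp only [hS]
  have h2 : ∀ a, (∑ b ∈ s, c b • v b) a = ∑ b ∈ s, c b * v b a := by
    intro a
    rw [Finset.sum_apply]
    rfl
  simp only [h2, Finset.sum_mul, Finset.mul_sum]
  rw [Finset.sum_comm]
  exact Finset.sum_congr rfl fun b _ => Finset.sum_congr rfl fun a _ => by ring

/-- the pulled back Hermitian form -/
noncomputable def pullH (H : Matrix (Fin g) (Fin g) ℂ) : Matrix (Fin h) (Fin h) ℂ :=
  Matrix.of fun a b => hermForm H (L a) (L b)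

/-- the pulled back bilinear form -/
noncomputable def pullQ (q : Matrix (Fin g) (Fin g) ℂ) : Matrix (Fin h) (Fin h) ℂ :=
  Matrix.of fun a b => bilForm q (L a) (L b)

lemma hermForm_pull (H : Matrix (Fin g) (Fin g) ℂ) (z w : Fin h → ℂ) :
    hermForm (pullH L H) z w = hermForm H (lm L z) (lm L w) := by
  rw [lm_apply, lm_apply, hermForm_sum_left]
  unfold hermForm pullH
  refine Finset.sum_congr rfl fun a _ => ?_
  have := hermForm_sum_right H Finset.univ w L (L a)
  unfold hermForm at this
  rw [this, Finset.mul_sum]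
  refine Finset.sum_congr rfl fun b _ => ?_
  simp only [Matrix.of_apply, hermForm]
  ring

lemma bilForm_pull (q : Matrix (Fin g) (Fin g) ℂ) (z w : Fin h → ℂ) :
    bilForm (pullQ L q) z w = bilForm q (lm L z) (lm L w) := by
  rw [lm_apply, lm_apply, bilForm_sum_left]
  unfold bilForm pullQ
  refine Finset.sum_congr rfl fun a _ => ?_
  have := bilForm_comm_sum_right q Finset.univ w L (L a)
  unfold bilForm at this
  rw [this, Finset.mul_sum]
  refine Finset.sum_congr rfl fun b _ => ?_
  simp only [Matrix.of_apply, bilForm]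
  ring

lemma analyticAt_lm (w : Fin h → ℂ) : AnalyticAt ℂ (lm L) w :=
  (LinearMap.toContinuousLinearMap (lm L)).analyticAt w

lemma pd_lm {f : (Fin g → ℂ) → ℂ} (w : Fin h → ℂ) (hf : DifferentiableAt ℂ f (lm L w))
    (a : Fin h) : pd a (fun w => f (lm L w)) w = ∑ b, L a b * pd b f (lm L w) := by
  have h1 : HasFDerivAt (fun w => f (lm L w))
      ((fderiv ℂ f (lm L w)).comp (LinearMap.toContinuousLinearMap (lm L))) w :=
    hf.hasFDerivAt.comp w (LinearMap.toContinuousLinearMap (lm L)).hasFDerivAt
  unfold pd
  rw [h1.fderiv]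
  show fderiv ℂ f (lm L w) (lm L (Pi.single a 1)) = _
  rw [lm_single, fderiv_eq_sum_pd]
  rfl

end lin

lemma isAlgQuadratic_sum {N : ℕ} {α : Type*} (s : Finset α) (c : α → ℂ)
    (Q : α → MvPolynomial (Fin (N + 1)) ℂ) (hc : ∀ a ∈ s, IsAlgebraic ℚ (c a))
    (hQ : ∀ a ∈ s, IsAlgQuadratic (Q a)) :
    IsAlgQuadratic (∑ a ∈ s, MvPolynomial.C (c a) * Q a) := by
  refine ⟨?_, ?_⟩
  · apply MvPolynomial.IsHomogeneous.sum
    intro a ha
    have := (MvPolynomial.isHomogeneous_C (Fin (N + 1)) (c a)).mul (hQ a ha).1
    simpa using this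
  · intro m
    rw [MvPolynomial.coeff_sum]
    have h1 : ∀ a ∈ s, IsAlgebraic ℚ (MvPolynomial.coeff m (MvPolynomial.C (c a) * Q a)) := by
      intro a ha
      rw [MvPolynomial.coeff_C_mul]
      exact (hc a ha).mul ((hQ a ha).2 m)
    exact Finset.sum_induction _ (fun x => IsAlgebraic ℚ x) (fun x y hx hy => hx.add hy)
      (isAlgebraic_zero) h1

/-- The abelian subvariety given by `L`. -/
noncomputable def sub (X : AbVar) {h : ℕ} (L : Fin h → Fin X.g → ℂ)
    (hL : ∀ b a, IsAlgebraic ℚ (L b a)) (hinj : Function.Injective (lm L))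
    (hspan : Submodule.span ℝ
      ((X.Λ.comap ((lm L).restrictScalars ℤ) : Submodule ℤ (Fin h → ℂ)) : Set (Fin h → ℂ)) = ⊤) :
    AbVar where
  g := h
  N := X.N
  Λ := X.Λ.comap ((lm L).restrictScalars ℤ)
  lattice := by
    refine ⟨?_, hspan⟩
    have := X.discrete
    have hc : Continuous (lm L) := (LinearMap.toContinuousLinearMap (lm L)).continuous
    exact DiscreteTopology.of_continuous_injective
      (f := fun l : (X.Λ.comap ((lm L).restrictScalars ℤ) : Submodule ℤ (Fin h → ℂ)) =>
        (⟨lm L l.1, l.2⟩ : X.Λ)) (by fun_prop) (by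
        intro a b hab
        exact Subtype.ext (hinj (congrArg Subtype.val hab)))
  H := pullH L X.H
  χ := fun w => X.χ (lm L w)
  appellHumbert := by
    refine ⟨?_, ?_, ?_, ?_, ?_⟩
    · apply Matrix.IsHermitian.ext
      intro a b
      simp only [pullH, Matrix.of_apply]
      rw [Helper7.hermForm_symm X.H X.H_herm (L a) (L b)]
      simp
    · intro z hz
      rw [hermForm_pull]
      apply X.H_pos
      intro h0
      exact hz (hinj (by rw [h0, map_zero]))
    · intro l hl m hm
      rw [hermForm_pull]
      exact X.integral _ hl _ hm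
    · intro l hl
      exact X.χ_norm _ hl
    · intro l hl m hm
      rw [hermForm_pull, map_add]
      exact X.χ_add _ hl _ hm
  q := pullQ L X.q
  q_symm := by
    apply Matrix.IsSymm.ext
    intro a b
    simp only [pullQ, Matrix.of_apply]
    rw [Helper7.bilForm_symm X.q X.q_symm]
  θ := fun i w => X.θ i (lm L w)
  theta := by
    intro i
    refine ⟨fun w _ => (X.entire i _ trivial).comp (analyticAt_lm L w), ?_⟩
    intro l hl z
    have h1 := X.quasi i (lm L l) hl (lm L z)
    rw [map_add, h1, hermForm_pull, hermForm_pull, bilForm_pull, bilForm_pull]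
  embedding := by
    refine ⟨fun z => X.base_free _, ?_, ?_⟩
    · intro z w hzw
      have h1 := X.separates (lm L z) (lm L w) hzw
      rw [← map_sub] at h1
      exact h1
    · intro z v hv
      have hd : ∀ i, DifferentiableAt ℂ (X.θ i) (lm L z) := fun i =>
        (X.entire i _ trivial).differentiableAt
      have h1 : ∀ i, ∑ a, v a * pd a (fun w => X.θ i (lm L w)) z =
          fderiv ℂ (X.θ i) (lm L z) (lm L v) := by
        intro i
        simp only [pd_lm L z (hd i)]
        rw [lm_apply L v, map_sum]
        refine Finset.sum_congr rfl fun a _ => ?_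
        rw [map_smul, smul_eq_mul, fderiv_eq_sum_pd]
      have h2 : lm L v = 0 := by
        apply X.immersive (lm L z)
        intro i j
        have := hv i j
        rw [h1, h1] at this
        exact this
      exact hinj (by rw [h2, map_zero])
  algebraic := by
    have hd : ∀ i w, DifferentiableAt ℂ (X.θ i) (lm L w) := fun i w =>
        (X.entire i _ trivial).differentiableAt
    refine ⟨?_, ?_, ?_⟩
    · intro a i j
      choose Q hQ hQe using fun b => X.wronskian b i j
      refine ⟨∑ b, MvPolynomial.C (L a b) * Q b,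
        isAlgQuadratic_sum _ _ _ (fun b _ => hL a b) (fun b _ => hQ b), ?_⟩
      intro z
      rw [pd_lm L z (hd i z), pd_lm L z (hd j z), map_sum, Finset.mul_sum, Finset.mul_sum,
        ← Finset.sum_sub_distrib]
      refine Finset.sum_congr rfl fun b _ => ?_
      rw [map_mul, MvPolynomial.eval_C, ← hQe b]
      ring
    · intro a b i
      choose Q hQ hQe using fun p : Fin X.g × Fin X.g => X.second p.1 p.2 i
      refine ⟨∑ p : Fin X.g × Fin X.g, MvPolynomial.C (L a p.1 * L b p.2) * Q p,
        isAlgQuadratic_sum _ _ _ (fun p _ => (hL a p.1).mul (hL b p.2)) (fun p _ => hQ p), ?_⟩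
      intro z
      have h1 : pd b (fun w => X.θ i (lm L w)) =
          fun w => ∑ c, L b c * pd c (X.θ i) (lm L w) := by
        funext w
        exact pd_lm L w (hd i w) b
      have hdd : ∀ c w, DifferentiableAt ℂ (pd c (X.θ i)) w := by
        intro c w
        have h2 := (X.entire i w trivial).fderiv
        exact (((ContinuousLinearMap.apply ℂ ℂ (Pi.single c 1)).analyticAt _).comp
          h2).differentiableAt
      have h3 : pd a (fun w => ∑ c, L b c * pd c (X.θ i) (lm L w)) z =
          ∑ c, L b c * ∑ d, L a d * pd d (pd c (X.θ i)) (lm L z) := by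
        have h4 : pd a (fun w => ∑ c, L b c * pd c (X.θ i) (lm L w)) z =
            pd a (fun w => (fun y => ∑ c, L b c * pd c (X.θ i) y) (lm L w)) z := rfl
        rw [h4, pd_lm L z (f := fun y => ∑ c, L b c * pd c (X.θ i) y)]
        · simp only [Finset.mul_sum]
          rw [Finset.sum_comm]
          refine Finset.sum_congr rfl fun d _ => ?_
          have h5 : pd d (fun y => ∑ c, L b c * pd c (X.θ i) y) (lm L z) =
              ∑ c, L b c * pd d (pd c (X.θ i)) (lm L z) := by
            have h6 : HasFDerivAt (fun y => ∑ c, L b c * pd c (X.θ i) y)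
                (∑ c, L b c • fderiv ℂ (pd c (X.θ i)) (lm L z)) (lm L z) := by
              apply HasFDerivAt.fun_sum
              intro c _
              exact (hdd c _).hasFDerivAt.const_mul (L b c)
            unfold pd at h6 ⊢
            rw [h6.fderiv]
            simp
          rw [h5, Finset.mul_sum]
          refine Finset.sum_congr rfl fun c _ => by ring
        · exact DifferentiableAt.fun_sum fun c _ => (hdd c _).const_mul _
      rw [h1, h3, pd_lm L z (hd i z), map_sum, Fintype.sum_prod_type]
      have h7 : X.θ i (lm L z) * (∑ c, L b c * ∑ d, L a d * pd d (pd c (X.θ i)) (lm L z)) =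
          ∑ d, ∑ c, X.θ i (lm L z) * (L b c * (L a d * pd d (pd c (X.θ i)) (lm L z))) := by
        rw [Finset.sum_comm]
        simp only [Finset.mul_sum]
      rw [h7, Finset.sum_mul_sum, ← Finset.sum_sub_distrib]
      refine Finset.sum_congr rfl fun d _ => ?_
      rw [← Finset.sum_sub_distrib]
      refine Finset.sum_congr rfl fun c _ => ?_
      rw [map_mul, MvPolynomial.eval_C, ← hQe (d, c)]
      ring
    · intro i j hi
      have := X.origin i j
      simp only [map_zero] at hi ⊢
      exact this hi

end Pool.Agent.Helper39.AF
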